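import Pool.Agent.TH826.UH.Tor
set_option autoImplicit false

/-!
The two properties of the families of symbols in the final theorem.
-/

namespace Pool.Agent.E8helper67.PS

open Polynomial

open Pool.Agent.TH826.MK (KQ symb Torus Unramified)

open Pool.Agent.TH826.HD (PRing POpen pent toP pcst ppol)

universe v

/-- The symbols `{z, (x - b_k) / (x - b_l)}` on the curve `z² - G(x) z + 1 = 0` are unramified: in
every fraction field of the coordinate ring they lie in the part of rational Milnor `K_2` that is
unramified at all discrete valuations. -/
def SymbUnram {L : Type*} [Field L] (G : L[X]) {n : ℕ} (b : Fin n → L) : Prop :=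
  ∀ (E : Type v) [Field E] [Algebra (PRing G) E] [IsFractionRing (PRing G) E],
    ∃ φ : POpen G b →+* E, (∀ r : PRing G, φ (toP G b r) = algebraMap (PRing G) E r) ∧
      ∀ k l, KQ.map 2 φ (symb (pent G b k l)) ∈ Unramified E 2

/-- There are `M * N` loops in the complex points of the open part of the curve, `N` of them over
each of the embeddings `σ_i`, on which the `M * N` symbols `{z, (x - b_k) / (x - b_0)}` have
regulators with nonvanishing determinant. The loops lie in the region `G'(x) ≠ 0`, where the plane
curve `z² - G(x) z + 1 = 0` is smooth, so they are loops on the smooth projective curve. -/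
def RegIndep {L : Type*} [Field L] (G : L[X]) {M N : ℕ} (b : Fin (M * N + 1) → L)
    (σ : Fin M → (L →+* ℂ)) : Prop :=
  ∃ Γ : Fin (M * N) → Torus (POpen G b) 1,
    (∀ l θ (y : L), (Γ l).e θ (pcst G b y) = σ l.divNat y) ∧
    (∀ l θ, (Γ l).e θ (toP G b (ppol G (derivative G))) ≠ 0) ∧
    (Matrix.of fun l k : Fin (M * N) => (Γ l).reg (symb (pent G b k.succ 0))).det ≠ 0

end Pool.Agent.E8helper67.PS
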