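import Pool.Agent.E8helper67.PS.Fin
import Pool.Agent.E8helper67.PS.Def
set_option autoImplicit false

/-!
The proof of the final theorem.
-/

namespace Pool.Agent.E8helper67.PS

open Polynomial

open Pool.Agent.TH826.MK (KQ symb Torus Unramified)

open Pool.Agent.TH826.HD (PRing POpen pent toP pcst pDel isDomain_PRing pDel_ne_zero liftP
  liftP_toP)

/-- The final theorem. -/
theorem main.{u, v} (g M : ℕ) (hM : 0 < M) (K : Type u) [Field K] [NumberField K]
    (s : Fin M → (K →+* ℂ)) (F B f : K[X]) (hF : F.Monic)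
    (hint : ∀ i, IsIntegral ℤ (F.coeff i)) (hBf : F ^ 2 - 4 = B ^ 2 * f) (hf : f.Separable)
    (hcop : IsCoprime B f ∨ g = 1) (hdeg : f.natDegree = 2 * g + 2)
    (hR : ∀ i, ¬ RealFactor (F.map (s i))) :
    ∃ (L : Type u) (_ : Field L) (_ : NumberField L) (_ : Algebra K L)
      (σ : Fin M → (L →+* ℂ)) (b : Fin (M * (2 * g) + 1) → L),
      (∀ i x, σ i (algebraMap K L x) = s i x) ∧
      (∀ k, IsIntegral ℤ (b k)) ∧
      IsDomain (PRing (F.map (algebraMap K L))) ∧
      SymbUnram.{v} (F.map (algebraMap K L)) b ∧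
      RegIndep (N := 2 * g) (F.map (algebraMap K L)) b σ := by
  classical
  have hn : 0 < F.natDegree := by
    by_contra h0
    have h1 : F = 1 := hF.natDegree_eq_zero.1 (by omega)
    rw [h1] at hBf
    have hf0 : f ≠ 0 := hf.ne_zero
    have hB0 : B ≠ 0 := by
      intro hB
      rw [hB] at hBf
      have h2 := congrArg (Polynomial.eval 0) hBf
      norm_num at h2
    have h2 := congrArg natDegree hBf
    rw [natDegree_mul (pow_ne_zero 2 hB0) hf0, hdeg] at h2
    have h3 : ((1 : K[X]) ^ 2 - 4).natDegree = 0 := by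
      have h4 : ((1 : K[X]) ^ 2 - 4) = C (1 - 4) := by
        rw [C_sub, C_1, one_pow]
        rfl
      rw [h4, natDegree_C]
    omega
  -- the stars
  have hst : ∀ i, Nonempty (Star (F.map (s i)) (2 * g)) := by
    intro i
    refine exists_star (B := B.map (s i)) (f := f.map (s i))
      (by rw [natDegree_map_eq_of_injective (s i).injective]; exact hn) ?_ ?_
      (hf.map) (hcop.imp (fun h => h.map (mapRingHom (s i))) fun h => ?_)
    · have h1 := congrArg (Polynomial.map (s i)) hBf
      simpa [Polynomial.map_sub, Polynomial.map_mul, Polynomial.map_pow] using h1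
    · rw [natDegree_map_eq_of_injective (s i).injective]
      exact hdeg
    · rw [natDegree_map_eq_of_injective (s i).injective, hdeg, h]
  let P : Setup F M (2 * g) := ⟨s, fun i => (hst i).some⟩
  obtain ⟨S, hS, b', hb', hlin⟩ := Setup.exists_points (P := P) hF hn hM hR
  -- the field
  let L₀ : IntermediateField K (AlgebraicClosure K) :=
    IntermediateField.adjoin K (Set.range b')
  have hfin : FiniteDimensional K L₀ :=
    IntermediateField.finiteDimensional_adjoin fun x _ => Algebra.IsIntegral.isIntegral x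
  have hNF : NumberField L₀ := by
    have : FiniteDimensional ℚ L₀ := FiniteDimensional.trans ℚ K L₀
    exact { to_charZero := inferInstance, to_finiteDimensional := this }
  let ι : L₀ →+* AlgebraicClosure K := algebraMap L₀ (AlgebraicClosure K)
  have hι : Function.Injective ι := ι.injective
  let σ : Fin M → (L₀ →+* ℂ) := fun i => (S i).comp ι
  let b : Fin (M * (2 * g) + 1) → L₀ := fun k =>
    ⟨b' k, IntermediateField.subset_adjoin K _ ⟨k, rfl⟩⟩
  have hσb : ∀ i k, σ i (b k) = S i (b' k) := fun i k => rfl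
  have hσ : ∀ i x, σ i (algebraMap K L₀ x) = s i x := by
    intro i x
    have h1 := hS i x
    exact h1
  set G : L₀[X] := F.map (algebraMap K L₀) with hG
  have hGm : G.Monic := hF.map _
  have hGn : 0 < G.natDegree := by
    rw [hG, natDegree_map_eq_of_injective (algebraMap K L₀).injective]
    exact hn
  have hGint : ∀ i, IsIntegral ℤ (G.coeff i) := by
    intro i
    rw [hG, coeff_map]
    exact (hint i).map ((algebraMap K L₀).toIntAlgHom)
  have hGσ : ∀ i, G.map (σ i) = F.map (s i) := by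
    intro i
    rw [hG, Polynomial.map_map]
    congr 1
    exact RingHom.ext fun x => hσ i x
  have hιG : ∀ k, ι (G.eval (b k)) = (F.map (algebraMap K (AlgebraicClosure K))).eval (b' k) := by
    intro k
    rw [hG, eval_map, eval_map, hom_eval₂]
    rfl
  have hbint : ∀ k, IsIntegral ℤ (b k) := by
    intro k
    refine isIntegral_root hGm hGn hGint ?_
    obtain ⟨ζ, ⟨n, hn0, hζn⟩, hζ, -⟩ := hb' k
    rw [← isIntegral_algHom_iff (ι.toIntAlgHom) hι]
    show IsIntegral ℤ (ι (G.eval (b k)))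
    rw [hιG, hζ]
    have h1 : IsIntegral ℤ ζ := ⟨X ^ n - 1, monic_X_pow_sub_C 1 hn0, by simp [hζn]⟩
    have h2 : IsIntegral ℤ ζ⁻¹ := ⟨X ^ n - 1, monic_X_pow_sub_C 1 hn0, by simp [hζn]⟩
    exact h1.add h2
  have hσζ : ∀ i k, ∃ (ζ : ℂ) (n : ℕ), n ≠ 0 ∧ ζ ^ n = 1 ∧ σ i (G.eval (b k)) = ζ + ζ⁻¹ := by
    intro i k
    obtain ⟨ζ, ⟨n, hn0, hζn⟩, hζ, -⟩ := hb' k
    refine ⟨S i ζ, n, hn0, by rw [← map_pow, hζn, map_one], ?_⟩
    show S i (ι (G.eval (b k))) = _
    rw [hιG, hζ, map_add, map_inv₀]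
  have hoff : ∀ (i : Fin M) (j : Fin (2 * g)) (k), ((P.st i).g j).Off (σ i (b k)) := by
    intro i j k
    obtain ⟨ζ, hζ1, hζ, hgood⟩ := hb' k
    refine Star.Good.off (P.st i) (hgood i) ?_ j
    rw [hσb, hS.eval, hζ, Setup.ext_add_inv i hζ1]
  refine ⟨L₀, inferInstance, hNF, inferInstance, σ, b, hσ, hbint, isDomain_PRing hGn, ?_, ?_⟩
  · intro E _ _ _
    have hinj : Function.Injective (algebraMap (PRing G) E) := IsFractionRing.injective _ _
    have hne : algebraMap (PRing G) E (pDel G b) ≠ 0 := by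
      rw [Ne, map_eq_zero_iff _ hinj]
      exact pDel_ne_zero b
    exact ⟨liftP (algebraMap (PRing G) E) hne, fun r => liftP_toP _ _ _,
      fun k l => Pool.Agent.TH826.UH.symb_mem_unramified _ (σ ⟨0, hM⟩) hGint hbint k l
        (hσζ ⟨0, hM⟩)⟩
  · let e : Fin (M * (2 * g)) ≃ Fin M × Fin (2 * g) := finProdFinEquiv.symm
    refine ⟨fun l => ((P.st (e l).1).g (e l).2).torus (hGσ (e l).1) (hoff (e l).1 (e l).2), ?_, ?_,
      ?_⟩
    · intro l θ y
      rw [Lp.torus_e]
      rfl
    · intro l θ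
      rw [Lp.torus_ppol, ← derivative_map, hGσ]
      exact (P.st (e l).1).g_nc (e l).2 (θ 0)
    · have h1 := det_ne (fun k => P.vec S (b' k)) hlin (fun k => rfl) e
      simp only [Lp.torus_reg]
      exact h1

end Pool.Agent.E8helper67.PS
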