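import Mathlib
set_option autoImplicit false

/-!
Composites with a real outer factor.
-/

namespace Pool.Agent.E8helper67.PS

open Polynomial

/-- `F = G ∘ H` with `G` real of degree at least two, all of whose level sets over `[-2, 2]`
are real. -/
def RealFactor (F : ℂ[X]) : Prop :=
  ∃ (G : ℝ[X]) (H : ℂ[X]), 2 ≤ G.natDegree ∧ F = (G.map Complex.ofRealHom).comp H ∧
    ∀ t : ℝ, |t| ≤ 2 → ∀ y : ℂ, (G.map Complex.ofRealHom).eval y = t → y.im = 0

end Pool.Agent.E8helper67.PS
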