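import Pool.Agent.E8helper67.PS.Loop
set_option autoImplicit false

/-!
Asymptotic estimates.
-/

namespace Pool.Agent.E8helper67.PS

open Polynomial MeasureTheory Set Filter Topology

theorem den_ne {δ : ℝ} (hδ : 0 < δ) (w : ℝ) : ((w : ℂ) ^ 2 + δ) ≠ 0 := by
  have h : w ^ 2 + δ ≠ 0 := by positivity
  exact_mod_cast h

/-- the model integral -/
noncomputable def Jd (δ : ℝ) : ℝ := ∫ w in (-1 : ℝ)..1, 1 / (w ^ 2 + δ)

theorem Jd_lower {δ : ℝ} (hδ : 0 < δ) (h1 : δ ≤ 1) : 1 / Real.sqrt δ ≤ Jd δ := by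
  have hs : 0 < Real.sqrt δ := Real.sqrt_pos.2 hδ
  have hs1 : Real.sqrt δ ≤ 1 := Real.sqrt_le_one.2 h1
  have hc : Continuous fun w : ℝ => 1 / (w ^ 2 + δ) :=
    continuous_const.div (by fun_prop) fun w => by positivity
  have h2 : ∫ w in (-Real.sqrt δ)..Real.sqrt δ, 1 / (w ^ 2 + δ) ≤ Jd δ := by
    refine intervalIntegral.integral_mono_interval (by linarith) (by linarith) hs1 ?_
      (hc.intervalIntegrable _ _)
    exact Eventually.of_forall fun w => by positivity
  have h3 : ∫ _ in (-Real.sqrt δ)..Real.sqrt δ, 1 / (2 * δ) ≤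
      ∫ w in (-Real.sqrt δ)..Real.sqrt δ, 1 / (w ^ 2 + δ) := by
    refine intervalIntegral.integral_mono_on (by linarith) intervalIntegrable_const
      (hc.intervalIntegrable _ _) fun w hw => ?_
    have h4 : w ^ 2 ≤ δ := by
      rw [← Real.sq_sqrt hδ.le]
      exact sq_le_sq' hw.1 hw.2
    exact one_div_le_one_div_of_le (by positivity) (by linarith)
  rw [intervalIntegral.integral_const, smul_eq_mul] at h3
  have h5 : (Real.sqrt δ - -Real.sqrt δ) * (1 / (2 * δ)) = 1 / Real.sqrt δ := by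
    have h6 := Real.mul_self_sqrt hδ.le
    have h7 : δ = Real.sqrt δ * Real.sqrt δ := h6.symm
    rw [sub_neg_eq_add]
    conv_lhs => rw [h7]
    rw [Real.sqrt_mul_self hs.le]
    field_simp
    ring
  linarith

theorem blow {f : ℝ → ℂ} (hf : Continuous f) (h0 : f 0 ≠ 0) (B : ℝ) :
    ∃ δ₀ : ℝ, 0 < δ₀ ∧ ∀ δ : ℝ, 0 < δ → δ < δ₀ → B < ‖∫ w in (-1 : ℝ)..1, f w / ((w : ℂ) ^ 2 + δ)‖ := by
  set η := ‖f 0‖ / 2 with hη
  have hη0 : 0 < η := half_pos (norm_pos_iff.2 h0)
  obtain ⟨ρ, hρ, hρf⟩ := Metric.continuous_iff.1 hf 0 η hη0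
  obtain ⟨M, hM⟩ := (isCompact_Icc (a := (-1 : ℝ)) (b := 1)).exists_bound_of_continuousOn
    (f := fun w => f w - f 0) (hf.sub continuous_const).continuousOn
  have hM0 : 0 ≤ M := (norm_nonneg _).trans (hM 0 ⟨by norm_num, by norm_num⟩)
  set K := M / ρ ^ 2 with hK
  have hK0 : 0 ≤ K := by positivity
  have hbd : ∀ w ∈ Icc (-1 : ℝ) 1, ‖f w - f 0‖ ≤ η + K * w ^ 2 := by
    intro w hw
    by_cases hc : |w| < ρ
    · have h1 := hρf w (by rwa [Real.dist_eq, sub_zero])
      rw [dist_eq_norm] at h1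
      have : 0 ≤ K * w ^ 2 := by positivity
      linarith
    · push Not at hc
      have h1 := hM w hw
      have h2 : ρ ^ 2 ≤ w ^ 2 := by
        rw [← sq_abs w]
        exact pow_le_pow_left₀ hρ.le hc 2
      have h3 : M ≤ K * w ^ 2 := by
        rw [hK, div_mul_eq_mul_div, le_div_iff₀ (by positivity)]
        exact mul_le_mul_of_nonneg_left h2 hM0
      linarith
  -- the main inequality
  have key : ∀ δ, 0 < δ → η * Jd δ - 2 * K ≤ ‖∫ w in (-1 : ℝ)..1, f w / ((w : ℂ) ^ 2 + δ)‖ := by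
    intro δ hδ
    have hcd : Continuous fun w : ℝ => ((w : ℂ) ^ 2 + δ) :=
      (Complex.continuous_ofReal.pow 2).add continuous_const
    have hcr : Continuous fun w : ℝ => 1 / (w ^ 2 + δ) :=
      continuous_const.div (by fun_prop) fun w => by positivity
    have c1 : Continuous fun w : ℝ => f 0 / ((w : ℂ) ^ 2 + δ) :=
      continuous_const.div hcd (den_ne hδ)
    have c2 : Continuous fun w : ℝ => (f w - f 0) / ((w : ℂ) ^ 2 + δ) :=
      (hf.sub continuous_const).div hcd (den_ne hδ)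
    have e1 : (∫ w in (-1 : ℝ)..1, f w / ((w : ℂ) ^ 2 + δ)) =
        (∫ w in (-1 : ℝ)..1, f 0 / ((w : ℂ) ^ 2 + δ)) +
          ∫ w in (-1 : ℝ)..1, (f w - f 0) / ((w : ℂ) ^ 2 + δ) := by
      rw [← intervalIntegral.integral_add (c1.intervalIntegrable _ _) (c2.intervalIntegrable _ _)]
      refine intervalIntegral.integral_congr fun w _ => ?_
      show f w / _ = f 0 / _ + (f w - f 0) / _
      rw [← add_div]
      congr 1
      ring
    have e2 : (∫ w in (-1 : ℝ)..1, f 0 / ((w : ℂ) ^ 2 + δ)) = f 0 * (Jd δ : ℂ) := by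
      unfold Jd
      rw [← intervalIntegral.integral_ofReal, ← intervalIntegral.integral_const_mul]
      refine intervalIntegral.integral_congr fun w _ => ?_
      show f 0 / _ = f 0 * ((1 / (w ^ 2 + δ) : ℝ) : ℂ)
      push_cast
      ring
    have hJ0 : 0 ≤ Jd δ := by
      unfold Jd
      exact intervalIntegral.integral_nonneg (by norm_num) fun w _ => by positivity
    have e3 : ‖∫ w in (-1 : ℝ)..1, (f w - f 0) / ((w : ℂ) ^ 2 + δ)‖ ≤ η * Jd δ + 2 * K := by
      have c3 : Continuous fun w : ℝ => η * (1 / (w ^ 2 + δ)) + K :=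
        (continuous_const.mul hcr).add continuous_const
      have h1 : ‖∫ w in (-1 : ℝ)..1, (f w - f 0) / ((w : ℂ) ^ 2 + δ)‖ ≤
          ∫ w in (-1 : ℝ)..1, (η * (1 / (w ^ 2 + δ)) + K) := by
        refine intervalIntegral.norm_integral_le_of_norm_le (by norm_num) ?_
          (c3.intervalIntegrable _ _)
        refine Eventually.of_forall fun w hw => ?_
        have h2 := hbd w (Ioc_subset_Icc_self hw)
        have h3 : (w : ℂ) ^ 2 + δ = ((w ^ 2 + δ : ℝ) : ℂ) := by push_cast; rfl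
        have h4 : 0 < w ^ 2 + δ := by positivity
        rw [norm_div, h3, Complex.norm_real, Real.norm_of_nonneg h4.le, div_le_iff₀ h4]
        have h5 : (η * (1 / (w ^ 2 + δ)) + K) * (w ^ 2 + δ) = η + K * w ^ 2 + K * δ := by
          field_simp
          ring
        rw [h5]
        have : 0 ≤ K * δ := by positivity
        linarith
      have h6 : ∫ w in (-1 : ℝ)..1, (η * (1 / (w ^ 2 + δ)) + K) = η * Jd δ + 2 * K := by
        have c4 : Continuous fun w : ℝ => η * (1 / (w ^ 2 + δ)) := continuous_const.mul hcr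
        rw [intervalIntegral.integral_add (c4.intervalIntegrable _ _)
          intervalIntegrable_const, intervalIntegral.integral_const_mul,
          intervalIntegral.integral_const, smul_eq_mul]
        unfold Jd
        ring
      rwa [h6] at h1
    rw [e1, e2]
    have h7 := norm_sub_le_norm_add (f 0 * (Jd δ : ℂ))
      (∫ w in (-1 : ℝ)..1, (f w - f 0) / ((w : ℂ) ^ 2 + δ))
    rw [norm_mul, Complex.norm_real, Real.norm_of_nonneg hJ0] at h7
    have h8 : ‖f 0‖ = 2 * η := by rw [hη]; ring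
    rw [h8] at h7
    nlinarith
  have hlim : Tendsto (fun δ : ℝ => η * (1 / Real.sqrt δ) - 2 * K) (𝓝[>] 0) atTop := by
    have h1 : Tendsto (fun δ : ℝ => (Real.sqrt δ)⁻¹) (𝓝[>] 0) atTop := by
      refine tendsto_inv_nhdsGT_zero.comp ?_
      refine tendsto_nhdsWithin_iff.2 ⟨?_, ?_⟩
      · have := (Real.continuous_sqrt.tendsto 0).mono_left (nhdsWithin_le_nhds (s := Ioi 0))
        rwa [Real.sqrt_zero] at this
      · filter_upwards [self_mem_nhdsWithin] with δ hδ
        exact Real.sqrt_pos.2 hδ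
    simp only [one_div]
    exact tendsto_atTop_add_const_right _ _ (h1.const_mul_atTop hη0)
  have hev := hlim.eventually_gt_atTop B
  obtain ⟨δ₀, hδ₀, h⟩ := mem_nhdsGT_iff_exists_Ioo_subset.1 hev
  refine ⟨min δ₀ 1, lt_min hδ₀ one_pos, fun δ hδ hδ' => ?_⟩
  have h1 : B < η * (1 / Real.sqrt δ) - 2 * K := h ⟨hδ, hδ'.trans_le (min_le_left _ _)⟩
  have h2 := Jd_lower hδ (hδ'.le.trans (min_le_right _ _))
  have h3 := key δ hδ
  nlinarith

theorem poly_lim (p : ℂ[X]) {N : ℕ} (h : p.natDegree ≤ N) :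
    Tendsto (fun b : ℂ => p.eval b / b ^ N) (Bornology.cobounded ℂ) (𝓝 (p.coeff N)) := by
  have h1 : ∀ᶠ b : ℂ in Bornology.cobounded ℂ, p.eval b / b ^ N =
      ∑ i ∈ Finset.range (N + 1), p.coeff i * (b⁻¹) ^ (N - i) := by
    filter_upwards [Bornology.eventually_ne_cobounded (0 : ℂ)] with b hb
    rw [eval_eq_sum_range' (Nat.lt_succ_of_le h), Finset.sum_div]
    refine Finset.sum_congr rfl fun i hi => ?_
    have hi' : i ≤ N := Nat.lt_succ_iff.1 (Finset.mem_range.1 hi)
    have h2 : b ^ N = b ^ i * b ^ (N - i) := by rw [← pow_add, Nat.add_sub_cancel' hi']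
    rw [h2, inv_pow]
    have := pow_ne_zero i hb
    field_simp
  have h2 : Tendsto (fun b : ℂ => ∑ i ∈ Finset.range (N + 1), p.coeff i * (b⁻¹) ^ (N - i))
      (Bornology.cobounded ℂ) (𝓝 (∑ i ∈ Finset.range (N + 1), p.coeff i * 0 ^ (N - i))) :=
    tendsto_finsetSum _ fun i _ => ((tendsto_inv₀_cobounded (α := ℂ)).pow _).const_mul _
  have h3 : ∑ i ∈ Finset.range (N + 1), p.coeff i * (0 : ℂ) ^ (N - i) = p.coeff N := by
    rw [Finset.sum_range_succ, Nat.sub_self, pow_zero, mul_one, Finset.sum_eq_zero, zero_add]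
    intro i hi
    rw [zero_pow (Nat.sub_ne_zero_of_lt (Finset.mem_range.1 hi)), mul_zero]
  rw [h3] at h2
  exact h2.congr' (h1.mono fun b hb => hb.symm)

theorem Lp.tendsto_bW {F : ℂ[X]} (γ : Lp F) :
    Tendsto (fun b => b * γ.W b) (Bornology.cobounded ℂ) (𝓝 (-∫ t in (0 : ℝ)..1, γ.ell t)) := by
  obtain ⟨A, hA⟩ := (isCompact_Icc (a := (0 : ℝ)) (b := 1)).exists_bound_of_continuousOn
    (f := γ.x) γ.continuous_x.continuousOn
  obtain ⟨M, hM⟩ := (isCompact_Icc (a := (0 : ℝ)) (b := 1)).exists_bound_of_continuousOn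
    (f := fun t => γ.ell t * γ.x t) (γ.continuous_ell.mul γ.continuous_x).continuousOn
  have hM0 : 0 ≤ M := (norm_nonneg _).trans (hM 0 ⟨le_refl _, zero_le_one⟩)
  have hnorm : Tendsto (fun b : ℂ => ‖b‖ - A) (Bornology.cobounded ℂ) atTop :=
    tendsto_atTop_add_const_right _ _ tendsto_norm_cobounded_atTop
  have hb0 : Tendsto (fun b : ℂ => M / (‖b‖ - A)) (Bornology.cobounded ℂ) (𝓝 0) :=
    hnorm.const_div_atTop M
  rw [tendsto_iff_norm_sub_tendsto_zero]
  refine squeeze_zero_norm' ?_ hb0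
  filter_upwards [hnorm.eventually_gt_atTop 0] with b hb
  have hne : ∀ t ∈ Icc (0 : ℝ) 1, ‖b‖ - A ≤ ‖γ.x t - b‖ := by
    intro t ht
    have h1 := hA t ht
    have h2 := norm_sub_norm_le b (γ.x t)
    rw [norm_sub_rev] at h2
    linarith
  have hne' : ∀ t ∈ Icc (0 : ℝ) 1, γ.x t - b ≠ 0 := fun t ht h0 => by
    have := hne t ht
    rw [h0, norm_zero] at this
    linarith
  have e1 : b * γ.W b - -∫ t in (0 : ℝ)..1, γ.ell t =
      ∫ t in (0 : ℝ)..1, γ.ell t * γ.x t / (γ.x t - b) := by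
    unfold Lp.W
    have hc : ContinuousOn (fun t => γ.x t - b) (uIcc (0 : ℝ) 1) :=
      (γ.continuous_x.sub continuous_const).continuousOn
    have hu : uIcc (0 : ℝ) 1 = Icc 0 1 := uIcc_of_le zero_le_one
    have i1 : IntervalIntegrable (fun t => b * (γ.ell t / (γ.x t - b))) volume 0 1 := by
      refine ContinuousOn.intervalIntegrable ?_
      refine continuousOn_const.mul (γ.continuous_ell.continuousOn.div hc fun t ht => ?_)
      rw [hu] at ht
      exact hne' t ht
    rw [sub_neg_eq_add, ← intervalIntegral.integral_const_mul,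
      ← intervalIntegral.integral_add i1 (γ.continuous_ell.intervalIntegrable _ _)]
    refine intervalIntegral.integral_congr fun t ht => ?_
    rw [hu] at ht
    have := hne' t ht
    field_simp
    ring
  rw [e1, norm_norm]
  have h2 : ∀ t ∈ Set.uIoc (0 : ℝ) 1, ‖γ.ell t * γ.x t / (γ.x t - b)‖ ≤ M / (‖b‖ - A) := by
    intro t ht
    rw [uIoc_of_le zero_le_one] at ht
    have ht' := Ioc_subset_Icc_self ht
    rw [norm_div]
    exact div_le_div₀ hM0 (hM t ht') hb (hne t ht')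
  have h3 := intervalIntegral.norm_integral_le_of_norm_le_const h2
  simpa using h3

end Pool.Agent.E8helper67.PS
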