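import Pool.Agent.E8helper67.PS.Gcd
set_option autoImplicit false

/-!
Rational functions `D / F'³` which are real on the fibres of a polynomial `F` over many real
numbers.
-/

namespace Pool.Agent.E8helper67.PS

open Polynomial

/-- complex conjugation -/
abbrev cj : ℂ →+* ℂ := starRingEnd ℂ

/-- the rational function `D / F'³` -/
noncomputable def rho (F D : ℂ[X]) (x : ℂ) : ℂ := D.eval x / (derivative F).eval x ^ 3

/-- `F̄(w) - F(x)` -/
noncomputable def PP (F : ℂ[X]) : ℂ[X][X] := (F.map cj).map C - C F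

/-- `D̄(w) F'(x)³ - D(x) F̄'(w)³` -/
noncomputable def QQ (F D : ℂ[X]) : ℂ[X][X] :=
  (D.map cj).map C * C (derivative F ^ 3) - C D * ((derivative F ^ 3).map cj).map C

theorem cj_cj (z : ℂ) : cj (cj z) = z := Complex.conj_conj z

theorem eval_map_cj (p : ℂ[X]) (z : ℂ) : (p.map cj).eval (cj z) = cj (p.eval z) :=
  eval_map_apply ..

theorem eval_map_cj' (p : ℂ[X]) (z : ℂ) : (p.map cj).eval z = cj (p.eval (cj z)) := by
  rw [← eval_map_cj, cj_cj]

theorem map_cj_cj (p : ℂ[X]) : (p.map cj).map cj = p := by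
  rw [Polynomial.map_map]
  have : cj.comp cj = RingHom.id ℂ := by
    ext z
    exact cj_cj z
  rw [this, Polynomial.map_id]

variable {F D : ℂ[X]}

theorem PP_monic (hF : F.Monic) (hn : 0 < F.natDegree) : (PP F).Monic := by
  have h1 : ((F.map cj).map C : ℂ[X][X]).Monic := (hF.map cj).map C
  refine h1.sub_of_left ?_
  refine lt_of_le_of_lt degree_C_le ?_
  rw [degree_eq_natDegree h1.ne_zero, natDegree_map_eq_of_injective C_injective,
    natDegree_map_eq_of_injective cj.injective]
  exact_mod_cast hn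

theorem map_map_ev (p : ℂ[X]) (x : ℂ) : (p.map C).map (evalRingHom x) = p := by
  have : (evalRingHom x).comp C = RingHom.id ℂ := by
    ext z
    simp
  rw [Polynomial.map_map, this, Polynomial.map_id]

theorem PP_spec (x : ℂ) : (PP F).map (evalRingHom x) = F.map cj - C (F.eval x) := by
  unfold PP
  rw [Polynomial.map_sub, map_C, map_map_ev]
  rfl

theorem PP_swap (w : ℂ) : (Bivariate.swap (PP F)).map (evalRingHom w) =
    C ((F.map cj).eval w) - F := by
  unfold PP
  rw [map_sub, Bivariate.swap_map_C, Bivariate.swap_C, Polynomial.map_sub, map_C, map_map_ev]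
  rfl

/-- data produced by a greatest common divisor -/
structure CD (F D : ℂ[X]) where
  /-- the gcd -/
  A : ℂ[X][X]
  /-- the denominator -/
  δ : ℂ[X]
  /-- a cofactor -/
  S : ℂ[X][X]
  /-- a cofactor -/
  T : ℂ[X][X]
  hA : A.Monic
  hP : A ∣ PP F
  hQ : A ∣ QQ F D
  hδ : δ ≠ 0
  bez : C δ * A = S * PP F + T * QQ F D

theorem exists_CD (hF : F.Monic) (hn : 0 < F.natDegree) : Nonempty (CD F D) := by
  obtain ⟨A, hA, hP, hQ, δ, hδ, S, T, bez⟩ := exists_monic_gcd (PP F) (QQ F D) (PP_monic hF hn)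
  exact ⟨⟨A, δ, S, T, hA, hP, hQ, hδ, bez⟩⟩

/-- a good fibre -/
structure GFib (c : CD F D) (t : ℝ) (R : Finset ℂ) : Prop where
  eq : F - C (t : ℂ) = rG R
  real : ∀ x ∈ R, cj (rho F D x) = rho F D x
  ne : ∀ x ∈ R, c.δ.eval x ≠ 0

namespace CD

variable (c : CD F D)

/-- the specialization at `x` -/
noncomputable def Ax (x : ℂ) : ℂ[X] := c.A.map (evalRingHom x)

/-- the conjugate specialization at `x` -/
noncomputable def Ac (x : ℂ) : ℂ[X] := (c.Ax x).map cj

/-- the class of `x` -/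
noncomputable def cl (_ : CD F D) (R : Finset ℂ) (x : ℂ) : Finset ℂ := by
  classical exact R.filter fun y => rho F D y = rho F D x

theorem mem_cl {R : Finset ℂ} {x y : ℂ} : y ∈ c.cl R x ↔ y ∈ R ∧ rho F D y = rho F D x := by
  classical
  unfold cl
  rw [Finset.mem_filter]

theorem Ac_eval (x y : ℂ) : (c.Ac x).eval y = cj ((c.Ax x).eval (cj y)) := eval_map_cj' _ _

theorem Ac_coeff (x : ℂ) (j : ℕ) : (c.Ac x).coeff j = cj ((c.A.coeff j).eval x) := by
  unfold Ac Ax
  rw [coeff_map, coeff_map]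
  rfl

variable {c} {t : ℝ} {R : Finset ℂ}

theorem _root_.Pool.Agent.E8helper67.PS.GFib.F_eval (h : GFib c t R) {x : ℂ} (hx : x ∈ R) :
    F.eval x = t := by
  have h1 := congrArg (Polynomial.eval x) h.eq
  rw [eval_sub, eval_C, rG_eval, Finset.prod_eq_zero hx (sub_self x)] at h1
  exact sub_eq_zero.1 h1

theorem _root_.Pool.Agent.E8helper67.PS.GFib.mem (h : GFib c t R) {x : ℂ} (hx : F.eval x = t) :
    x ∈ R := by
  have h1 := congrArg (Polynomial.eval x) h.eq
  rw [eval_sub, eval_C, rG_eval, hx, sub_self] at h1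
  obtain ⟨y, hy, hy'⟩ := Finset.prod_eq_zero_iff.1 h1.symm
  rw [sub_eq_zero.1 hy']
  exact hy

theorem _root_.Pool.Agent.E8helper67.PS.GFib.F'_ne (h : GFib c t R) {x : ℂ} (hx : x ∈ R) :
    (derivative F).eval x ≠ 0 := by
  have h1 : derivative F = derivative (rG R) := by
    rw [← h.eq, derivative_sub, derivative_C, sub_zero]
  rw [h1, rG'_eval hx]
  exact rp_self_ne x

theorem _root_.Pool.Agent.E8helper67.PS.GFib.zero_iff (h : GFib c t R) {x y : ℂ} (hx : x ∈ R)
    (hy : y ∈ R) : (c.Ax x).eval (cj y) = 0 ↔ rho F D y = rho F D x := by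
  have hFx := h.F'_ne hx
  have hFy := h.F'_ne hy
  have hFy' : cj ((derivative F).eval y) ≠ 0 := (map_ne_zero cj).2 hFy
  have hQ1 : ((QQ F D).map (evalRingHom x)).eval (cj y) =
      cj (D.eval y) * (derivative F).eval x ^ 3 - D.eval x * cj ((derivative F).eval y) ^ 3 := by
    unfold QQ
    rw [Polynomial.map_sub, Polynomial.map_mul, Polynomial.map_mul, map_map_ev, map_map_ev,
      map_C, map_C, eval_sub, eval_mul, eval_mul, eval_map_cj, eval_map_cj, eval_C, eval_C,
      coe_evalRingHom, eval_pow, eval_pow, map_pow]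
  have hQ2 : ((QQ F D).map (evalRingHom x)).eval (cj y) = 0 ↔ rho F D y = rho F D x := by
    rw [hQ1, sub_eq_zero, ← h.real y hy]
    unfold rho
    rw [map_div₀, map_pow, div_eq_div_iff (pow_ne_zero 3 hFy') (pow_ne_zero 3 hFx)]
  rw [← hQ2]
  constructor
  · intro h0
    obtain ⟨B, hB⟩ := c.hQ
    rw [hB, Polynomial.map_mul, eval_mul]
    have : (c.A.map (evalRingHom x)).eval (cj y) = 0 := h0
    rw [this, zero_mul]
  · intro h0
    have h1 := congrArg (fun p => ((p.map (evalRingHom x)).eval (cj y))) c.bez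
    simp only [Polynomial.map_mul, Polynomial.map_add, eval_mul, eval_add, map_C, eval_C,
      coe_evalRingHom, PP_spec, h0, mul_zero, add_zero, eval_sub, eval_map_cj] at h1
    rw [h.F_eval hx, h.F_eval hy, Complex.conj_ofReal, sub_self, mul_zero] at h1
    exact (mul_eq_zero.1 h1).resolve_left (h.ne x hx)

theorem _root_.Pool.Agent.E8helper67.PS.GFib.Ac_eq (h : GFib c t R) {x : ℂ} (hx : x ∈ R) :
    c.Ac x = rG (c.cl R x) := by
  classical
  have hm : (c.Ac x).Monic := (c.hA.map _).map _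
  have hd : c.Ac x ∣ rG R := by
    have h1 : c.Ax x ∣ F.map cj - C (F.eval x) := by
      rw [← PP_spec]
      exact Polynomial.map_dvd _ c.hP
    have h2 := Polynomial.map_dvd cj h1
    rw [Polynomial.map_sub, map_cj_cj, map_C, h.F_eval hx, Complex.conj_ofReal, h.eq] at h2
    exact h2
  rw [eq_rG_of_dvd hm hd]
  congr 1
  ext y
  rw [Finset.mem_filter, c.mem_cl]
  refine and_congr_right fun hy => ?_
  rw [c.Ac_eval, map_eq_zero]
  exact h.zero_iff hx hy

end CD

end Pool.Agent.E8helper67.PS
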