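import Pool.Agent.E8helper67.PS.Class
set_option autoImplicit false

/-!
The polynomial whose level sets are the classes.
-/

namespace Pool.Agent.E8helper67.PS

open Polynomial

variable {F D : ℂ[X]}

theorem swap_ev (p : ℂ[X][X]) (x w : ℂ) :
    ((Bivariate.swap p).map (evalRingHom w)).eval x = (p.map (evalRingHom x)).eval w := by
  induction p using Polynomial.induction_on' with
  | add p q hp hq => simp only [map_add, Polynomial.map_add, eval_add, hp, hq]
  | monomial n a =>
    induction a using Polynomial.induction_on' with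
    | add p q hp hq => simp only [map_add, Polynomial.map_add, eval_add, hp, hq]
    | monomial m r =>
      rw [Bivariate.swap_monomial_monomial]
      simp only [map_monomial, coe_evalRingHom, eval_monomial]
      ring

namespace CD

variable (c : CD F D)

theorem swap_dvd : Bivariate.swap c.A ∣ Bivariate.swap (PP F) := by
  obtain ⟨N, hN⟩ := c.hP
  exact ⟨Bivariate.swap N, by rw [hN, map_mul]⟩

theorem exists_lc (hF : F.Monic) (hn : 0 < F.natDegree) :
    ∃ κ : ℂ, κ ≠ 0 ∧ (Bivariate.swap c.A).leadingCoeff = C κ := by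
  have h1 : (F.map C : ℂ[X][X]).Monic := hF.map C
  have h2 : (F.map C - C (F.map cj) : ℂ[X][X]).Monic := by
    refine h1.sub_of_left ?_
    refine lt_of_le_of_lt degree_C_le ?_
    rw [degree_eq_natDegree h1.ne_zero, natDegree_map_eq_of_injective C_injective]
    exact_mod_cast hn
  have h3 : Bivariate.swap c.A ∣ F.map C - C (F.map cj) := by
    have h4 := c.swap_dvd
    unfold PP at h4
    rw [map_sub, Bivariate.swap_map_C, Bivariate.swap_C] at h4
    obtain ⟨N, hN⟩ := h4
    exact ⟨-N, by linear_combination (-1 : ℂ[X][X]) * hN⟩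
  obtain ⟨N, hN⟩ := h3
  have h5 : (Bivariate.swap c.A).leadingCoeff * N.leadingCoeff = 1 := by
    rw [← leadingCoeff_mul, ← hN, h2.leadingCoeff]
  obtain ⟨κ, hκ, hκ'⟩ := Polynomial.isUnit_iff.1 (IsUnit.of_mul_eq_one _ h5)
  exact ⟨κ, hκ.ne_zero, hκ'.symm⟩

/-- the degree in `x` -/
noncomputable def e : ℕ := (Bivariate.swap c.A).natDegree

variable {c} {κ : ℂ} (hκ : κ ≠ 0) (hlc : (Bivariate.swap c.A).leadingCoeff = C κ)

include hκ hlc

theorem Bw_natDegree (w : ℂ) :
    ((Bivariate.swap c.A).map (evalRingHom w)).natDegree = c.e := by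
  refine natDegree_map_of_leadingCoeff_ne_zero _ ?_
  rw [hlc, coe_evalRingHom, eval_C]
  exact hκ

theorem Bw_leadingCoeff (w : ℂ) :
    ((Bivariate.swap c.A).map (evalRingHom w)).leadingCoeff = κ := by
  rw [leadingCoeff_map_of_leadingCoeff_ne_zero]
  · rw [hlc, coe_evalRingHom, eval_C]
  · rw [hlc, coe_evalRingHom, eval_C]
    exact hκ

theorem card_cl {t : ℝ} {R : Finset ℂ} (h : GFib c t R) {y : ℂ} (hy : y ∈ R) :
    (c.cl R y).card = c.e := by
  classical
  set B := (Bivariate.swap c.A).map (evalRingHom (cj y)) with hB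
  have h1 : B ∣ rG R := by
    have h2 : B ∣ C ((F.map cj).eval (cj y)) - F := by
      rw [← PP_swap]
      exact Polynomial.map_dvd _ c.swap_dvd
    rw [eval_map_cj, h.F_eval hy, Complex.conj_ofReal] at h2
    rw [← h.eq, ← neg_sub, dvd_neg]
    exact h2
  have hB0 : B.leadingCoeff = κ := Bw_leadingCoeff hκ hlc _
  have hm : (B * C κ⁻¹).Monic := by
    have := monic_mul_leadingCoeff_inv (p := B) (fun h0 => hκ (by rw [← hB0, h0]; simp))
    rwa [hB0] at this
  have h3 : B * C κ⁻¹ ∣ rG R := by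
    obtain ⟨N, hN⟩ := h1
    refine ⟨N * C κ, ?_⟩
    rw [hN, mul_mul_mul_comm, ← C_mul, inv_mul_cancel₀ hκ, C_1, mul_one]
  have h4 := eq_rG_of_dvd hm h3
  have h5 : (R.filter fun a => (B * C κ⁻¹).eval a = 0) = c.cl R y := by
    ext x
    rw [Finset.mem_filter, c.mem_cl]
    refine and_congr_right fun hx => ?_
    rw [eval_mul, eval_C, mul_eq_zero, or_iff_left (inv_ne_zero hκ), hB, swap_ev]
    exact (h.zero_iff hx hy).trans eq_comm
  rw [h5] at h4
  have h6 := congrArg natDegree h4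
  rw [rG_natDegree, natDegree_mul_C (inv_ne_zero hκ)] at h6
  rw [← h6]
  exact Bw_natDegree hκ hlc _

omit hκ hlc in
theorem coeff_natDegree (j : ℕ) : (c.A.coeff j).natDegree ≤ c.e := by
  rw [natDegree_le_iff_coeff_eq_zero]
  intro i hi
  rw [← coeff_swap, coeff_eq_zero_of_natDegree_lt hi, coeff_zero]

omit hκ in
theorem coeff_e (j : ℕ) : (c.A.coeff j).coeff c.e = if j = 0 then κ else 0 := by
  rw [← coeff_swap]
  have : (Bivariate.swap c.A).coeff c.e = C κ := hlc
  rw [this, coeff_C]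

omit hκ hlc in
theorem coeff_const {t : ℝ} {R : Finset ℂ} (h : GFib c t R) {x y : ℂ} (hx : x ∈ R)
    (hy : y ∈ c.cl R x) (j : ℕ) : (c.A.coeff j).eval y = (c.A.coeff j).eval x := by
  have hy' := c.mem_cl.1 hy
  have h1 : c.Ac y = c.Ac x := by
    rw [h.Ac_eq hx, h.Ac_eq hy'.1]
    congr 1
    ext z
    rw [c.mem_cl, c.mem_cl, hy'.2]
  have h2 := congrArg (fun p => p.coeff j) h1
  simp only [Ac_coeff] at h2
  exact cj.injective h2

omit hκ hlc in
theorem self_mem {R : Finset ℂ} {x : ℂ} (hx : x ∈ R) : x ∈ c.cl R x := c.mem_cl.2 ⟨hx, rfl⟩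

theorem e_pos {t : ℝ} {R : Finset ℂ} (h : GFib c t R) {x : ℂ} (hx : x ∈ R) : 0 < c.e := by
  rw [← card_cl hκ hlc h hx]
  exact Finset.card_pos.2 ⟨x, self_mem hx⟩

theorem coeff_eq {t : ℝ} {R : Finset ℂ} (h : GFib c t R) {x : ℂ} (hx : x ∈ R) {j : ℕ}
    (hj : j ≠ 0) : c.A.coeff j = C ((c.A.coeff j).eval x) := by
  have he := e_pos hκ hlc h hx
  rw [← sub_eq_zero]
  refine eq_zero_of_natDegree_lt_card_of_eval_eq_zero' _ (c.cl R x) ?_ ?_
  · intro y hy
    rw [eval_sub, eval_C, coeff_const h hx hy, sub_self]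
  · rw [card_cl hκ hlc h hx]
    refine lt_of_le_of_ne (natDegree_sub_C.le.trans (coeff_natDegree j)) ?_
    intro h1
    have h2 : (c.A.coeff j - C ((c.A.coeff j).eval x)).coeff c.e = 0 := by
      rw [coeff_sub, coeff_e hlc, if_neg hj, coeff_C, if_neg he.ne', sub_zero]
    rw [← h1] at h2
    have h3 := leadingCoeff_eq_zero.1 h2
    rw [h3, natDegree_zero] at h1
    omega

end CD

end Pool.Agent.E8helper67.PS
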