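import Pool.Agent.E8helper67.PS.ClassB
set_option autoImplicit false

/-!
The class lemma: a rational function `D / F'³` that is real with sum zero on infinitely many real
fibres of `F` vanishes unless `F` is a composition `G ∘ H` with `G` real of degree at least two.
-/

namespace Pool.Agent.E8helper67.PS

open Polynomial

variable {F D : ℂ[X]}

namespace CD

variable {c : CD F D} {κ : ℂ} (hκ : κ ≠ 0) (hlc : (Bivariate.swap c.A).leadingCoeff = C κ)
  {t₁ : ℝ} {R₁ : Finset ℂ} (h₁ : GFib c t₁ R₁) {x₁ : ℂ} (hx₁ : x₁ ∈ R₁)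

include hκ hlc h₁ hx₁

theorem Ac_sub {t : ℝ} {R : Finset ℂ} (h : GFib c t R) {x : ℂ} (hx : x ∈ R) :
    c.Ac x = c.Ac x₁ - C ((c.Ac x₁).eval x) := by
  have h2 : c.Ac x - c.Ac x₁ = C ((c.Ac x - c.Ac x₁).coeff 0) := by
    ext j
    rw [coeff_C]
    split_ifs with hj
    · rw [hj]
    · rw [coeff_sub, Ac_coeff, Ac_coeff, coeff_eq hκ hlc h₁ hx₁ hj, eval_C, eval_C, sub_self]
  have h3 : (c.Ac x).eval x = 0 := by
    rw [h.Ac_eq hx, rG_eval]
    exact Finset.prod_eq_zero (self_mem hx) (sub_self x)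
  have h4 := congrArg (Polynomial.eval x) h2
  rw [eval_sub, h3, eval_C, zero_sub] at h4
  rw [← h4] at h2
  rw [eq_add_of_sub_eq h2, C_neg]
  ring

omit hκ hlc in
theorem h_monic : (c.Ac x₁).Monic := by
  rw [h₁.Ac_eq hx₁]
  exact rG_monic

theorem h_natDegree : (c.Ac x₁).natDegree = c.e := by
  rw [h₁.Ac_eq hx₁, rG_natDegree, card_cl hκ hlc h₁ hx₁]

theorem a0_eq : c.A.coeff 0 = C κ * c.Ac x₁ + C ((c.A.coeff 0).eval x₁) := by
  have he := e_pos hκ hlc h₁ hx₁
  rw [← sub_eq_zero]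
  set p := c.A.coeff 0 - (C κ * c.Ac x₁ + C ((c.A.coeff 0).eval x₁)) with hp
  refine eq_zero_of_natDegree_lt_card_of_eval_eq_zero' p (c.cl R₁ x₁) ?_ ?_
  · intro y hy
    have h0 : (c.Ac x₁).eval y = 0 := by
      rw [h₁.Ac_eq hx₁, rG_eval]
      exact Finset.prod_eq_zero hy (sub_self y)
    rw [hp, eval_sub, eval_add, eval_mul, eval_C, eval_C, coeff_const h₁ hx₁ hy, h0, mul_zero,
      zero_add, sub_self]
  · rw [card_cl hκ hlc h₁ hx₁]
    have hle : p.natDegree ≤ c.e := by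
      refine (natDegree_sub_le _ _).trans (max_le (coeff_natDegree 0) ?_)
      rw [natDegree_add_C]
      exact (natDegree_C_mul_le _ _).trans (h_natDegree hκ hlc h₁ hx₁).le
    refine lt_of_le_of_ne hle ?_
    intro h1
    have h2 : p.coeff c.e = 0 := by
      have h5 : (c.Ac x₁).coeff c.e = 1 := by
        have := (h_monic h₁ hx₁).coeff_natDegree
        rwa [h_natDegree hκ hlc h₁ hx₁] at this
      rw [hp, coeff_sub, coeff_e hlc, if_pos rfl, coeff_add, coeff_C_mul, h5, coeff_C,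
        if_neg he.ne', mul_one, add_zero, sub_self]
    rw [← h1] at h2
    have h3 := leadingCoeff_eq_zero.1 h2
    rw [h3, natDegree_zero] at h1
    omega

theorem conj_h {t : ℝ} {R : Finset ℂ} (h : GFib c t R) {x : ℂ} (hx : x ∈ R) :
    cj ((c.Ac x₁).eval x) = -κ * (c.Ac x₁).eval x := by
  have e1 := congrArg (fun p => p.coeff 0) (Ac_sub hκ hlc h₁ hx₁ h hx)
  simp only [coeff_sub, Ac_coeff, coeff_C_zero] at e1
  have e2 := congrArg (Polynomial.eval x) (a0_eq hκ hlc h₁ hx₁)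
  rw [eval_add, eval_mul, eval_C, eval_C] at e2
  have e3 := congrArg cj e1
  rw [map_sub, cj_cj, cj_cj, e2] at e3
  linear_combination e3

theorem filter_eq {t : ℝ} {R : Finset ℂ} (h : GFib c t R) {x y : ℂ} (hx : x ∈ R) :
    (c.Ac x₁).eval y = (c.Ac x₁).eval x ↔ y ∈ c.cl R x := by
  have e1 := congrArg (Polynomial.eval y) (Ac_sub hκ hlc h₁ hx₁ h hx)
  rw [eval_sub, eval_C] at e1
  rw [← sub_eq_zero, ← e1, h.Ac_eq hx, rG_eval, Finset.prod_eq_zero_iff]
  constructor
  · rintro ⟨a, ha, ha'⟩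
    rwa [sub_eq_zero.1 ha']
  · intro hy'
    exact ⟨y, hy', sub_self y⟩

theorem rG_fib {t : ℝ} {R : Finset ℂ} (h : GFib c t R) :
    rG R = ∏ v ∈ R.image fun x => (c.Ac x₁).eval x, (c.Ac x₁ - C v) := by
  classical
  unfold rG
  rw [← Finset.prod_fiberwise_of_maps_to (t := R.image fun x => (c.Ac x₁).eval x)
    (g := fun x => (c.Ac x₁).eval x) fun x hx => Finset.mem_image_of_mem _ hx]
  refine Finset.prod_congr rfl fun v hv => ?_
  obtain ⟨x, hx, rfl⟩ := Finset.mem_image.1 hv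
  rw [← Ac_sub hκ hlc h₁ hx₁ h hx, h.Ac_eq hx]
  unfold rG
  refine Finset.prod_congr ?_ fun _ _ => rfl
  ext y
  rw [Finset.mem_filter]
  constructor
  · rintro ⟨_, hy'⟩
    exact (filter_eq hκ hlc h₁ hx₁ h hx).1 hy'
  · intro hy
    have hy' := (c.mem_cl.1 hy).1
    exact ⟨hy', (filter_eq hκ hlc h₁ hx₁ h hx).2 hy⟩

end CD

theorem class_lemma (hF : F.Monic) (hn : 0 < F.natDegree) (T : Set ℝ) (hT : T.Infinite)
    (R : ℝ → Finset ℂ) (hR : ∀ t ∈ T, F - C (t : ℂ) = rG (R t))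
    (hreal : ∀ t ∈ T, ∀ x ∈ R t, cj (rho F D x) = rho F D x)
    (hsum : ∀ t ∈ T, ∑ x ∈ R t, rho F D x = 0) :
    D = 0 ∨ ∃ (G : ℝ[X]) (H : ℂ[X]), 2 ≤ G.natDegree ∧ F = (G.map Complex.ofRealHom).comp H ∧
      ∃ Z : Set ℝ, Z.Finite ∧ ∀ t ∈ T, t ∉ Z → ∀ x, F.eval x = t → (H.eval x).im = 0 := by
  classical
  obtain ⟨c⟩ := exists_CD (F := F) (D := D) hF hn
  obtain ⟨κ, hκ, hlc⟩ := c.exists_lc hF hn
  have hfin : ∀ p : ℂ[X], p ≠ 0 → ((fun z : ℂ => (F.eval z).re) '' {z | p.eval z = 0}).Finite := by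
    intro p hp
    refine Set.Finite.image _ ((p.roots.toFinset.finite_toSet).subset fun z hz => ?_)
    simp only [Finset.mem_coe, Multiset.mem_toFinset, mem_roots hp]
    exact hz
  set Z : Set ℝ := (fun z : ℂ => (F.eval z).re) '' {z | c.δ.eval z = 0} with hZ
  have hZf : Z.Finite := hfin _ c.hδ
  have hFx : ∀ t ∈ T, ∀ x ∈ R t, F.eval x = t := by
    intro t ht x hx
    have h1 := congrArg (Polynomial.eval x) (hR t ht)
    rw [eval_sub, eval_C, rG_eval, Finset.prod_eq_zero hx (sub_self x)] at h1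
    exact sub_eq_zero.1 h1
  have good : ∀ t ∈ T, t ∉ Z → GFib c t (R t) := by
    intro t ht htZ
    refine ⟨hR t ht, hreal t ht, fun x hx h0 => htZ ⟨x, h0, ?_⟩⟩
    simp only [hFx t ht x hx, Complex.ofReal_re]
  have hcard : ∀ t ∈ T, (R t).card = F.natDegree := by
    intro t ht
    rw [← rG_natDegree, ← hR t ht, natDegree_sub_C]
  have hne : ∀ t ∈ T, (R t).Nonempty := fun t ht => Finset.card_pos.1 (by rw [hcard t ht]; exact hn)
  have hT0 : (T \ Z).Infinite := hT.sdiff hZf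
  have hnz : ∀ p : ℂ[X], p ≠ 0 → ∃ t ∈ T, t ∉ Z ∧ ∃ x ∈ R t, p.eval x ≠ 0 := by
    intro p hp
    by_contra hcon
    push Not at hcon
    refine hT0 ((hfin p hp).subset fun t ht => ?_)
    obtain ⟨x, hx⟩ := hne t ht.1
    refine ⟨x, hcon t ht.1 ht.2 x hx, ?_⟩
    simp only [hFx t ht.1 x hx, Complex.ofReal_re]
  obtain ⟨t₁, ht₁⟩ := hT0.nonempty
  obtain ⟨x₁, hx₁⟩ := hne t₁ ht₁.1
  have h₁ := good t₁ ht₁.1 ht₁.2
  by_cases hd : c.e = F.natDegree
  · left
    by_contra hD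
    obtain ⟨t, ht, htZ, x, hx, hxD⟩ := hnz D hD
    have h := good t ht htZ
    have hcl : c.cl (R t) x = R t := by
      refine Finset.eq_of_subset_of_card_le (fun y hy => (c.mem_cl.1 hy).1) ?_
      rw [CD.card_cl hκ hlc h hx, hcard t ht, hd]
    have hs : ∑ y ∈ R t, rho F D y = (R t).card • rho F D x := by
      refine Finset.sum_eq_card_nsmul fun y hy => ?_
      rw [← hcl] at hy
      exact (c.mem_cl.1 hy).2
    rw [hsum t ht, hcard t ht, nsmul_eq_mul] at hs
    have h0 : rho F D x = 0 :=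
      (mul_eq_zero.1 hs.symm).resolve_left (Nat.cast_ne_zero.2 hn.ne')
    unfold rho at h0
    rcases div_eq_zero_iff.1 h0 with h0 | h0
    · exact hxD h0
    · exact h.F'_ne hx (pow_eq_zero_iff (three_ne_zero) |>.1 h0)
  · right
    set h := c.Ac x₁ with hh
    have hm : h.Monic := CD.h_monic h₁ hx₁
    have hdeg : h.natDegree = c.e := CD.h_natDegree hκ hlc h₁ hx₁
    have hconj : ∀ t ∈ T, t ∉ Z → ∀ x ∈ R t, cj (h.eval x) = -κ * h.eval x :=
      fun t ht htZ x hx => CD.conj_h hκ hlc h₁ hx₁ (good t ht htZ) hx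
    have hκ1 : ‖κ‖ = 1 := by
      obtain ⟨t, ht, htZ, x, hx, hxh⟩ := hnz h hm.ne_zero
      have h1 := congrArg norm (hconj t ht htZ x hx)
      rw [norm_mul, norm_neg, Complex.norm_conj] at h1
      have h2 : ‖h.eval x‖ ≠ 0 := norm_ne_zero_iff.2 hxh
      exact (mul_right_cancel₀ h2 (by rw [one_mul]; exact h1)).symm
    obtain ⟨u, hu⟩ := IsAlgClosed.exists_pow_nat_eq (-κ) (n := 2) (by norm_num)
    have hu1 : ‖u‖ = 1 := by
      have h1 := congrArg norm hu
      rw [norm_pow, norm_neg, hκ1] at h1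
      exact (pow_eq_one_iff_of_nonneg (norm_nonneg u) two_ne_zero).1 h1
    have hu0 : u ≠ 0 := by
      intro h0
      rw [h0, norm_zero] at hu1
      exact zero_ne_one hu1
    have hcu : cj u * u = 1 := by
      rw [mul_comm, Complex.mul_conj, Complex.normSq_eq_norm_sq, hu1]
      norm_num
    have hreH : ∀ t ∈ T, t ∉ Z → ∀ x ∈ R t, cj (u * h.eval x) = u * h.eval x := by
      intro t ht htZ x hx
      rw [map_mul, hconj t ht htZ x hx, ← hu]
      linear_combination (u * h.eval x) * hcu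
    set V := (R t₁).image fun x => h.eval x with hV
    have hrG : F - C (t₁ : ℂ) = ∏ v ∈ V, (h - C v) := by
      rw [hR t₁ ht₁.1]
      exact CD.rG_fib hκ hlc h₁ hx₁ h₁
    have hVre : ∀ v ∈ V, (((u * v).re : ℝ) : ℂ) = u * v := by
      intro v hv
      obtain ⟨x, hx, rfl⟩ := Finset.mem_image.1 hv
      exact Complex.conj_eq_iff_re.1 (hreH t₁ ht₁.1 ht₁.2 x hx)
    obtain ⟨t₂, ht₂, hne₂⟩ := hT0.exists_notMem_finset {t₁}
    rw [Finset.mem_singleton] at hne₂
    obtain ⟨x₂, hx₂⟩ := hne t₂ ht₂.1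
    set r₂ : ℝ := (u * h.eval x₂).re with hr₂
    have hr₂' : ((r₂ : ℝ) : ℂ) = u * h.eval x₂ :=
      Complex.conj_eq_iff_re.1 (hreH t₂ ht₂.1 ht₂.2 x₂ hx₂)
    set q : ℝ := (∏ v ∈ V, (r₂ - (u * v).re)) / (t₂ - t₁) with hq
    have hqu : (q : ℂ) = u ^ V.card := by
      have h1 := congrArg (Polynomial.eval x₂) hrG
      rw [eval_sub, eval_C, hFx t₂ ht₂.1 x₂ hx₂, eval_prod] at h1
      simp only [eval_sub, eval_C] at h1
      have h2 : ∏ v ∈ V, (u * h.eval x₂ - u * v) = u ^ V.card * ∏ v ∈ V, (h.eval x₂ - v) := by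
        rw [← Finset.prod_const, ← Finset.prod_mul_distrib]
        exact Finset.prod_congr rfl fun v _ => by ring
      have h3 : ∏ v ∈ V, (((r₂ : ℝ) : ℂ) - (((u * v).re : ℝ) : ℂ)) =
          ∏ v ∈ V, (u * h.eval x₂ - u * v) :=
        Finset.prod_congr rfl fun v hv => by rw [hr₂', hVre v hv]
      have h4 : (t₂ : ℂ) - t₁ ≠ 0 := by
        rw [sub_ne_zero]
        exact_mod_cast hne₂
      rw [hq]
      push_cast
      rw [h3, h2, ← h1]
      field_simp
    have hq0 : q ≠ 0 := by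
      intro h0
      rw [h0, Complex.ofReal_zero] at hqu
      exact pow_ne_zero _ hu0 hqu.symm
    have hprod : (∏ v ∈ V, (X - C (u * v).re) : ℝ[X]).natDegree = V.card := by
      rw [natDegree_prod_of_monic _ _ fun v _ => monic_X_sub_C _,
        Finset.sum_congr rfl fun v _ => natDegree_X_sub_C _, Finset.sum_const, smul_eq_mul,
        mul_one]
    refine ⟨C t₁ + C q⁻¹ * ∏ v ∈ V, (X - C (u * v).re), C u * h, ?_, ?_, Z, hZf, ?_⟩
    · rw [natDegree_C_add, natDegree_C_mul (inv_ne_zero hq0), hprod]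
      have h1 : F.natDegree = V.card * c.e := by
        have h2 := congrArg natDegree hrG
        rw [natDegree_sub_C] at h2
        rw [h2, natDegree_prod_of_monic _ _ fun v _ => ?_, Finset.sum_congr rfl fun v _ => ?_,
          Finset.sum_const, smul_eq_mul]
        · rw [natDegree_sub_C, hdeg]
        · refine hm.sub_of_left (lt_of_le_of_lt degree_C_le ?_)
          rw [degree_eq_natDegree hm.ne_zero, hdeg]
          exact_mod_cast CD.e_pos hκ hlc h₁ hx₁
      rcases Nat.lt_or_ge V.card 2 with h2 | h2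
      · interval_cases hc : V.card
        · omega
        · exact absurd (by omega) hd
      · exact h2
    · rw [Polynomial.map_add, Polynomial.map_mul, map_C, map_C, Polynomial.map_prod, add_comp,
        C_comp, mul_comp, C_comp, prod_comp]
      have h1 : ∀ v ∈ V, ((X - C (u * v).re : ℝ[X]).map Complex.ofRealHom).comp (C u * h) =
          C u * (h - C v) := by
        intro v hv
        rw [Polynomial.map_sub, map_X, map_C, sub_comp, X_comp, C_comp]
        show C u * h - C (((u * v).re : ℝ) : ℂ) = _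
        rw [hVre v hv, C_mul]
        ring
      rw [Finset.prod_congr rfl h1, Finset.prod_mul_distrib, Finset.prod_const, ← hrG]
      show F = C (t₁ : ℂ) + C (((q⁻¹ : ℝ) : ℂ)) * _
      rw [Complex.ofReal_inv, hqu, ← C_pow, ← mul_assoc, ← C_mul,
        inv_mul_cancel₀ (pow_ne_zero _ hu0), C_1, one_mul]
      ring
    · intro t ht htZ x hx
      rw [eval_mul, eval_C]
      exact Complex.conj_eq_iff_im.1 (hreH t ht htZ x ((good t ht htZ).mem hx))

end Pool.Agent.E8helper67.PS
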