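import Mathlib
set_option autoImplicit false

/-!
Independent extensions of embeddings to roots of unity.
-/

namespace Pool.Agent.E8helper67.PS

open Polynomial

/-- the point of angle `x` on the unit circle -/
noncomputable def ex (x : ℝ) : ℂ := Complex.exp (Complex.I * x)

theorem ex_add (x y : ℝ) : ex (x + y) = ex x * ex y := by
  unfold ex
  rw [← Complex.exp_add]
  congr 1
  push_cast
  ring

theorem ex_norm (x : ℝ) : ‖ex x‖ = 1 := by
  unfold ex
  rw [mul_comm]
  exact Complex.norm_exp_ofReal_mul_I x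

theorem ex_ne (x : ℝ) : ex x ≠ 0 := Complex.exp_ne_zero _

theorem ex_zero : ex 0 = 1 := by
  unfold ex
  simp

theorem ex_pow (x : ℝ) (n : ℕ) : ex x ^ n = ex (n * x) := by
  unfold ex
  rw [← Complex.exp_nat_mul]
  congr 1
  push_cast
  ring

theorem ex_int (n : ℤ) : ex (2 * Real.pi * n) = 1 := by
  unfold ex
  rw [Complex.exp_eq_one_iff]
  exact ⟨n, by push_cast; ring⟩

theorem ex_sub_norm (x y : ℝ) : ‖ex x - ex y‖ ≤ |x - y| := by
  have h1 : ex x - ex y = ex y * (ex (x - y) - 1) := by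
    rw [mul_sub, ← ex_add, mul_one]
    congr 2
    ring
  rw [h1, norm_mul, ex_norm, one_mul]
  exact Real.norm_exp_I_mul_ofReal_sub_one_le

theorem exists_ex {α : ℂ} (h : ‖α‖ = 1) : ∃ x : ℝ, ex x = α := by
  refine ⟨Complex.arg α, ?_⟩
  unfold ex
  have h1 := Complex.norm_mul_exp_arg_mul_I α
  rw [h, Complex.ofReal_one, one_mul] at h1
  rw [mul_comm]
  exact h1

/-- roots near a given point of the circle -/
theorem exists_root_near {α : ℂ} (h : ‖α‖ = 1) (β : ℝ) {n : ℕ} (hn : 0 < n) :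
    ∃ v : ℂ, v ^ n = α ∧ ‖v - ex β‖ ≤ Real.pi / n := by
  obtain ⟨a, rfl⟩ := exists_ex h
  have hp := Real.pi_pos
  have hn' : (0 : ℝ) < n := by exact_mod_cast hn
  set j : ℤ := round ((n * β - a) / (2 * Real.pi)) with hj
  refine ⟨ex ((a + 2 * Real.pi * j) / n), ?_, ?_⟩
  · rw [ex_pow, mul_div_cancel₀ _ hn'.ne', ex_add, ex_int, mul_one]
  · refine (ex_sub_norm _ _).trans ?_
    have h1 := abs_sub_round ((n * β - a) / (2 * Real.pi))
    rw [← hj] at h1
    have h2 : (a + 2 * Real.pi * j) / n - β =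
        -((2 * Real.pi / n) * ((n * β - a) / (2 * Real.pi) - j)) := by
      field_simp
      ring
    rw [h2, abs_neg, abs_mul, abs_of_pos (by positivity)]
    calc 2 * Real.pi / n * |(n * β - a) / (2 * Real.pi) - j| ≤ 2 * Real.pi / n * (1 / 2) :=
          mul_le_mul_of_nonneg_left h1 (by positivity)
      _ = Real.pi / n := by ring

theorem pow_sub_norm {a b : ℂ} (ha : ‖a‖ = 1) (hb : ‖b‖ = 1) (r : ℕ) :
    ‖a ^ r - b ^ r‖ ≤ r * ‖a - b‖ := by
  induction r with
  | zero => simp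
  | succ r ih =>
    have h1 : a ^ (r + 1) - b ^ (r + 1) = a * (a ^ r - b ^ r) + (a - b) * b ^ r := by ring
    rw [h1]
    refine (norm_add_le _ _).trans ?_
    rw [norm_mul, norm_mul, norm_pow, ha, hb, one_pow, one_mul, mul_one]
    push_cast
    linarith

/-- multiples of a small angle come close to every point -/
theorem exists_mult {u : ℂ} (hu : ‖u‖ = 1) {N : ℕ} (hN : 0 < N) :
    ∃ r : ℕ, r ≤ N ∧ ‖ex (2 * Real.pi / N) ^ r - u‖ ≤ 2 * Real.pi / N := by
  have hp := Real.pi_pos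
  have hN' : (0 : ℝ) < N := by exact_mod_cast hN
  obtain ⟨x, rfl⟩ := exists_ex hu
  -- reduce the angle
  set t : ℝ := x - 2 * Real.pi * ⌊x / (2 * Real.pi)⌋ with ht
  have ht0 : 0 ≤ t := by
    have h1 := Int.floor_le (x / (2 * Real.pi))
    rw [le_div_iff₀ (by positivity)] at h1
    linarith
  have ht1 : t < 2 * Real.pi := by
    have h1 := Int.lt_floor_add_one (x / (2 * Real.pi))
    rw [div_lt_iff₀ (by positivity)] at h1
    linarith
  have hxt : ex x = ex t := by
    have h1 : x = t + 2 * Real.pi * ⌊x / (2 * Real.pi)⌋ := by rw [ht]; ring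
    conv_lhs => rw [h1]
    rw [ex_add, ex_int, mul_one]
  set r : ℕ := ⌊t * N / (2 * Real.pi)⌋₊ with hr
  have hq0 : 0 ≤ t * N / (2 * Real.pi) := by positivity
  have hr1 : (r : ℝ) ≤ t * N / (2 * Real.pi) := Nat.floor_le hq0
  have hr2 : t * N / (2 * Real.pi) < r + 1 := Nat.lt_floor_add_one _
  refine ⟨r, ?_, ?_⟩
  · have h1 : t * N / (2 * Real.pi) < N := by
      rw [div_lt_iff₀ (by positivity)]
      nlinarith
    exact_mod_cast (hr1.trans h1.le)
  · rw [hxt, ex_pow]
    refine (ex_sub_norm _ _).trans ?_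
    have h1 : (r : ℝ) * (2 * Real.pi / N) ≤ t := by
      rw [le_div_iff₀ (by positivity)] at hr1
      rw [mul_div_assoc', div_le_iff₀ hN']
      linarith
    have h2 : t ≤ (r : ℝ) * (2 * Real.pi / N) + 2 * Real.pi / N := by
      rw [div_lt_iff₀ (by positivity)] at hr2
      have h3 : (r : ℝ) * (2 * Real.pi / N) + 2 * Real.pi / N = (r + 1) * (2 * Real.pi) / N := by
        ring
      rw [h3, le_div_iff₀ hN']
      linarith
    rw [abs_le]
    constructor <;> linarith

section Field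

variable {K : Type*} [Field K] [NumberField K]

theorem prim_bound {m : ℕ} {ζ : K} (h : IsPrimitiveRoot ζ (3 ^ m)) :
    m ≤ Module.finrank ℚ K := by
  have hpos : 0 < 3 ^ m := by positivity
  have h1 := cyclotomic_eq_minpoly_rat h hpos
  have h2 : Nat.totient (3 ^ m) ≤ Module.finrank ℚ K := by
    rw [← natDegree_cyclotomic (3 ^ m) ℚ, h1]
    exact minpoly.natDegree_le ζ
  refine le_trans ?_ h2
  rcases Nat.eq_zero_or_pos m with rfl | hm
  · exact Nat.zero_le _
  · rw [Nat.totient_prime_pow Nat.prime_three hm]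
    have h3 : m - 1 < 3 ^ (m - 1) := Nat.lt_pow_self (by norm_num)
    omega

/-- a root of unity that is not a cube -/
theorem exists_noncube {ω : K} (hω : IsPrimitiveRoot ω 3) :
    ∃ a : K, (∃ k : ℕ, k ≠ 0 ∧ a ^ k = 1) ∧ ∀ b : K, b ^ 3 ≠ a := by
  classical
  set P : ℕ → Prop := fun m => ∃ ζ : K, IsPrimitiveRoot ζ (3 ^ m) with hP
  set B := Module.finrank ℚ K with hB
  have hP1 : P 1 := ⟨ω, by rwa [pow_one]⟩
  set m := Nat.findGreatest P B with hm
  have hB1 : 1 ≤ B := by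
    obtain ⟨ζ, hζ⟩ := hP1
    exact prim_bound hζ
  have hPm : P m := Nat.findGreatest_spec hB1 hP1
  have hm1 : 1 ≤ m := Nat.le_findGreatest hB1 hP1
  have hPn : ¬ P (m + 1) := by
    rintro ⟨ζ, hζ⟩
    have h1 : m + 1 ≤ B := prim_bound hζ
    have h2 := Nat.le_findGreatest (P := P) h1 ⟨ζ, hζ⟩
    omega
  obtain ⟨a, ha⟩ := hPm
  refine ⟨a, ⟨3 ^ m, by positivity, ha.pow_eq_one⟩, fun b hb => hPn ⟨b, ?_⟩⟩
  have hfin : b ^ 3 ^ (m + 1) = 1 := by
    rw [pow_succ', pow_mul, hb, ha.pow_eq_one]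
  have hnot : ¬ b ^ 3 ^ m = 1 := by
    intro h1
    have h2 : a ^ 3 ^ (m - 1) = 1 := by
      rw [← hb, ← pow_mul, ← pow_succ', Nat.sub_add_cancel hm1]
      exact h1
    have h3 := ha.dvd_of_pow_eq_one _ h2
    have h4 := Nat.le_of_dvd (by positivity) h3
    have h5 : 3 ^ (m - 1) < 3 ^ m := Nat.pow_lt_pow_right (by norm_num) (by omega)
    omega
  have h1 := @orderOf_eq_prime_pow K _ b m 3 ⟨Nat.prime_three⟩ hnot hfin
  rw [← h1]
  exact IsPrimitiveRoot.orderOf b

end Field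

/-- extending a homomorphism to an algebraic extension with a prescribed value -/
theorem exists_ext {k E : Type*} [Field k] [Field E] [Algebra k E] [Algebra.IsAlgebraic k E]
    (f : k →+* ℂ) {x : E} {y : ℂ} (h : (minpoly k x).eval₂ f y = 0) :
    ∃ S : E →+* ℂ, (∀ r : k, S (algebraMap k E r) = f r) ∧ S x = y := by
  let _ : Algebra k ℂ := f.toAlgebra
  have hK : ∀ s : E, IsIntegral k s ∧ ((minpoly k s).map (algebraMap k ℂ)).Splits := fun s =>
    ⟨Algebra.IsIntegral.isIntegral s, IsAlgClosed.splits _⟩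
  have h' : aeval y (minpoly k x) = 0 := h
  obtain ⟨φ, hφ⟩ := IntermediateField.exists_algHom_of_splits_of_aeval hK h'
  exact ⟨φ.toRingHom, fun r => φ.commutes r, hφ⟩

theorem exists_ext' {k E : Type*} [Field k] [Field E] [Algebra k E] [Algebra.IsAlgebraic k E]
    (f : k →+* ℂ) : ∃ S : E →+* ℂ, ∀ r : k, S (algebraMap k E r) = f r := by
  obtain ⟨S, hS, -⟩ := exists_ext (E := E) f (x := 0) (y := 0) (by
    rw [minpoly.zero]
    simp)
  exact ⟨S, hS⟩

end Pool.Agent.E8helper67.PS
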