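import Pool.Agent.E8helper67.PS.Cyc
set_option autoImplicit false

/-!
Independent extensions of embeddings to roots of unity: the induction.
-/

namespace Pool.Agent.E8helper67.PS

open Polynomial

/-- Free choice of the values at a root of unity. -/
theorem free_step {K : Type*} [Field K] [NumberField K]
    (K₁ : IntermediateField K (AlgebraicClosure K)) [FiniteDimensional K K₁]
    {ω : AlgebraicClosure K} (hω : IsPrimitiveRoot ω 3) (hωK : ω ∈ K₁) :
    ∃ a : AlgebraicClosure K, (∃ k : ℕ, k ≠ 0 ∧ a ^ k = 1) ∧ ∀ n : ℕ,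
      ∃ η : AlgebraicClosure K, η ^ 3 ^ n = a ∧
        ∀ (S : AlgebraicClosure K →+* ℂ) (v : ℂ), v ^ 3 ^ n = S a →
          ∃ S' : AlgebraicClosure K →+* ℂ, (∀ x ∈ K₁, S' x = S x) ∧ S' η = v := by
  have hNF : NumberField K₁ := by
    have : FiniteDimensional ℚ K₁ := FiniteDimensional.trans ℚ K K₁
    exact { to_charZero := inferInstance, to_finiteDimensional := this }
  have hω1 : IsPrimitiveRoot (⟨ω, hωK⟩ : K₁) 3 := by
    have hinj : Function.Injective (algebraMap K₁ (AlgebraicClosure K)) :=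
      (algebraMap K₁ (AlgebraicClosure K)).injective
    exact IsPrimitiveRoot.of_map_of_injective (f := algebraMap K₁ (AlgebraicClosure K)) hω hinj
  obtain ⟨a, ⟨k, hk, hak⟩, hcube⟩ := exists_noncube hω1
  refine ⟨(a : AlgebraicClosure K), ⟨k, hk, by exact_mod_cast congrArg Subtype.val hak⟩,
    fun n => ?_⟩
  obtain ⟨η, hη⟩ := IsAlgClosed.exists_pow_nat_eq (a : AlgebraicClosure K)
    (n := 3 ^ n) (by positivity)
  refine ⟨η, hη, fun S v hv => ?_⟩
  have hirr : Irreducible (X ^ 3 ^ n - C a : K₁[X]) :=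
    X_pow_sub_C_irreducible_of_prime_pow Nat.prime_three (by norm_num) n hcube
  have hmon : (X ^ 3 ^ n - C a : K₁[X]).Monic := monic_X_pow_sub_C a (by positivity)
  have hroot : aeval η (X ^ 3 ^ n - C a : K₁[X]) = 0 := by
    rw [map_sub, map_pow, aeval_X, aeval_C, hη]
    exact sub_self _
  have hmin : X ^ 3 ^ n - C a = minpoly K₁ η := minpoly.eq_of_irreducible_of_monic hirr hroot hmon
  obtain ⟨S', hS', hS'η⟩ := exists_ext (k := K₁) (E := AlgebraicClosure K)
    (S.comp (algebraMap K₁ (AlgebraicClosure K))) (x := η) (y := v) (by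
      rw [← hmin, eval₂_sub, eval₂_pow, eval₂_X, eval₂_C, hv]
      exact sub_self _)
  exact ⟨S', fun x hx => hS' ⟨x, hx⟩, hS'η⟩

theorem norm_rootOfUnity {E : Type*} [Field E] (S : E →+* ℂ) {ζ : E} {k : ℕ} (hk : k ≠ 0)
    (h : ζ ^ k = 1) : ‖S ζ‖ = 1 := by
  have h1 := congrArg (fun z => ‖S z‖) h
  simp only [map_pow, map_one, norm_pow, norm_one] at h1
  exact (pow_eq_one_iff_of_nonneg (norm_nonneg _) hk).1 h1

/-- Extensions of given embeddings to the algebraic closure for which finitely many roots of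
unity have `δ`-dense images in the torus. -/
theorem exists_dense_ext {K : Type*} [Field K] [NumberField K] :
    ∀ (M : ℕ) (s : Fin M → (K →+* ℂ)) (δ : ℝ), 0 < δ →
      ∃ S : Fin M → (AlgebraicClosure K →+* ℂ),
        (∀ i x, S i (algebraMap K (AlgebraicClosure K) x) = s i x) ∧
        ∃ Z : Finset (AlgebraicClosure K), (∀ ζ ∈ Z, ∃ k : ℕ, k ≠ 0 ∧ ζ ^ k = 1) ∧
          ∀ w : Fin M → ℂ, (∀ i, ‖w i‖ = 1) → ∃ ζ ∈ Z, ∀ i, ‖S i ζ - w i‖ ≤ δ := by
  classical
  intro M
  induction M with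
  | zero =>
    intro s δ _
    refine ⟨fun i => i.elim0, fun i => i.elim0, {1}, ?_, fun w _ => ⟨1, by simp, fun i => i.elim0⟩⟩
    intro ζ hζ
    rw [Finset.mem_singleton] at hζ
    exact ⟨1, one_ne_zero, by rw [hζ, one_pow]⟩
  | succ M ih =>
    intro s δ hδ
    have hp := Real.pi_pos
    obtain ⟨T, hT, Z, hZ, hdense⟩ := ih (fun i => s i.castSucc) (δ / 2) (half_pos hδ)
    obtain ⟨T0, hT0⟩ := exists_ext' (E := AlgebraicClosure K) (s (Fin.last M))
    obtain ⟨ω, hω⟩ : ∃ ω : AlgebraicClosure K, IsPrimitiveRoot ω 3 := by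
      have h1 : (cyclotomic 3 (AlgebraicClosure K)).degree ≠ 0 := by
        rw [degree_cyclotomic]
        decide
      obtain ⟨ω, hω⟩ := IsAlgClosed.exists_root _ h1
      exact ⟨ω, (isRoot_cyclotomic_iff (n := 3)).1 hω⟩
    set A : Set (AlgebraicClosure K) := ↑(insert ω Z) with hA
    have hfin : FiniteDimensional K (IntermediateField.adjoin K A) :=
      IntermediateField.finiteDimensional_adjoin fun x _ => Algebra.IsIntegral.isIntegral x
    have hsub : ∀ x ∈ A, x ∈ IntermediateField.adjoin K A := fun x hx =>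
      IntermediateField.subset_adjoin K A hx
    obtain ⟨a, ⟨k, hk, hak⟩, hfree⟩ := free_step (IntermediateField.adjoin K A) hω
      (hsub ω (by simp [hA]))
    -- parameters
    obtain ⟨N, hN⟩ := exists_nat_gt (4 * Real.pi / δ)
    have hN0 : (0 : ℝ) < N := lt_trans (by positivity) hN
    have hN0' : 0 < N := by exact_mod_cast hN0
    have hN1 : 2 * Real.pi / N ≤ δ / 2 := by
      rw [div_lt_iff₀ hδ] at hN
      rw [div_le_iff₀ hN0]
      linarith
    obtain ⟨n, hn⟩ : ∃ n : ℕ, 2 * N * Real.pi / δ < (3 : ℝ) ^ n :=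
      pow_unbounded_of_one_lt _ (by norm_num)
    have hn0 : (0 : ℝ) < 3 ^ n := by positivity
    have hn1 : N * (Real.pi / (3 ^ n : ℕ)) ≤ δ / 2 := by
      rw [div_lt_iff₀ hδ] at hn
      push_cast
      rw [mul_div_assoc', div_le_iff₀ hn0]
      linarith
    obtain ⟨η, hη, hη'⟩ := hfree n
    -- the old embeddings together with the new one
    set Told : Fin (M + 1) → (AlgebraicClosure K →+* ℂ) := Fin.snoc T T0 with hTold
    have hTo : ∀ i : Fin M, Told i.castSucc = T i := fun i => Fin.snoc_castSucc (α := fun _ => _) _ _ _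
    have hTl : Told (Fin.last M) = T0 := Fin.snoc_last (α := fun _ => _) _ _
    set β : Fin (M + 1) → ℝ := Fin.snoc (fun _ => 0) (2 * Real.pi / N) with hβ
    have hβo : ∀ i : Fin M, β i.castSucc = 0 := fun i => Fin.snoc_castSucc (α := fun _ => ℝ) _ _ _
    have hβl : β (Fin.last M) = 2 * Real.pi / N := Fin.snoc_last (α := fun _ => ℝ) _ _
    have hv : ∀ i, ∃ v : ℂ, v ^ 3 ^ n = Told i a ∧ ‖v - ex (β i)‖ ≤ Real.pi / (3 ^ n : ℕ) :=
      fun i => exists_root_near (norm_rootOfUnity (Told i) hk hak) (β i) (by positivity)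
    choose v hv1 hv2 using hv
    have hS : ∀ i, ∃ S' : AlgebraicClosure K →+* ℂ,
        (∀ x ∈ IntermediateField.adjoin K A, S' x = Told i x) ∧ S' η = v i := fun i =>
      hη' (Told i) (v i) (hv1 i)
    choose S hS1 hS2 using hS
    have hηk : η ^ (3 ^ n * k) = 1 := by rw [pow_mul, hη, hak]
    have hvn : ∀ i, ‖v i‖ = 1 := fun i => by
      rw [← hS2 i]
      exact norm_rootOfUnity (S i) (by positivity) hηk
    have hpow : ∀ i (r : ℕ), r ≤ N → ‖v i ^ r - ex (β i) ^ r‖ ≤ δ / 2 := by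
      intro i r hr
      have h1 : (r : ℝ) ≤ N := by exact_mod_cast hr
      have h2 : 0 ≤ ‖v i - ex (β i)‖ := norm_nonneg _
      calc ‖v i ^ r - ex (β i) ^ r‖ ≤ r * ‖v i - ex (β i)‖ := pow_sub_norm (hvn i) (ex_norm _) r
        _ ≤ N * (Real.pi / (3 ^ n : ℕ)) := mul_le_mul h1 (hv2 i) h2 hN0.le
        _ ≤ δ / 2 := hn1
    refine ⟨S, ?_, (Z ×ˢ Finset.range (N + 1)).image fun p => p.1 * η ^ p.2, ?_, ?_⟩
    · intro i x
      rw [hS1 i _ (IntermediateField.algebraMap_mem _ x)]
      refine Fin.lastCases ?_ (fun i => ?_) i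
      · rw [hTl]
        exact hT0 x
      · rw [hTo]
        exact hT i x
    · intro ζ hζ
      obtain ⟨⟨ζ', r⟩, hp', rfl⟩ := Finset.mem_image.1 hζ
      obtain ⟨k', hk', h'⟩ := hZ ζ' (Finset.mem_product.1 hp').1
      refine ⟨k' * (3 ^ n * k), by positivity, ?_⟩
      show (ζ' * η ^ r) ^ (k' * (3 ^ n * k)) = 1
      rw [mul_pow, pow_mul, h', one_pow, one_mul, ← pow_mul, mul_comm r, pow_mul,
        mul_comm k', pow_mul, hηk, one_pow, one_pow]
    · intro w hw
      obtain ⟨ζ, hζ, hζw⟩ := hdense (fun i => w i.castSucc) fun i => hw _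
      obtain ⟨k', hk', h'⟩ := hZ ζ hζ
      have hζn : ‖T0 ζ‖ = 1 := norm_rootOfUnity T0 hk' h'
      have hζ0 : T0 ζ ≠ 0 := by
        intro h0
        rw [h0, norm_zero] at hζn
        exact zero_ne_one hζn
      set u : ℂ := w (Fin.last M) / T0 ζ with hu
      have hun : ‖u‖ = 1 := by rw [hu, norm_div, hw, hζn, div_one]
      obtain ⟨r, hr, hru⟩ := exists_mult hun hN0'
      have hζA : ζ ∈ IntermediateField.adjoin K A := hsub ζ (by simp [hA, hζ])
      refine ⟨ζ * η ^ r, Finset.mem_image.2 ⟨(ζ, r), Finset.mem_product.2 ⟨hζ,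
        Finset.mem_range.2 (Nat.lt_succ_of_le hr)⟩, rfl⟩, fun i => ?_⟩
      rw [map_mul, map_pow, hS1 i ζ hζA, hS2 i]
      have hpr := hpow i r hr
      revert hpr
      refine Fin.lastCases ?_ (fun i => ?_) i
      · intro hpr
        rw [hTl]
        rw [hβl] at hpr
        have h1 : T0 ζ * v (Fin.last M) ^ r - w (Fin.last M) =
            T0 ζ * ((v (Fin.last M) ^ r - ex (2 * Real.pi / N) ^ r) +
              (ex (2 * Real.pi / N) ^ r - u)) := by
          rw [hu]
          field_simp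
          ring
        rw [h1, norm_mul, hζn, one_mul]
        refine (norm_add_le _ _).trans ?_
        linarith
      · intro hpr
        rw [hTo]
        rw [hβo, ex_zero, one_pow] at hpr
        have h1 : T i ζ * v i.castSucc ^ r - w i.castSucc =
            T i ζ * (v i.castSucc ^ r - 1) + (T i ζ - w i.castSucc) := by ring
        rw [h1]
        refine (norm_add_le _ _).trans ?_
        rw [norm_mul, norm_rootOfUnity (T i) hk' h', one_mul]
        have := hζw i
        linarith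

end Pool.Agent.E8helper67.PS
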