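import Pool.Agent.E8helper67.PS.Loop
set_option autoImplicit false

/-!
The second logarithmic derivative of the regulator function is a rational function.
-/

namespace Pool.Agent.E8helper67.PS

open Polynomial MeasureTheory Set Filter Topology

section Bez

variable {F : ℂ[X]}

theorem isCoprime_of_sep (h : (F ^ 2 - 4).Separable) : IsCoprime (F ^ 2 - 4) (derivative F) := by
  have h1 : derivative (F ^ 2 - 4) = 2 * F * derivative F := by
    rw [pow_two, derivative_sub, derivative_mul, derivative_ofNat]
    ring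
  unfold Separable at h
  rw [h1] at h
  exact h.of_mul_right_right

/-- The coefficient of `W` in `D`. -/
noncomputable def pA (F : ℂ[X]) : ℂ[X] :=
  F * derivative F ^ 2 - (F ^ 2 - 4) * derivative (derivative F)

/-- The coefficient of `W'` in `D`. -/
noncomputable def pB (F : ℂ[X]) : ℂ[X] := (F ^ 2 - 4) * derivative F

/-- The numerator. -/
noncomputable def pN (F : ℂ[X]) : ℂ[X][X] :=
  (C (pA F) * (X - C X) + C (pB F)) * (derivative F).map C +
    C (derivative F ^ 2) * (F.map C * (derivative F).map C * (X - C X) - (F.map C ^ 2 - 4))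

theorem dvd_pN (F : ℂ[X]) : (X - C X) ^ 2 ∣ pN F := by
  have e1 : ∀ p : ℂ[X], (p.map C).eval (X : ℂ[X]) = p := by
    intro p
    rw [eval_map, eval₂_C_X]
  have h0 : (pN F).eval (X : ℂ[X]) = 0 := by
    unfold pN
    simp only [eval_add, eval_mul, eval_sub, eval_pow, eval_C, eval_X, e1, eval_ofNat, pB]
    ring
  obtain ⟨N1, hN1⟩ := dvd_iff_isRoot.2 h0
  have h1 : N1.eval (X : ℂ[X]) = 0 := by
    have h2 : (derivative (pN F)).eval (X : ℂ[X]) = N1.eval X := by
      rw [hN1]
      simp
    rw [← h2]
    unfold pN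
    have h4 : derivative (4 : ℂ[X][X]) = 0 := derivative_ofNat 4
    simp only [derivative_add, derivative_mul, derivative_sub, derivative_C, derivative_X,
      derivative_map, derivative_pow, h4, eval_add, eval_mul, eval_sub, eval_pow, eval_C, eval_X,
      e1, eval_ofNat, pA, pB, eval_one, eval_zero]
    simp
    ring
  obtain ⟨Q, hQ⟩ := dvd_iff_isRoot.2 h1
  exact ⟨Q, by rw [hN1, hQ]; ring⟩

/-- The quotient. -/
noncomputable def pQ (F : ℂ[X]) : ℂ[X][X] := (dvd_pN F).choose

theorem pN_eq (F : ℂ[X]) : pN F = (X - C X) ^ 2 * pQ F := (dvd_pN F).choose_spec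

theorem evalEval_pN (F : ℂ[X]) (b x : ℂ) : (pN F).evalEval b x =
    ((pA F).eval b * (x - b) + (pB F).eval b) * (derivative F).eval x +
      (derivative F).eval b ^ 2 * (F.eval x * (derivative F).eval x * (x - b) -
        (F.eval x ^ 2 - 4)) := by
  unfold pN
  simp only [evalEval, eval_add, eval_mul, eval_sub, eval_pow, eval_C, eval_X, eval_map_apply,
    eval_ofNat]

theorem evalEval_pQ (F : ℂ[X]) {b x : ℂ} (h : x ≠ b) : (pQ F).evalEval b x =
    (pN F).evalEval b x / (x - b) ^ 2 := by
  rw [pN_eq, eq_div_iff (pow_ne_zero 2 (sub_ne_zero.2 h))]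
  simp only [evalEval, eval_mul, eval_sub, eval_pow, eval_C, eval_X]
  ring

end Bez

namespace Lp

variable {F : ℂ[X]} (γ : Lp F)

/-- the function `dx / y` along the curve -/
noncomputable def kap (t : ℝ) : ℂ := γ.ell t / (derivative F).eval (γ.x t)

/-- the curve does not meet the critical points of `F` -/
def Nc : Prop := ∀ t, (derivative F).eval (γ.x t) ≠ 0

variable {γ} (h : γ.Nc)

include h

theorem Nc.continuous_kap : Continuous γ.kap :=
  γ.continuous_ell.div (γ.continuous_Fx _) h

theorem Nc.kap_mul (t : ℝ) : (derivative F).eval (γ.x t) * γ.kap t = γ.ell t :=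
  mul_div_cancel₀ _ (h t)

theorem Nc.kap_mul_y (t : ℝ) : γ.kap t * γ.y t = deriv γ.x t := by
  have h1 := γ.F'_eq t
  have h2 := h t
  unfold kap
  rw [div_mul_eq_mul_div, ← h1, mul_div_cancel_left₀ _ h2]

omit h

variable (γ)

/-- The polynomial `D`. -/
noncomputable def D : ℂ[X] :=
  ∑ k ∈ Finset.range ((pQ F).natDegree + 1),
    C (∫ t in (0 : ℝ)..1, γ.kap t * γ.x t ^ k) * (pQ F).coeff k

variable {γ}

theorem D_eval (h : γ.Nc) {b : ℂ}
    (hb : γ.Off b) : γ.D.eval b = (pA F).eval b * γ.W b + (pB F).eval b * γ.W1 b := by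
  have h0 : ∀ t, γ.x t - b ≠ 0 := fun t => sub_ne_zero.2 (hb t)
  have ck := h.continuous_kap
  have cx := γ.continuous_x
  have cxb : Continuous fun t => γ.x t - b := cx.sub continuous_const
  have e1 : (γ.D).eval b = ∫ t in (0 : ℝ)..1, γ.kap t * (pQ F).evalEval b (γ.x t) := by
    unfold D
    rw [eval_finsetSum]
    have e2 : ∀ t, γ.kap t * (pQ F).evalEval b (γ.x t) =
        ∑ k ∈ Finset.range ((pQ F).natDegree + 1),
          γ.kap t * γ.x t ^ k * ((pQ F).coeff k).eval b := by
      intro t
      have e3 : (pQ F).evalEval b (γ.x t) = ∑ k ∈ Finset.range ((pQ F).natDegree + 1),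
          ((pQ F).coeff k).eval b * γ.x t ^ k := by
        show ((pQ F).eval (C (γ.x t))).eval b = _
        rw [eval_eq_sum_range (p := pQ F), eval_finsetSum]
        refine Finset.sum_congr rfl fun k _ => ?_
        rw [eval_mul, eval_pow, eval_C]
      rw [e3, Finset.mul_sum]
      refine Finset.sum_congr rfl fun k _ => ?_
      ring
    simp only [e2]
    rw [intervalIntegral.integral_finsetSum]
    · refine Finset.sum_congr rfl fun k _ => ?_
      rw [eval_mul, eval_C, intervalIntegral.integral_mul_const]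
    · intro k _
      exact ((ck.mul (cx.pow k)).mul continuous_const).intervalIntegrable _ _
  have hy : ∀ t, HasDerivAt (fun t => γ.y t / (γ.x t - b))
      (γ.ell t * F.eval (γ.x t) / (γ.x t - b) - γ.y t * deriv γ.x t / (γ.x t - b) ^ 2) t := by
    intro t
    refine ((γ.hasDerivAt_y t).fun_div ((γ.hasDerivAt_x t).sub_const b) (h0 t)).congr_deriv ?_
    have := h0 t
    field_simp
  have cF := γ.continuous_Fx F
  have c1 : Continuous fun t => γ.ell t / (γ.x t - b) := γ.continuous_ell.div cxb h0
  have c2 : Continuous fun t => γ.ell t / (γ.x t - b) ^ 2 :=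
    γ.continuous_ell.div (cxb.pow 2) fun t => pow_ne_zero 2 (h0 t)
  have c3 : Continuous fun t => γ.ell t * F.eval (γ.x t) / (γ.x t - b) -
      γ.y t * deriv γ.x t / (γ.x t - b) ^ 2 :=
    ((γ.continuous_ell.mul cF).div cxb h0).sub
      ((γ.continuous_y.mul γ.continuous_dx).div (cxb.pow 2) fun t => pow_ne_zero 2 (h0 t))
  have hint : ∫ t in (0 : ℝ)..1, (γ.ell t * F.eval (γ.x t) / (γ.x t - b) -
      γ.y t * deriv γ.x t / (γ.x t - b) ^ 2) = 0 := by
    rw [intervalIntegral.integral_eq_sub_of_hasDerivAt (fun t _ => hy t)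
      (c3.intervalIntegrable _ _), γ.y_one, γ.x_one, sub_self]
  have e4 : ∀ t, γ.kap t * (pQ F).evalEval b (γ.x t) =
      (pA F).eval b * (γ.ell t / (γ.x t - b)) + (pB F).eval b * (γ.ell t / (γ.x t - b) ^ 2) +
      (derivative F).eval b ^ 2 * (γ.ell t * F.eval (γ.x t) / (γ.x t - b) -
      γ.y t * deriv γ.x t / (γ.x t - b) ^ 2) := by
    intro t
    rw [evalEval_pQ F (hb t), evalEval_pN]
    have h1 := h.kap_mul t
    have h2 := h.kap_mul_y t
    have h3 := γ.y_sq t
    have := h0 t
    rw [← h1, ← h2]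
    field_simp
    linear_combination (γ.kap t * eval b (derivative F) ^ 2) * h3
  rw [e1]
  simp only [e4]
  rw [intervalIntegral.integral_add, intervalIntegral.integral_add,
    intervalIntegral.integral_const_mul, intervalIntegral.integral_const_mul,
    intervalIntegral.integral_const_mul, hint, mul_zero, add_zero]
  · rfl
  · exact (continuous_const.mul c1).intervalIntegrable _ _
  · exact (continuous_const.mul c2).intervalIntegrable _ _
  · exact ((continuous_const.mul c1).add (continuous_const.mul c2)).intervalIntegrable _ _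
  · exact (continuous_const.mul c3).intervalIntegrable _ _

end Lp

end Pool.Agent.E8helper67.PS
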