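import Pool.Agent.E8helper67.PS.Local
set_option autoImplicit false

/-!
Critical values of polynomials with a real factor.
-/

namespace Pool.Agent.E8helper67.PS

open Polynomial

/-- `P'² - P P''` -/
noncomputable def lag (P : ℝ[X]) (y : ℝ) : ℝ :=
  P.derivative.eval y ^ 2 - P.eval y * P.derivative.derivative.eval y

theorem lag_prod (s : Multiset ℝ) (y : ℝ) :
    0 ≤ lag (s.map fun r => X - C r).prod y ∧
      (s ≠ 0 → (s.map fun r => X - C r).prod.eval y ≠ 0 →
        0 < lag (s.map fun r => X - C r).prod y) := by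
  induction s using Multiset.induction_on with
  | empty =>
    refine ⟨?_, fun h => absurd rfl h⟩
    unfold lag
    simp
  | cons r s ih =>
    set Q := (s.map fun r => X - C r).prod with hQ
    have e1 : ((r ::ₘ s).map fun r => X - C r).prod = (X - C r) * Q := by
      rw [Multiset.map_cons, Multiset.prod_cons]
    have e2 : lag ((X - C r) * Q) y = Q.eval y ^ 2 + (y - r) ^ 2 * lag Q y := by
      unfold lag
      simp only [derivative_mul, derivative_add, derivative_sub, derivative_X, derivative_C,
        sub_zero, one_mul, eval_add, eval_mul, eval_sub, eval_X, eval_C]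
      ring
    rw [e1, e2]
    have h1 := ih.1
    refine ⟨by positivity, fun _ h => ?_⟩
    rw [eval_mul] at h
    have h2 : Q.eval y ≠ 0 := right_ne_zero_of_mul h
    have h3 : 0 < Q.eval y ^ 2 := by positivity
    have h4 : 0 ≤ (y - r) ^ 2 * lag Q y := by positivity
    linarith

/-- Laguerre's inequality for a real polynomial with only real roots. -/
theorem lag_pos {P : ℝ[X]} (hP : 0 < P.natDegree)
    (h : ∀ z : ℂ, (P.map Complex.ofRealHom).eval z = 0 → z.im = 0) {y : ℝ}
    (hy : P.eval y ≠ 0) : 0 < lag P y := by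
  have hP0 : P ≠ 0 := fun h0 => hy (by rw [h0, eval_zero])
  set Pc := P.map Complex.ofRealHom with hPc
  have hPc0 : Pc ≠ 0 := (Polynomial.map_ne_zero_iff Complex.ofRealHom.injective).2 hP0
  set s : Multiset ℝ := Pc.roots.map Complex.re with hs
  have h1 : Pc = C ((P.leadingCoeff : ℝ) : ℂ) * (Pc.roots.map fun a => X - C a).prod := by
    have h2 := (IsAlgClosed.splits Pc).eq_prod_roots
    have h3 : Pc.leadingCoeff = ((P.leadingCoeff : ℝ) : ℂ) :=
      leadingCoeff_map_of_injective Complex.ofRealHom.injective P
    rwa [h3] at h2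
  have h2 : P = C P.leadingCoeff * (s.map fun r => X - C r).prod := by
    apply Polynomial.map_injective Complex.ofRealHom Complex.ofRealHom.injective
    rw [Polynomial.map_mul, map_C, Polynomial.map_multiset_prod, Multiset.map_map, hs,
      Multiset.map_map]
    have h3 : Pc.roots.map ((Polynomial.map Complex.ofRealHom ∘ fun r => X - C r) ∘ Complex.re) =
        Pc.roots.map fun a => X - C a := by
      refine Multiset.map_congr rfl fun a ha => ?_
      have h4 := h a ((mem_roots hPc0).1 ha)
      simp only [Function.comp_apply, Polynomial.map_sub, map_X, map_C]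
      congr 2
      exact Complex.ext rfl h4.symm
    rw [h3]
    exact h1
  have hl : P.leadingCoeff ≠ 0 := leadingCoeff_ne_zero.2 hP0
  have hs0 : s ≠ 0 := by
    intro h0
    rw [h0, Multiset.map_zero, Multiset.prod_zero, mul_one] at h2
    rw [h2, natDegree_C] at hP
    exact lt_irrefl _ hP
  set Q := (s.map fun r => X - C r).prod with hQ
  have hQy : Q.eval y ≠ 0 := by
    intro h0
    apply hy
    rw [h2, eval_mul, h0, mul_zero]
  have h3 := (lag_prod s y).2 hs0 hQy
  have h4 : lag P y = P.leadingCoeff ^ 2 * lag Q y := by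
    have h5 : lag (C P.leadingCoeff * Q) y = P.leadingCoeff ^ 2 * lag Q y := by
      unfold lag
      simp only [derivative_C_mul, eval_mul, eval_C]
      ring
    rw [← h5, ← h2]
  rw [h4]
  positivity

/-- The critical points of the real factor are real with values of absolute value at least two. -/
theorem RealFactor.crit {P : ℂ[X]} (h : RealFactor P) :
    ∃ (G : ℝ[X]) (H : ℂ[X]), 2 ≤ G.natDegree ∧ P = (G.map Complex.ofRealHom).comp H ∧
      ∀ z : ℂ, (derivative (G.map Complex.ofRealHom)).eval z = 0 →
        z.im = 0 ∧ 2 ≤ |G.eval z.re| := by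
  obtain ⟨G, H, hG, hP, hreal⟩ := h
  refine ⟨G, H, hG, hP, fun z hz => ?_⟩
  set Gc := G.map Complex.ofRealHom with hGc
  have hGd : Gc.natDegree = G.natDegree :=
    natDegree_map_eq_of_injective Complex.ofRealHom.injective G
  have hG0 : 0 < Gc.natDegree := by omega
  have hdeg : 0 < Gc.degree := natDegree_pos_iff_degree_pos.1 hG0
  have hd0 : derivative Gc ≠ 0 := by
    intro h0
    have := derivative_eq_zero.1 h0
    omega
  have him : z.im = 0 := by
    have h1 : z ∈ Gc.derivative.rootSet ℂ := by
      rw [mem_rootSet, coe_aeval_eq_eval]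
      exact ⟨hd0, hz⟩
    have h2 := rootSet_derivative_subset_convexHull_rootSet hdeg h1
    have h3 : Gc.rootSet ℂ ⊆ {w : ℂ | w.im = 0} := by
      intro w hw
      rw [mem_rootSet, coe_aeval_eq_eval] at hw
      refine hreal 0 (by simp) w ?_
      rw [Complex.ofReal_zero]
      exact hw.2
    have h4 : Convex ℝ {w : ℂ | w.im = 0} := by
      intro a ha b hb s t _ _ _
      show (s • a + t • b).im = 0
      have ha' : a.im = 0 := ha
      have hb' : b.im = 0 := hb
      simp [ha', hb']
    exact convexHull_min h3 h4 h2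
  refine ⟨him, ?_⟩
  by_contra hlt
  push Not at hlt
  set y := z.re with hy
  have hz' : z = (y : ℂ) := Complex.ext rfl him
  have hG'y : G.derivative.eval y = 0 := by
    have h1 : (derivative Gc).eval (y : ℂ) = ((G.derivative.eval y : ℝ) : ℂ) := by
      rw [hGc, Polynomial.derivative_map]
      exact eval_map_apply (f := Complex.ofRealHom) (p := derivative G) ..
    rw [← hz', hz] at h1
    exact_mod_cast h1.symm
  have key : ∀ t : ℝ, |t| ≤ 2 → t ≠ G.eval y → 0 < -((G.eval y - t) * G.derivative.derivative.eval y) := by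
    intro t ht hne
    have h1 : 0 < lag (G - C t) y := by
      refine lag_pos (by rw [natDegree_sub_C]; omega) (fun w hw => ?_) ?_
      · rw [Polynomial.map_sub, map_C, eval_sub, eval_C, sub_eq_zero] at hw
        exact hreal t ht w hw
      · rw [eval_sub, eval_C]
        exact sub_ne_zero.2 hne.symm
    unfold lag at h1
    simp only [derivative_sub, derivative_C, sub_zero, eval_sub, eval_C, hG'y] at h1
    linarith
  obtain ⟨hl1, hl2⟩ := abs_lt.1 hlt
  set δ := min (2 - G.eval y) (G.eval y + 2) with hδ
  have hδ0 : 0 < δ := lt_min (by linarith) (by linarith)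
  have h1 := key (G.eval y + δ) (abs_le.2 ⟨by linarith, by
    have := min_le_left (2 - G.eval y) (G.eval y + 2)
    linarith⟩) (by linarith [hδ0] |> ne_of_gt)
  have h2 := key (G.eval y - δ) (abs_le.2 ⟨by
    have := min_le_right (2 - G.eval y) (G.eval y + 2)
    linarith, by linarith⟩) (by linarith [hδ0] |> ne_of_lt)
  have e1 : G.eval y - (G.eval y + δ) = -δ := by ring
  have e2 : G.eval y - (G.eval y - δ) = δ := by ring
  rw [e1] at h1
  rw [e2] at h2
  linarith

/-- some critical value is real of absolute value at least two -/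
theorem RealFactor.exists_crit {P : ℂ[X]} (h : RealFactor P) (hP : 0 < P.natDegree) :
    ∃ x : ℂ, P.derivative.eval x = 0 ∧ (P.eval x).im = 0 ∧ 2 ≤ |(P.eval x).re| := by
  obtain ⟨G, H, hG, hPG, hc⟩ := h.crit
  set Gc := G.map Complex.ofRealHom with hGc
  have hGd : Gc.natDegree = G.natDegree :=
    natDegree_map_eq_of_injective Complex.ofRealHom.injective G
  have hHd : 0 < H.natDegree := by
    rw [hPG, natDegree_comp] at hP
    exact Nat.pos_of_mul_pos_left hP
  have hdd : (derivative Gc).degree ≠ 0 := by
    have h1 : (derivative Gc).natDegree = Gc.natDegree - 1 := natDegree_derivative Gc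
    have h2 : 0 < (derivative Gc).natDegree := by omega
    exact (natDegree_pos_iff_degree_pos.1 h2).ne'
  obtain ⟨z, hz⟩ := IsAlgClosed.exists_root _ hdd
  obtain ⟨x, hx⟩ := IsAlgClosed.exists_root (H - C z) (by
    rw [degree_sub_C (natDegree_pos_iff_degree_pos.1 hHd)]
    exact (natDegree_pos_iff_degree_pos.1 hHd).ne')
  rw [IsRoot.def, eval_sub, eval_C, sub_eq_zero] at hx
  obtain ⟨h1, h2⟩ := hc z hz
  have hz' : z = (z.re : ℂ) := Complex.ext rfl h1
  have h3 : P.eval x = ((G.eval z.re : ℝ) : ℂ) := by
    rw [hPG, eval_comp, hx]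
    conv_lhs => rw [hz']
    exact eval_map_apply (f := Complex.ofRealHom) (p := G) ..
  refine ⟨x, ?_, ?_, ?_⟩
  · rw [hPG, derivative_comp, eval_mul, eval_comp, hx]
    have : (derivative Gc).eval z = 0 := hz
    rw [this, mul_zero]
  · rw [h3, Complex.ofReal_im]
  · rw [h3, Complex.ofReal_re]
    exact h2

/-- for prime degree all critical values are real of absolute value at least two -/
theorem RealFactor.prime_crit {P : ℂ[X]} (h : RealFactor P) (hP : P.natDegree.Prime) {x : ℂ}
    (hx : P.derivative.eval x = 0) : (P.eval x).im = 0 ∧ 2 ≤ |(P.eval x).re| := by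
  obtain ⟨G, H, hG, hPG, hc⟩ := h.crit
  set Gc := G.map Complex.ofRealHom with hGc
  have hGd : Gc.natDegree = G.natDegree :=
    natDegree_map_eq_of_injective Complex.ofRealHom.injective G
  have hHd : H.natDegree = 1 := by
    have h1 : P.natDegree = G.natDegree * H.natDegree := by rw [hPG, natDegree_comp, hGd]
    rcases (Nat.dvd_prime hP).1 (Dvd.intro _ h1.symm) with h2 | h2
    · omega
    · rw [h2] at h1
      exact Nat.eq_of_mul_eq_mul_left hP.pos (by rw [mul_one]; exact h1.symm)
  have hH' : ∀ z, (derivative H).eval z ≠ 0 := by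
    intro z h0
    obtain ⟨u, hu, v, hv⟩ := natDegree_eq_one.1 hHd
    rw [← hv] at h0
    simp at h0
    exact hu h0
  rw [hPG, derivative_comp, eval_mul, eval_comp] at hx
  have hz := (mul_eq_zero.1 hx).resolve_left (hH' x)
  obtain ⟨h1, h2⟩ := hc _ hz
  have hz' : H.eval x = ((H.eval x).re : ℂ) := Complex.ext rfl h1
  have h3 : P.eval x = ((G.eval (H.eval x).re : ℝ) : ℂ) := by
    rw [hPG, eval_comp]
    conv_lhs => rw [hz']
    exact eval_map_apply (f := Complex.ofRealHom) (p := G) ..
  rw [h3]
  exact ⟨Complex.ofReal_im _, by rw [Complex.ofReal_re]; exact h2⟩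

end Pool.Agent.E8helper67.PS
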