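import Pool.Agent.E8helper67.PS.Joint
import Pool.Agent.E8helper67.PS.RFac
set_option autoImplicit false

/-!
The choice of the special points, and loops in the open part of the curve.
-/

namespace Pool.Agent.E8helper67.PS

open Polynomial

open Pool.Agent.TH826.MK (Torus symb)

open Pool.Agent.TH826.HD

open Pool.Agent.TH826.UH (pr NZ PtS mkS mkS_e mkS_reg)

theorem det_ne {ι : Type} {N : ℕ} (v : Fin (N + 1) → Option ι → ℝ) (hv : LinearIndependent ℝ v)
    (h1 : ∀ k, v k none = 1) (e : Fin N ≃ ι) :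
    (Matrix.of fun l k : Fin N => v k.succ (some (e l)) - v 0 (some (e l))).det ≠ 0 := by
  intro hdet
  obtain ⟨a, ha, hMa⟩ := Matrix.exists_mulVec_eq_zero_iff.2 hdet
  have hrow : ∀ p : ι, ∑ k, (v k.succ (some p) - v 0 (some p)) * a k = 0 := by
    intro p
    obtain ⟨l, rfl⟩ := e.surjective p
    have h2 := congrFun hMa l
    simpa [Matrix.mulVec, dotProduct] using h2
  set c : Fin (N + 1) → ℝ := Fin.cons (-∑ k, a k) a with hc
  have hsum : ∑ k, c k • v k = 0 := by
    funext o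
    rw [Fin.sum_univ_succ]
    simp only [hc, Fin.cons_zero, Fin.cons_succ, Pi.add_apply, Pi.smul_apply, Finset.sum_apply,
      smul_eq_mul, Pi.zero_apply]
    rcases o with _ | p
    · simp only [h1, mul_one]
      ring
    · have h3 := hrow p
      simp only [sub_mul, Finset.sum_sub_distrib] at h3
      rw [← Finset.mul_sum] at h3
      have h4 : ∑ k, a k * v k.succ (some p) = ∑ k, v k.succ (some p) * a k :=
        Finset.sum_congr rfl fun k _ => mul_comm _ _
      rw [h4]
      linarith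
  have hc0 := Fintype.linearIndependent_iff.1 hv c hsum
  apply ha
  funext k
  have := hc0 k.succ
  simpa [hc] using this

/-- roots of `F = τ` are integral -/
theorem isIntegral_root {E : Type*} [Field E] {F : E[X]} (hF : F.Monic)
    (hn : 0 < F.natDegree) (hint : ∀ i, IsIntegral ℤ (F.coeff i)) {b : E}
    (hb : IsIntegral ℤ (F.eval b)) : IsIntegral ℤ b := by
  have hl : F ∈ lifts (algebraMap (integralClosure ℤ E) E) := by
    rw [lifts_iff_coeff_lifts]
    intro i
    exact ⟨⟨F.coeff i, hint i⟩, rfl⟩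
  obtain ⟨q, hq, hqd, hqm⟩ := lifts_and_natDegree_eq_and_monic hl hF
  have h1 : aeval b q = F.eval b := by
    rw [← hq, eval_map]
    rfl
  have h2 : IsIntegral (integralClosure ℤ E) b := by
    refine IsIntegral.of_aeval_monic hqm (by omega) ?_
    rw [h1]
    exact isIntegral_algebraMap (x := (⟨F.eval b, hb⟩ : integralClosure ℤ E))
  exact isIntegral_trans b h2

namespace Setup

variable {K : Type*} [Field K] [NumberField K] {F : K[X]} {M m : ℕ} {P : Setup F M m}

/-- independent special points -/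
theorem exists_points (hF : F.Monic) (hn : 0 < F.natDegree) (hM : 0 < M)
    (hR : ∀ i, ¬ RealFactor (F.map (P.s i))) :
    ∃ S : Fin M → (AlgebraicClosure K →+* ℂ), P.IsExt S ∧
      ∃ b : Fin (M * m + 1) → AlgebraicClosure K, (∀ k, P.Sp S (b k)) ∧
        LinearIndependent ℝ fun k => P.vec S (b k) := by
  classical
  obtain ⟨S, hS, hspan⟩ := exists_span (P := P) hF hn hM hR
  refine ⟨S, hS, ?_⟩
  set A : Set (Option (Fin M × Fin m) → ℝ) := {v | ∃ b, P.Sp S b ∧ P.vec S b = v} with hA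
  obtain ⟨f, hfA, -, hfl⟩ := Submodule.exists_fun_fin_finrank_span_eq ℝ A
  have hcard : Module.finrank ℝ (Submodule.span ℝ A) = M * m + 1 := by
    rw [hspan, finrank_top, Module.finrank_fintype_fun_eq_card, Fintype.card_option,
      Fintype.card_prod, Fintype.card_fin, Fintype.card_fin]
  choose b hb hbv using hfA
  let e : Fin (M * m + 1) ≃ Fin (Module.finrank ℝ (Submodule.span ℝ A)) := finCongr hcard.symm
  refine ⟨fun k => b (e k), fun k => hb (e k), ?_⟩
  have h1 : (fun k => P.vec S (b (e k))) = f ∘ e := by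
    funext k
    exact hbv (e k)
  rw [h1]
  exact hfl.comp _ e.injective

end Setup

section Loops

variable {L : Type*} [Field L] {σ : L →+* ℂ} {G : L[X]} {n : ℕ} {b : Fin n → L}

theorem Lp.ptS {F : ℂ[X]} (γ : Lp F) (hG : G.map σ = F) (hoff : ∀ k, γ.Off (σ (b k))) (t : ℝ) :
    PtS σ G b (γ.x t) (γ.z t) := by
  refine ⟨?_, fun k => hoff k t⟩
  have h1 := γ.eq t
  have h2 : F.eval (γ.x t) = G.eval₂ σ (γ.x t) := by
    conv_lhs => rw [show F.eval (γ.x t) = (G.map σ).eval (γ.x t) from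
      congrArg (fun p => p.eval (γ.x t)) hG.symm, eval_map]
  rw [h2] at h1
  exact h1

/-- the loop in the open part of the curve -/
noncomputable def Lp.torus {F : ℂ[X]} (γ : Lp F) (hG : G.map σ = F)
    (hoff : ∀ k, γ.Off (σ (b k))) : Torus (POpen G b) 1 :=
  mkS γ.hx γ.nz.smooth γ.px γ.pz (γ.ptS hG hoff)

theorem Lp.torus_e {F : ℂ[X]} (γ : Lp F) (hG : G.map σ = F) (hoff : ∀ k, γ.Off (σ (b k)))
    (θ : Fin 1 → ℝ) (y : L) : (γ.torus hG hoff).e θ (pcst G b y) = σ y := by
  unfold Lp.torus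
  rw [mkS_e]
  exact PtS.evA_pcst _ y

theorem Lp.torus_ppol {F : ℂ[X]} (γ : Lp F) (hG : G.map σ = F) (hoff : ∀ k, γ.Off (σ (b k)))
    (θ : Fin 1 → ℝ) (p : L[X]) :
    (γ.torus hG hoff).e θ (toP G b (ppol G p)) = (p.map σ).eval (γ.x (θ 0)) := by
  unfold Lp.torus
  rw [mkS_e, (γ.ptS hG hoff (θ 0)).evA_toP, (γ.ptS hG hoff (θ 0)).evB_ppol, eval_map]

theorem Lp.torus_reg {F : ℂ[X]} (γ : Lp F) (hG : G.map σ = F) (hoff : ∀ k, γ.Off (σ (b k)))
    (k l : Fin n) : (γ.torus hG hoff).reg (symb (pent G b k l)) =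
      γ.Phi (σ (b k)) - γ.Phi (σ (b l)) := by
  exact mkS_reg γ.hx γ.nz γ.px γ.pz (γ.ptS hG hoff) k l

end Loops

end Pool.Agent.E8helper67.PS
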