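import Pool.Agent.E8helper67.PS.Pfrac
set_option autoImplicit false

/-!
Greatest common divisors with a monic polynomial over `k[X]`, and the exchange of variables.
-/

namespace Pool.Agent.E8helper67.PS

open Polynomial

theorem exists_monic_gcd {k : Type*} [Field k] (P Q : k[X][X]) (hP : P.Monic) :
    ∃ A : k[X][X], A.Monic ∧ A ∣ P ∧ A ∣ Q ∧
      ∃ δ : k[X], δ ≠ 0 ∧ ∃ S T : k[X][X], C δ * A = S * P + T * Q := by
  classical
  let K := FractionRing k[X]
  let φ : k[X] →+* K := algebraMap k[X] K
  have hφ : Function.Injective φ := IsFractionRing.injective k[X] K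
  have hP1 : (P.map φ).Monic := hP.map φ
  set g : K[X] := EuclideanDomain.gcd (P.map φ) (Q.map φ) with hg
  have hg0 : g ≠ 0 := by
    intro h
    exact hP1.ne_zero (EuclideanDomain.gcd_eq_zero_iff.1 h).1
  have hgP : g ∣ P.map φ := EuclideanDomain.gcd_dvd_left _ _
  have hgQ : g ∣ Q.map φ := EuclideanDomain.gcd_dvd_right _ _
  obtain ⟨A, hA⟩ := IsIntegrallyClosed.eq_map_mul_C_of_dvd K hP hgP
  have hlc : g.leadingCoeff ≠ 0 := leadingCoeff_ne_zero.2 hg0
  have hAg : A.map φ = g * C g.leadingCoeff⁻¹ := by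
    have h1 : A.map φ * C g.leadingCoeff = g := hA
    calc A.map φ = A.map φ * C g.leadingCoeff * C g.leadingCoeff⁻¹ := by
          rw [mul_assoc, ← C_mul, mul_inv_cancel₀ hlc, C_1, mul_one]
      _ = _ := by rw [h1]
  have hAm : A.Monic := by
    have h1 : (A.map φ).Monic := by
      rw [hAg]
      exact monic_mul_leadingCoeff_inv hg0
    exact (hφ.monic_map_iff).2 h1
  have hAdvd : A.map φ ∣ g := ⟨C g.leadingCoeff, hA.symm⟩
  refine ⟨A, hAm, (map_dvd_map φ hφ hAm).1 (hAdvd.trans hgP),
    (map_dvd_map φ hφ hAm).1 (hAdvd.trans hgQ), ?_⟩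
  set a : K[X] := EuclideanDomain.gcdA (P.map φ) (Q.map φ)
  set b : K[X] := EuclideanDomain.gcdB (P.map φ) (Q.map φ)
  have hbez : g = P.map φ * a + Q.map φ * b := EuclideanDomain.gcd_eq_gcd_ab _ _
  obtain ⟨d1, hd1, h1⟩ := IsLocalization.integerNormalization_spec (nonZeroDivisors k[X])
    (a * C g.leadingCoeff⁻¹)
  obtain ⟨d2, hd2, h2⟩ := IsLocalization.integerNormalization_spec (nonZeroDivisors k[X])
    (b * C g.leadingCoeff⁻¹)
  set a' := IsLocalization.integerNormalization (nonZeroDivisors k[X]) (a * C g.leadingCoeff⁻¹)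
  set b' := IsLocalization.integerNormalization (nonZeroDivisors k[X]) (b * C g.leadingCoeff⁻¹)
  refine ⟨d1 * d2, mul_ne_zero (nonZeroDivisors.ne_zero hd1) (nonZeroDivisors.ne_zero hd2),
    C d2 * a', C d1 * b', ?_⟩
  apply Polynomial.map_injective φ hφ
  have e1 : a'.map φ = C (φ d1) * (a * C g.leadingCoeff⁻¹) := by
    rw [show a'.map φ = d1 • (a * C g.leadingCoeff⁻¹) from h1, ← smul_eq_C_mul,
      ← algebraMap_smul K d1]
  have e2 : b'.map φ = C (φ d2) * (b * C g.leadingCoeff⁻¹) := by
    rw [show b'.map φ = d2 • (b * C g.leadingCoeff⁻¹) from h2, ← smul_eq_C_mul,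
      ← algebraMap_smul K d2]
  simp only [Polynomial.map_mul, Polynomial.map_add, map_C, e1, e2, hAg, map_mul]
  linear_combination (C (φ d1) * C (φ d2) * C g.leadingCoeff⁻¹) * hbez

theorem coeff_swap {k : Type*} [CommRing k] (p : k[X][X]) (i j : ℕ) :
    ((Bivariate.swap p).coeff i).coeff j = (p.coeff j).coeff i := by
  induction p using Polynomial.induction_on' with
  | add p q hp hq => simp only [map_add, coeff_add, hp, hq]
  | monomial n a =>
    induction a using Polynomial.induction_on' with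
    | add p q hp hq => simp only [map_add, coeff_add, hp, hq]
    | monomial m r =>
      rw [Bivariate.swap_monomial_monomial]
      simp only [coeff_monomial]
      split_ifs <;> simp_all [coeff_monomial]

theorem eq_rG_of_dvd {A : ℂ[X]} (hA : A.Monic) {S : Finset ℂ} (h : A ∣ rG S) :
    A = rG (S.filter fun a => A.eval a = 0) := by
  classical
  have hS0 : rG S ≠ 0 := rG_monic.ne_zero
  have hroots : (rG S).roots = S.val := by
    unfold rG
    exact roots_prod_X_sub_C S
  have hle : A.roots ≤ S.val := hroots ▸ roots.le_of_dvd hS0 h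
  have hnd : A.roots.Nodup := Multiset.nodup_of_le hle S.nodup
  have hA1 : A = (A.roots.map fun a => X - C a).prod :=
    (IsAlgClosed.splits A).eq_prod_roots_of_monic hA
  have e : A.roots = (S.filter fun a => A.eval a = 0).val := by
    refine (Multiset.Nodup.ext hnd (Finset.nodup _)).2 fun a => ?_
    rw [mem_roots hA.ne_zero, Finset.mem_val, Finset.mem_filter, IsRoot.def]
    constructor
    · intro ha
      exact ⟨Multiset.mem_of_le hle ((mem_roots hA.ne_zero).2 ha), ha⟩
    · exact fun ha => ha.2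
  conv_lhs => rw [hA1, e]
  rfl

end Pool.Agent.E8helper67.PS
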