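import Mathlib
set_option autoImplicit false

/-!
Partial fractions of `1 / G` and `1 / G²` for a polynomial `G` with simple roots.
-/

namespace Pool.Agent.E8helper67.PS

open Polynomial

variable (R : Finset ℂ)

/-- `∏_{x ∈ R} (X - x)` -/
noncomputable def rG : ℂ[X] := ∏ x ∈ R, (X - C x)

/-- the product of the other factors -/
noncomputable def rp (x : ℂ) : ℂ[X] := ∏ y ∈ R.erase x, (X - C y)

variable {R}

theorem rG_eq {x : ℂ} (hx : x ∈ R) : rG R = (X - C x) * rp R x :=
  (Finset.mul_prod_erase R (fun y => X - C y) hx).symm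

theorem rG_eval (u : ℂ) : (rG R).eval u = ∏ x ∈ R, (u - x) := by
  unfold rG
  rw [eval_prod]
  simp

theorem rG'_eval {x : ℂ} (hx : x ∈ R) : (derivative (rG R)).eval x = (rp R x).eval x := by
  rw [rG_eq hx]
  simp

theorem rG''_eval {x : ℂ} (hx : x ∈ R) :
    (derivative (derivative (rG R))).eval x = 2 * (derivative (rp R x)).eval x := by
  rw [rG_eq hx]
  simp
  ring

theorem rp_self_ne (x : ℂ) : (rp R x).eval x ≠ 0 := by
  unfold rp
  rw [eval_prod]
  refine Finset.prod_ne_zero_iff.2 fun y hy => ?_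
  rw [eval_sub, eval_X, eval_C]
  exact sub_ne_zero.2 (Finset.ne_of_mem_erase hy).symm

theorem rp_dvd {x y : ℂ} (hx : x ∈ R) (hxy : x ≠ y) : (X - C x) ∣ rp R y :=
  Finset.dvd_prod_of_mem (fun y => X - C y) (Finset.mem_erase.2 ⟨hxy, hx⟩)

theorem rp_natDegree {x : ℂ} (hx : x ∈ R) : (rp R x).natDegree = R.card - 1 := by
  unfold rp
  rw [natDegree_prod_of_monic _ _ fun y _ => monic_X_sub_C y]
  simp [Finset.card_erase_of_mem hx]

theorem rG_natDegree : (rG R).natDegree = R.card := by
  unfold rG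
  rw [natDegree_prod_of_monic _ _ fun y _ => monic_X_sub_C y]
  simp

theorem rG_monic : (rG R).Monic := monic_prod_of_monic _ _ fun y _ => monic_X_sub_C y

theorem rp_eval {x u : ℂ} (hx : x ∈ R) (hu : u ≠ x) :
    (rp R x).eval u = (rG R).eval u / (u - x) := by
  rw [rG_eq hx, eval_mul, eval_sub, eval_X, eval_C]
  have := sub_ne_zero.2 hu
  field_simp

theorem coprime_sq {x y : ℂ} (h : x ≠ y) : IsCoprime ((X - C x : ℂ[X]) ^ 2) ((X - C y) ^ 2) :=
  (isCoprime_X_sub_C_of_isUnit_sub (sub_ne_zero.2 h).isUnit).pow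

theorem pfrac_one (hR : R.Nonempty) {u : ℂ} (hu : u ∉ R) :
    ∑ x ∈ R, 1 / ((derivative (rG R)).eval x * (u - x)) = 1 / (rG R).eval u := by
  set H : ℂ[X] := ∑ x ∈ R, C ((rp R x).eval x)⁻¹ * rp R x - 1 with hH
  have hcard : 0 < R.card := hR.card_pos
  have h0 : H = 0 := by
    refine eq_zero_of_natDegree_lt_card_of_eval_eq_zero' H R ?_ ?_
    · intro x hx
      rw [hH, eval_sub, eval_finsetSum, Finset.sum_eq_single_of_mem x hx]
      · rw [eval_mul, eval_C, inv_mul_cancel₀ (rp_self_ne x), eval_one, sub_self]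
      · intro y hy hyx
        obtain ⟨Q, hQ⟩ := rp_dvd hx hyx.symm
        rw [hQ]
        simp
    · refine lt_of_le_of_lt (natDegree_sub_le _ _) ?_
      rw [natDegree_one, max_eq_left (Nat.zero_le _)]
      refine lt_of_le_of_lt (natDegree_sum_le_of_forall_le (n := R.card - 1) _ _
        fun x hx => ?_) (Nat.sub_lt hcard one_pos)
      exact (natDegree_C_mul_le _ _).trans (rp_natDegree hx).le
  have hne : ∀ x ∈ R, u ≠ x := fun x hx e => hu (e ▸ hx)
  have hG : (rG R).eval u ≠ 0 := by
    rw [rG_eval]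
    exact Finset.prod_ne_zero_iff.2 fun x hx => sub_ne_zero.2 (hne x hx)
  have h1 := congrArg (Polynomial.eval u) h0
  rw [hH, eval_sub, eval_finsetSum, eval_one, eval_zero, sub_eq_zero] at h1
  rw [eq_div_iff hG]
  refine Eq.trans ?_ h1
  rw [Finset.sum_mul]
  refine Finset.sum_congr rfl fun x hx => ?_
  rw [eval_mul, eval_C, rp_eval hx (hne x hx), rG'_eval hx]
  have := sub_ne_zero.2 (hne x hx)
  have := rp_self_ne (R := R) x
  field_simp

theorem pfrac_two (hR : R.Nonempty) {u : ℂ} (hu : u ∉ R) :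
    ∑ x ∈ R, (1 / ((derivative (rG R)).eval x ^ 2 * (u - x) ^ 2) -
      (derivative (derivative (rG R))).eval x / ((derivative (rG R)).eval x ^ 3 * (u - x))) =
      1 / (rG R).eval u ^ 2 := by
  set T : ℂ → ℂ[X] := fun x => C (((rp R x).eval x) ^ 2)⁻¹ * rp R x ^ 2 -
    C (2 * (derivative (rp R x)).eval x / ((rp R x).eval x) ^ 3) * ((X - C x) * rp R x ^ 2)
    with hT
  set H : ℂ[X] := ∑ x ∈ R, T x - 1 with hH
  have hcard : 0 < R.card := hR.card_pos
  have hdvd : ∀ x ∈ R, (X - C x) ^ 2 ∣ H := by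
    intro x hx
    have e : H = ∑ y ∈ R.erase x, T y + (T x - 1) := by
      rw [hH, ← Finset.sum_erase_add _ _ hx]
      ring
    rw [e]
    refine dvd_add (Finset.dvd_sum fun y hy => ?_) ?_
    · have h1 : (X - C x) ^ 2 ∣ rp R y ^ 2 :=
        pow_dvd_pow_of_dvd (rp_dvd hx (Finset.ne_of_mem_erase hy).symm) 2
      exact dvd_sub (h1.mul_left _) ((h1.mul_left _).mul_left _)
    · have ha := rp_self_ne (R := R) x
      have h0 : (T x - 1).eval x = 0 := by
        simp only [hT, eval_sub, eval_mul, eval_C, eval_pow, eval_X, eval_one]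
        field_simp
        ring
      obtain ⟨N1, hN1⟩ := dvd_iff_isRoot.2 h0
      have h1 : N1.eval x = 0 := by
        have h2 : (derivative (T x - 1)).eval x = N1.eval x := by
          rw [hN1]
          simp
        rw [← h2]
        simp only [hT, derivative_sub, derivative_mul, derivative_C, derivative_pow, derivative_X,
          derivative_one, eval_sub, eval_mul, eval_add, eval_C, eval_pow, eval_X, eval_one,
          eval_zero]
        simp
        field_simp
        ring
      obtain ⟨Q, hQ⟩ := dvd_iff_isRoot.2 h1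
      exact ⟨Q, by rw [hN1, hQ]; ring⟩
  have hG2 : (rG R) ^ 2 ∣ H := by
    unfold rG
    rw [← Finset.prod_pow]
    refine Finset.prod_dvd_of_coprime ?_ hdvd
    intro x _ y _ hxy
    exact coprime_sq hxy
  have hdeg : H.natDegree < ((rG R) ^ 2).natDegree := by
    rw [rG_monic.natDegree_pow, rG_natDegree]
    refine lt_of_le_of_lt (natDegree_sub_le _ _) ?_
    rw [natDegree_one, max_eq_left (Nat.zero_le _)]
    refine lt_of_le_of_lt (natDegree_sum_le_of_forall_le (n := 2 * R.card - 1) _ _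
      fun x hx => ?_) (by omega)
    have h1 : (rp R x ^ 2).natDegree ≤ 2 * (R.card - 1) :=
      natDegree_pow_le.trans (by rw [rp_natDegree hx])
    refine (natDegree_sub_le _ _).trans (max_le ?_ ?_)
    · exact ((natDegree_C_mul_le _ _).trans h1).trans (by omega)
    · refine ((natDegree_C_mul_le _ _).trans natDegree_mul_le).trans ?_
      rw [natDegree_X_sub_C]
      omega
  have h0 : H = 0 := by
    by_contra hne
    exact (rG_monic.pow 2).not_dvd_of_natDegree_lt hne hdeg hG2
  have hne : ∀ x ∈ R, u ≠ x := fun x hx e => hu (e ▸ hx)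
  have hG : (rG R).eval u ≠ 0 := by
    rw [rG_eval]
    exact Finset.prod_ne_zero_iff.2 fun x hx => sub_ne_zero.2 (hne x hx)
  have h1 := congrArg (Polynomial.eval u) h0
  rw [hH, eval_sub, eval_finsetSum, eval_one, eval_zero, sub_eq_zero] at h1
  rw [eq_div_iff (pow_ne_zero 2 hG)]
  refine Eq.trans ?_ h1
  rw [Finset.sum_mul]
  refine Finset.sum_congr rfl fun x hx => ?_
  simp only [hT, eval_sub, eval_mul, eval_C, eval_pow, eval_X]
  rw [rp_eval hx (hne x hx), rG'_eval hx, rG''_eval hx]
  have := sub_ne_zero.2 (hne x hx)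
  have := rp_self_ne (R := R) x
  field_simp

end Pool.Agent.E8helper67.PS
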