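import Pool.Agent.E8helper67.PS.Dpol
import Pool.Agent.E8helper67.PS.Pfrac
set_option autoImplicit false

/-!
The sum of the rational function `D / F'³` over the roots of `F = t` vanishes.
-/

namespace Pool.Agent.E8helper67.PS

open Polynomial MeasureTheory Set Filter Topology

namespace Lp

variable {F : ℂ[X]} (γ : Lp F)

theorem trace {t : ℂ} {R : Finset ℂ} (hR : F - C t = rG R) (hne : R.Nonempty)
    (hoff : ∀ x ∈ R, γ.Off x) (h : γ.Nc) :
    ∑ x ∈ R, γ.D.eval x / (derivative F).eval x ^ 3 = 0 := by
  have hd : derivative F = derivative (rG R) := by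
    rw [← hR, derivative_sub, derivative_C, sub_zero]
  have hF : ∀ u, F.eval u = (rG R).eval u + t := by
    intro u
    rw [← hR, eval_sub, eval_C]
    ring
  have hFx : ∀ x ∈ R, F.eval x = t := by
    intro x hx
    rw [hF, rG_eval, Finset.prod_eq_zero hx (sub_self x), zero_add]
  have hGne : ∀ s, (rG R).eval (γ.x s) ≠ 0 := by
    intro s
    rw [rG_eval]
    exact Finset.prod_ne_zero_iff.2 fun x hx => sub_ne_zero.2 (hoff x hx s)
  have hnot : ∀ s, γ.x s ∉ R := fun s hs => hoff _ hs s rfl
  have h1 : ∀ x ∈ R, γ.D.eval x / (derivative F).eval x ^ 3 =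
      ∫ s in (0 : ℝ)..1, γ.ell s * (t * (1 / ((derivative (rG R)).eval x * (γ.x s - x))) +
        (t ^ 2 - 4) * (1 / ((derivative (rG R)).eval x ^ 2 * (γ.x s - x) ^ 2) -
      (derivative (derivative (rG R))).eval x /
        ((derivative (rG R)).eval x ^ 3 * (γ.x s - x)))) := by
    intro x hx
    have hdx : (derivative (rG R)).eval x ≠ 0 := by
      rw [rG'_eval hx]
      exact rp_self_ne x
    rw [Lp.D_eval h (hoff x hx)]
    unfold pA pB
    simp only [eval_sub, eval_mul, eval_pow, eval_ofNat]
    rw [hFx x hx, hd]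
    have hs0 : ∀ s, γ.x s - x ≠ 0 := fun s => sub_ne_zero.2 (hoff x hx s)
    have cxb : Continuous fun s => γ.x s - x := γ.continuous_x.sub continuous_const
    have c1 : Continuous fun s => γ.ell s / (γ.x s - x) := γ.continuous_ell.div cxb hs0
    have c2 : Continuous fun s => γ.ell s / (γ.x s - x) ^ 2 :=
      γ.continuous_ell.div (cxb.pow 2) fun s => pow_ne_zero 2 (hs0 s)
    set g1 := (derivative (rG R)).eval x
    set g2 := (derivative (derivative (rG R))).eval x
    have e : ∀ s, γ.ell s * (t * (1 / (g1 * (γ.x s - x))) +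
        (t ^ 2 - 4) * (1 / (g1 ^ 2 * (γ.x s - x) ^ 2) - g2 / (g1 ^ 3 * (γ.x s - x)))) =
        (t / g1 - (t ^ 2 - 4) * g2 / g1 ^ 3) * (γ.ell s / (γ.x s - x)) +
          (t ^ 2 - 4) / g1 ^ 2 * (γ.ell s / (γ.x s - x) ^ 2) := by
      intro s
      have := hs0 s
      field_simp
      ring
    simp only [e]
    have c1' : Continuous fun s => (t / g1 - (t ^ 2 - 4) * g2 / g1 ^ 3) *
        (γ.ell s / (γ.x s - x)) := continuous_const.mul c1
    have c2' : Continuous fun s => (t ^ 2 - 4) / g1 ^ 2 * (γ.ell s / (γ.x s - x) ^ 2) :=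
      continuous_const.mul c2
    rw [intervalIntegral.integral_add (c1'.intervalIntegrable _ _)
      (c2'.intervalIntegrable _ _), intervalIntegral.integral_const_mul,
      intervalIntegral.integral_const_mul]
    unfold W W1
    field_simp
  rw [Finset.sum_congr rfl h1, ← intervalIntegral.integral_finsetSum]
  · have e2 : ∀ s, ∑ x ∈ R, γ.ell s * (t * (1 / ((derivative (rG R)).eval x * (γ.x s - x))) +
        (t ^ 2 - 4) * (1 / ((derivative (rG R)).eval x ^ 2 * (γ.x s - x) ^ 2) -
      (derivative (derivative (rG R))).eval x /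
        ((derivative (rG R)).eval x ^ 3 * (γ.x s - x)))) =
        γ.ell s * (t * F.eval (γ.x s) - 4) / (F.eval (γ.x s) - t) ^ 2 := by
      intro s
      rw [← Finset.mul_sum, Finset.sum_add_distrib, ← Finset.mul_sum, ← Finset.mul_sum,
        pfrac_one hne (hnot s), pfrac_two hne (hnot s), hF]
      have := hGne s
      rw [add_sub_cancel_right]
      field_simp
      ring
    simp only [e2]
    have hne2 : ∀ s, F.eval (γ.x s) - t ≠ 0 := by
      intro s
      rw [hF, add_sub_cancel_right]
      exact hGne s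
    have hy : ∀ s, HasDerivAt (fun s => -(γ.y s / (F.eval (γ.x s) - t)))
        (γ.ell s * (t * F.eval (γ.x s) - 4) / (F.eval (γ.x s) - t) ^ 2) s := by
      intro s
      refine ((γ.hasDerivAt_y s).fun_div ((γ.hasDerivAt_F s).sub_const t)
        (hne2 s)).fun_neg.congr_deriv ?_
      rw [γ.F'_eq]
      have h3 := γ.y_sq s
      have := hne2 s
      field_simp
      linear_combination (γ.ell s) * h3
    have cF := γ.continuous_Fx F
    have c3 : Continuous fun s =>
        γ.ell s * (t * F.eval (γ.x s) - 4) / (F.eval (γ.x s) - t) ^ 2 :=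
      (γ.continuous_ell.mul ((continuous_const.mul cF).sub continuous_const)).div
        ((cF.sub continuous_const).pow 2) fun s => pow_ne_zero 2 (hne2 s)
    rw [intervalIntegral.integral_eq_sub_of_hasDerivAt (fun s _ => hy s)
      (c3.intervalIntegrable _ _), γ.y_one, γ.x_one, sub_self]
  · intro x hx
    have hs0 : ∀ s, γ.x s - x ≠ 0 := fun s => sub_ne_zero.2 (hoff x hx s)
    have hdx : (derivative (rG R)).eval x ≠ 0 := by
      rw [rG'_eval hx]
      exact rp_self_ne x
    have cxb : Continuous fun s => γ.x s - x := γ.continuous_x.sub continuous_const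
    refine (γ.continuous_ell.mul ((continuous_const.mul (continuous_const.div
      (continuous_const.mul cxb) fun s => mul_ne_zero hdx (hs0 s))).add
      (continuous_const.mul ((continuous_const.div (continuous_const.mul (cxb.pow 2))
      fun s => mul_ne_zero (pow_ne_zero 2 hdx) (pow_ne_zero 2 (hs0 s))).sub
      (continuous_const.div (continuous_const.mul cxb) fun s =>
      mul_ne_zero (pow_ne_zero 3 hdx) (hs0 s)))))).intervalIntegrable _ _

end Lp

end Pool.Agent.E8helper67.PS
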