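import Pool.Agent.E8helper67.PS.Ray
import Pool.Agent.E8helper67.PS.Trace
import Pool.Agent.E8helper67.PS.ClassC
import Pool.Agent.E8helper67.PS.RDef
set_option autoImplicit false

/-!
If the regulator function is locally constant along the real fibres, then the coefficients vanish.
-/

namespace Pool.Agent.E8helper67.PS

open Polynomial MeasureTheory Set Filter Topology

/-- the local inverse of a polynomial at a noncritical point -/
theorem exists_inv (F : ℂ[X]) {x₀ : ℂ} (h : F.derivative.eval x₀ ≠ 0) :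
    ∃ ψ : ℂ → ℂ, ψ (F.eval x₀) = x₀ ∧ HasDerivAt ψ (F.derivative.eval x₀)⁻¹ (F.eval x₀) ∧
      ∀ᶠ t in 𝓝 (F.eval x₀), F.eval (ψ t) = t := by
  have h1 : HasStrictDerivAt (fun x => F.eval x) (F.derivative.eval x₀) x₀ :=
    F.hasStrictDerivAt x₀
  refine ⟨h1.localInverse _ _ _ h, ?_, (h1.to_localInverse h).hasDerivAt, ?_⟩
  · exact (h1.hasStrictFDerivAt_equiv h).localInverse_apply_image
  · exact (h1.hasStrictFDerivAt_equiv h).eventually_right_inverse

/-- A fibre of `F` with simple roots. -/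
theorem exists_fib {F : ℂ[X]} (hF : F.Monic) (hn : 0 < F.natDegree) {t : ℂ}
    (h : ∀ x, F.eval x = t → F.derivative.eval x ≠ 0) :
    ∃ R : Finset ℂ, F - C t = rG R ∧ R.Nonempty := by
  classical
  have hm : (F - C t).Monic := by
    refine hF.sub_of_left (lt_of_le_of_lt degree_C_le ?_)
    rw [degree_eq_natDegree hF.ne_zero]
    exact_mod_cast hn
  have hsq : (F - C t).roots.Nodup := by
    rw [Multiset.nodup_iff_count_le_one]
    intro x
    rw [count_roots]
    by_contra hcon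
    push Not at hcon
    obtain ⟨hx, hx'⟩ := (one_lt_rootMultiplicity_iff_isRoot hm.ne_zero).1 hcon
    rw [IsRoot.def, eval_sub, eval_C, sub_eq_zero] at hx
    rw [derivative_sub, derivative_C, sub_zero] at hx'
    exact h x hx hx'
  refine ⟨(F - C t).roots.toFinset, ?_, ?_⟩
  · have h1 := (IsAlgClosed.splits (F - C t)).eq_prod_roots_of_monic hm
    have h2 : (F - C t).roots.toFinset.val = (F - C t).roots := by
      rw [Multiset.toFinset_val, Multiset.dedup_eq_self.2 hsq]
    unfold rG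
    rw [Finset.prod_eq_multiset_prod, h2]
    exact h1
  · have h1 : 0 < (F - C t).roots.card := by
      rw [← (IsAlgClosed.splits (F - C t)).natDegree_eq_card_roots, natDegree_sub_C]
      exact hn
    obtain ⟨x, hx⟩ := Multiset.card_pos_iff_exists_mem.1 h1
    exact ⟨x, Multiset.mem_toFinset.2 hx⟩

theorem realFactor_of {F : ℂ[X]} {G : ℝ[X]} {H : ℂ[X]} (hG : 2 ≤ G.natDegree)
    (hn : 0 < F.natDegree)
    (hFGH : F = (G.map Complex.ofRealHom).comp H) {Z : Set ℝ} (hZ : Z.Finite)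
    (h : ∀ t ∈ Ioo (-2 : ℝ) 2, t ∉ Z → ∀ x, F.eval x = t → (H.eval x).im = 0) :
    RealFactor F := by
  refine ⟨G, H, hG, hFGH, fun t ht y hy => ?_⟩
  by_contra him
  set G' := G.map Complex.ofRealHom with hG'
  have hGd : G'.natDegree = G.natDegree := natDegree_map_eq_of_injective Complex.ofRealHom.injective G
  have han : AnalyticAt ℂ (fun z => G'.eval z) y := by
    have := AnalyticAt.aeval_polynomial (𝕜 := ℂ) (analyticAt_id (z := y)) G'
    simpa using this
  have hnc : ¬ ∀ᶠ z in 𝓝 y, G'.eval z = G'.eval y := by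
    intro hc
    have hinf : {z | G'.eval z = G'.eval y}.Infinite := infinite_of_mem_nhds y hc
    have hne : G' - C (G'.eval y) ≠ 0 := by
      intro h0
      have h1 : (G' - C (G'.eval y)).natDegree = 0 := by rw [h0, natDegree_zero]
      rw [natDegree_sub_C, hGd] at h1
      omega
    refine hinf (((G' - C (G'.eval y)).roots.toFinset.finite_toSet).subset fun z hz => ?_)
    simp only [Finset.mem_coe, Multiset.mem_toFinset, mem_roots hne, IsRoot.def, eval_sub, eval_C]
    exact sub_eq_zero.2 hz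
  have hopen := han.eventually_constant_or_nhds_le_map_nhds.resolve_left hnc
  have hU : {z : ℂ | z.im ≠ 0} ∈ 𝓝 y :=
    (isOpen_ne.preimage Complex.continuous_im).mem_nhds him
  have h1 : (fun z => G'.eval z) '' {z : ℂ | z.im ≠ 0} ∈ 𝓝 ((t : ℂ)) := by
    have h2 := hopen (image_mem_map hU)
    rwa [hy] at h2
  have h2 : ∀ᶠ s : ℝ in 𝓝 t, (s : ℂ) ∈ (fun z => G'.eval z) '' {z : ℂ | z.im ≠ 0} :=
    Complex.continuous_ofReal.continuousAt.eventually h1
  have h3 : t ∈ closure (Ioo (-2 : ℝ) 2 ∩ Zᶜ) := by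
    have hd : Dense Zᶜ := hZ.countable.dense_compl ℝ
    have h4 := hd.open_subset_closure_inter (isOpen_Ioo (a := (-2 : ℝ)) (b := 2))
    have h5 := closure_minimal h4 isClosed_closure
    rw [closure_Ioo (by norm_num)] at h5
    exact h5 (abs_le.1 ht)
  obtain ⟨s, ⟨z, hz, hzs⟩, hs, hsZ⟩ := mem_closure_iff_nhds.1 h3 _ h2
  have hHd : 0 < H.natDegree := by
    rw [hFGH, natDegree_comp] at hn
    exact Nat.pos_of_mul_pos_left hn
  obtain ⟨x, hx⟩ := IsAlgClosed.exists_root (H - C z) (by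
    rw [degree_sub_C (natDegree_pos_iff_degree_pos.1 hHd)]
    exact (natDegree_pos_iff_degree_pos.1 hHd).ne')
  rw [IsRoot.def, eval_sub, eval_C, sub_eq_zero] at hx
  refine hz ?_
  rw [← hx]
  refine h s hs hsZ x ?_
  rw [hFGH, eval_comp, hx]
  exact hzs

namespace Star

variable {F : ℂ[X]} {m : ℕ} (st : Star F m)

/-- good real numbers -/
def Good (t : ℝ) : Prop :=
  t ∈ Ioo (-2 : ℝ) 2 ∧ ∀ x, F.eval x = t → F.derivative.eval x ≠ 0 ∧ ∀ i, st.OffArm i x

theorem bad_finite (hF : F.Monic) (hn : 0 < F.natDegree) :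
    {t : ℝ | t ∈ Ioo (-2 : ℝ) 2 ∧ ¬ st.Good t}.Finite := by
  classical
  have hd : derivative F ≠ 0 := by
    intro h
    have := derivative_eq_zero.1 h
    omega
  -- the polynomials along the arms
  let P : Fin (m + 2) → ℂ[X] := fun i => F.comp (C st.a + C (st.e i - st.a) * Polynomial.X)
  have hP : ∀ i, P i - (P i).map cj ≠ 0 := by
    intro i h0
    have h1 : (C st.a + C (st.e i - st.a) * Polynomial.X : ℂ[X]).natDegree = 1 := by
      rw [natDegree_C_add, natDegree_C_mul_X _ (st.hne i)]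
    have h2 : (P i).natDegree = F.natDegree := by
      show (F.comp _).natDegree = _
      rw [natDegree_comp, h1, mul_one]
    have h3 : (P i).coeff F.natDegree = (st.e i - st.a) ^ F.natDegree := by
      have h4 : (P i).leadingCoeff = (st.e i - st.a) ^ F.natDegree := by
        show (F.comp _).leadingCoeff = _
        rw [leadingCoeff_comp (by rw [h1]; exact one_ne_zero), hF.leadingCoeff, one_mul]
        congr 1
        rw [leadingCoeff_add_of_degree_lt, leadingCoeff_mul, leadingCoeff_C, leadingCoeff_X,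
          mul_one]
        rw [degree_C_mul_X (st.hne i)]
        exact lt_of_le_of_lt degree_C_le (by norm_num)
      rw [← h4, leadingCoeff, h2]
    have h5 := congrArg (fun p => p.coeff F.natDegree) h0
    simp only [coeff_sub, coeff_map, h3, coeff_zero] at h5
    exact st.hlin i (Complex.conj_eq_iff_im.1 (sub_eq_zero.1 h5).symm)
  have h1 : ((fun z : ℂ => (F.eval z).re) '' {z | F.derivative.eval z = 0}).Finite := by
    refine Set.Finite.image _ (((derivative F).roots.toFinset.finite_toSet).subset fun z hz => ?_)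
    simp only [Finset.mem_coe, Multiset.mem_toFinset, mem_roots hd]
    exact hz
  have h2 : ∀ i, ((fun z : ℂ => ((P i).eval z).re) '' {z | (P i - (P i).map cj).eval z = 0}).Finite := by
    intro i
    refine Set.Finite.image _ (((P i - (P i).map cj).roots.toFinset.finite_toSet).subset
      fun z hz => ?_)
    simp only [Finset.mem_coe, Multiset.mem_toFinset, mem_roots (hP i)]
    exact hz
  refine (h1.union (Set.finite_iUnion h2)).subset ?_
  rintro t ⟨ht, hbad⟩
  unfold Good at hbad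
  push Not at hbad
  obtain ⟨x, hx, hx'⟩ := hbad ht
  by_cases hc : F.derivative.eval x = 0
  · left
    exact ⟨x, hc, by simp only [hx, Complex.ofReal_re]⟩
  · right
    obtain ⟨i, hi⟩ := hx' hc
    unfold OffArm at hi
    push Not at hi
    obtain ⟨w, -, hw⟩ := hi
    have e1 : (P i).eval ((1 - w ^ 2 : ℝ) : ℂ) = t := by
      show (F.comp _).eval _ = _
      rw [eval_comp, eval_add, eval_mul, eval_C, eval_C, eval_X, ← hx, ← hw]
      congr 1
      unfold X
      push_cast
      ring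
    refine mem_iUnion.2 ⟨i, ((1 - w ^ 2 : ℝ) : ℂ), ?_, ?_⟩
    · show (P i - (P i).map cj).eval _ = 0
      rw [eval_sub, eval_map_cj', Complex.conj_ofReal, e1, Complex.conj_ofReal, sub_self]
    · simp only [e1, Complex.ofReal_re]

theorem good_open (hF : F.Monic) (hn : 0 < F.natDegree) : IsOpen {t : ℝ | st.Good t} := by
  have h1 : {t : ℝ | st.Good t} = Ioo (-2 : ℝ) 2 \ {t : ℝ | t ∈ Ioo (-2 : ℝ) 2 ∧ ¬ st.Good t} := by
    ext t
    simp only [mem_ofPred_eq, Set.mem_sdiff, not_and, not_not]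
    exact ⟨fun h => ⟨h.1, fun _ => h⟩, fun h => h.2 h.1⟩
  rw [h1]
  exact isOpen_Ioo.sdiff (st.bad_finite hF hn).isClosed

theorem good_infinite (hF : F.Monic) (hn : 0 < F.natDegree) : {t : ℝ | st.Good t}.Infinite := by
  have h1 : {t : ℝ | st.Good t} = Ioo (-2 : ℝ) 2 \ {t : ℝ | t ∈ Ioo (-2 : ℝ) 2 ∧ ¬ st.Good t} := by
    ext t
    simp only [mem_ofPred_eq, Set.mem_sdiff, not_and, not_not]
    exact ⟨fun h => ⟨h.1, fun _ => h⟩, fun h => h.2 h.1⟩
  rw [h1]
  exact (Ioo_infinite (by norm_num)).sdiff (st.bad_finite hF hn)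

theorem Good.off {t : ℝ} (h : st.Good t) {x : ℂ} (hx : F.eval x = t) (j : Fin m) :
    (st.g j).Off x :=
  st.loop_off ((h.2 x hx).2 _) ((h.2 x hx).2 _)

variable (c : Fin m → ℝ)

/-- the combination of the regulator functions -/
noncomputable def Phc (b : ℂ) : ℝ := ∑ j, c j * (st.g j).Phi b

/-- If the regulator is constant along the real fibre, then `W / F'` is real. -/
theorem im_zero {t₀ : ℝ} (h : st.Good t₀) {x₀ : ℂ} (hx : F.eval x₀ = t₀)
    (hc : ∀ ψ : ℂ → ℂ, ContinuousAt ψ t₀ → ψ t₀ = x₀ → (∀ᶠ t in 𝓝 (t₀ : ℂ), F.eval (ψ t) = t) →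
      ∀ᶠ t : ℝ in 𝓝 t₀, st.Phc c (ψ t) = st.Phc c x₀) :
    (st.Wc c x₀ / F.derivative.eval x₀).im = 0 := by
  have hF' := (h.2 x₀ hx).1
  obtain ⟨ψ, hψ0, hψd, hψ⟩ := exists_inv F hF'
  rw [hx] at hψ0 hψd hψ
  have hev := hc ψ hψd.continuousAt hψ0 hψ
  have hG : ∀ j, ∃ G : ℂ → ℂ, HasDerivAt G ((st.g j).W x₀) x₀ ∧
      ∀ᶠ b in 𝓝 x₀, (st.g j).Phi b = (st.g j).Phi x₀ + (G b).im := fun j =>
    (st.g j).exists_prim (h.off st hx j)
  choose G hGd hG using hG
  set Gc : ℂ → ℂ := fun b => ∑ j, (c j : ℂ) * G j b with hGc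
  have hGcd : HasDerivAt Gc (st.Wc c x₀) x₀ := by
    unfold Wc
    exact HasDerivAt.fun_sum fun j _ => (hGd j).const_mul _
  have h1 : ∀ᶠ b in 𝓝 x₀, st.Phc c b = st.Phc c x₀ + (Gc b).im := by
    filter_upwards [eventually_all.2 hG] with b hb
    unfold Phc
    simp only [hGc]
    rw [Complex.im_sum, ← Finset.sum_add_distrib]
    refine Finset.sum_congr rfl fun j _ => ?_
    rw [hb j, Complex.im_ofReal_mul]
    ring
  have hψc : Tendsto (fun t : ℝ => ψ t) (𝓝 t₀) (𝓝 x₀) := by
    have h2 : Tendsto ψ (𝓝 (t₀ : ℂ)) (𝓝 x₀) := by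
      have := hψd.continuousAt.tendsto
      rwa [hψ0] at this
    exact h2.comp (Complex.continuous_ofReal.tendsto t₀)
  have h2 : ∀ᶠ t : ℝ in 𝓝 t₀, (Gc (ψ t)).im = 0 := by
    filter_upwards [hψc.eventually h1, hev] with t ht ht'
    rw [ht'] at ht
    linarith
  have h3 : HasDerivAt (fun t : ℝ => Gc (ψ t)) (st.Wc c x₀ * (F.derivative.eval x₀)⁻¹) t₀ := by
    have h4 : HasDerivAt Gc (st.Wc c x₀) (ψ t₀) := by rw [hψ0]; exact hGcd
    exact (h4.comp (t₀ : ℂ) hψd).comp_ofReal
  have h4 : HasDerivAt (fun t : ℝ => (Gc (ψ t)).im)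
      (st.Wc c x₀ * (F.derivative.eval x₀)⁻¹).im t₀ :=
    Complex.imCLM.hasFDerivAt.comp_hasDerivAt t₀ h3
  have h5 : HasDerivAt (fun t : ℝ => (Gc (ψ t)).im) 0 t₀ :=
    (hasDerivAt_const t₀ (0 : ℝ)).congr_of_eventuallyEq h2
  rw [div_eq_mul_inv]
  exact h4.unique h5

/-- The local theorem. -/
theorem local_thm (hF : F.Monic) (hn : 0 < F.natDegree)
    (him : ∀ t, st.Good t → ∀ x, F.eval x = t → (st.Wc c x / F.derivative.eval x).im = 0)
    (hR : ¬ RealFactor F) (j : Fin m) : c j = 0 := by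
  set D : ℂ[X] := ∑ j, C (c j : ℂ) * (st.g j).D with hD
  have hDe : ∀ b, (∀ j, (st.g j).Off b) →
      D.eval b = (pA F).eval b * st.Wc c b + (pB F).eval b * st.W1c c b := by
    intro b hb
    rw [hD, eval_finsetSum]
    unfold Wc W1c
    rw [Finset.mul_sum, Finset.mul_sum, ← Finset.sum_add_distrib]
    refine Finset.sum_congr rfl fun j _ => ?_
    rw [eval_mul, eval_C, Lp.D_eval (st.g_nc j) (hb j)]
    ring
  have hfib : ∀ t : ℝ, ∃ R : Finset ℂ, st.Good t → F - C (t : ℂ) = rG R ∧ R.Nonempty := by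
    intro t
    by_cases ht : st.Good t
    · obtain ⟨R, hR, hR'⟩ := exists_fib hF hn fun x hx => (ht.2 x hx).1
      exact ⟨R, fun _ => ⟨hR, hR'⟩⟩
    · exact ⟨∅, fun h => absurd h ht⟩
  choose R hR1 using hfib
  have hFx : ∀ t, st.Good t → ∀ x ∈ R t, F.eval x = t := by
    intro t ht x hx
    have h1 := congrArg (Polynomial.eval x) (hR1 t ht).1
    rw [eval_sub, eval_C, rG_eval, Finset.prod_eq_zero hx (sub_self x)] at h1
    exact sub_eq_zero.1 h1
  have hsum : ∀ t ∈ {t | st.Good t}, ∑ x ∈ R t, rho F D x = 0 := by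
    intro t ht
    have h1 : ∀ x ∈ R t, rho F D x =
        ∑ j, (c j : ℂ) * ((st.g j).D.eval x / (derivative F).eval x ^ 3) := by
      intro x _
      unfold rho
      rw [hD, eval_finsetSum, Finset.sum_div]
      refine Finset.sum_congr rfl fun j _ => ?_
      rw [eval_mul, eval_C, mul_div_assoc]
    rw [Finset.sum_congr rfl h1, Finset.sum_comm]
    refine Finset.sum_eq_zero fun j _ => ?_
    rw [← Finset.mul_sum, (st.g j).trace (hR1 t ht).1 (hR1 t ht).2
      (fun x hx => Good.off st ht (hFx t ht x hx) j) (st.g_nc j), mul_zero]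
  have hreal : ∀ t ∈ {t | st.Good t}, ∀ x ∈ R t, cj (rho F D x) = rho F D x := by
    intro t₀ ht x₀ hxR
    have hx := hFx t₀ ht x₀ hxR
    have hF' := (ht.2 x₀ hx).1
    obtain ⟨ψ, hψ0, hψd, hψ⟩ := exists_inv F hF'
    rw [hx] at hψ0 hψd hψ
    have hoff : ∀ j, (st.g j).Off x₀ := fun j => Good.off st ht hx j
    have hQ : HasDerivAt (fun x => st.Wc c x / F.derivative.eval x)
        ((st.W1c c x₀ * F.derivative.eval x₀ - st.Wc c x₀ * F.derivative.derivative.eval x₀) /
          F.derivative.eval x₀ ^ 2) x₀ :=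
      (st.hasDerivAt_Wc c hoff).fun_div (F.derivative.hasDerivAt x₀) hF'
    set Q' := (st.W1c c x₀ * F.derivative.eval x₀ -
      st.Wc c x₀ * F.derivative.derivative.eval x₀) / F.derivative.eval x₀ ^ 2 with hQ'
    have h3 : HasDerivAt (fun t : ℝ => st.Wc c (ψ t) / F.derivative.eval (ψ t))
        (Q' * (F.derivative.eval x₀)⁻¹) t₀ := by
      have h4 : HasDerivAt (fun x => st.Wc c x / F.derivative.eval x) Q' (ψ t₀) := by
        rw [hψ0]; exact hQ
      exact (h4.comp (t₀ : ℂ) hψd).comp_ofReal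
    have h4 : HasDerivAt (fun t : ℝ => (st.Wc c (ψ t) / F.derivative.eval (ψ t)).im)
        (Q' * (F.derivative.eval x₀)⁻¹).im t₀ :=
      Complex.imCLM.hasFDerivAt.comp_hasDerivAt t₀ h3
    have h5 : ∀ᶠ t : ℝ in 𝓝 t₀, (st.Wc c (ψ t) / F.derivative.eval (ψ t)).im = 0 := by
      filter_upwards [(st.good_open hF hn).mem_nhds ht,
        (Complex.continuous_ofReal.tendsto t₀).eventually hψ] with t ht' ht''
      exact him t ht' _ ht''
    have h6 : (Q' * (F.derivative.eval x₀)⁻¹).im = 0 :=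
      h4.unique ((hasDerivAt_const t₀ (0 : ℝ)).congr_of_eventuallyEq h5)
    have h7 := him t₀ ht x₀ hx
    rw [Complex.conj_eq_iff_im]
    have e1 : rho F D x₀ = (t₀ : ℂ) * (st.Wc c x₀ / F.derivative.eval x₀) +
        ((t₀ ^ 2 - 4 : ℝ) : ℂ) * (Q' * (F.derivative.eval x₀)⁻¹) := by
      unfold rho
      rw [hDe x₀ hoff, hQ']
      unfold pA pB
      simp only [eval_sub, eval_mul, eval_pow, eval_ofNat]
      rw [hx]
      push_cast
      field_simp
      ring
    rw [e1, Complex.add_im, Complex.im_ofReal_mul, Complex.im_ofReal_mul, h6, h7]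
    ring
  rcases class_lemma hF hn {t | st.Good t} (st.good_infinite hF hn) R
    (fun t ht => (hR1 t ht).1) hreal hsum with h0 | ⟨G, H, hG, hFGH, Z, hZ, hZ'⟩
  · refine st.c_zero (c := c) (fun b hb => ?_) hF hn j
    rw [← hDe b hb, h0, eval_zero]
  · exfalso
    refine hR (realFactor_of hG hn hFGH (hZ.union (st.bad_finite hF hn)) ?_)
    intro t ht htZ x hx
    refine hZ' t ?_ (fun h => htZ (Or.inl h)) x hx
    by_contra hg
    exact htZ (Or.inr ⟨ht, hg⟩)

end Star

end Pool.Agent.E8helper67.PS
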