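import Pool.Agent.E8helper67.PS.Param
import Pool.Agent.TH826.UH.Tor
set_option autoImplicit false

/-!
Closed curves in the complex curve `z + 1/z = F(x)` and the regulator function.
-/

namespace Pool.Agent.E8helper67.PS

open Polynomial MeasureTheory Set Filter Topology

open Pool.Agent.TH826.UH (pr NZ)

theorem hasDerivAt_log_norm {f : ℝ → ℂ} {f' : ℂ} {t : ℝ} (hf : HasDerivAt f f' t)
    (h0 : f t ≠ 0) : HasDerivAt (fun t => Real.log ‖f t‖) (f' / f t).re t := by
  have h1 : HasDerivAt (fun s => Complex.log (f s / f t)) (f' / f t) t := by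
    have h2 := (hf.div_const (f t)).clog_real (by
      rw [div_self h0]
      exact Complex.one_mem_slitPlane)
    rw [div_self h0, div_one] at h2
    exact h2
  have h2 : HasDerivAt (fun s => (Complex.log (f s / f t)).re) (f' / f t).re t :=
    Complex.reCLM.hasFDerivAt.comp_hasDerivAt t h1
  refine (h2.const_add (Real.log ‖f t‖)).congr_of_eventuallyEq ?_
  filter_upwards [hf.continuousAt.eventually_ne h0] with s hs
  rw [Complex.log_re, norm_div, Real.log_div (norm_ne_zero_iff.2 hs) (norm_ne_zero_iff.2 h0)]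
  ring

/-- A closed curve `(x, z)` of class `C²` in the complex curve `z² - F(x) z + 1 = 0`. -/
structure Lp (F : ℂ[X]) where
  x : ℝ → ℂ
  z : ℝ → ℂ
  hx : ContDiff ℝ 2 x
  hz : ContDiff ℝ 2 z
  px : ∀ t, x (t + 1) = x t
  pz : ∀ t, z (t + 1) = z t
  eq : ∀ t, z t ^ 2 - F.eval (x t) * z t + 1 = 0

namespace Lp

variable {F : ℂ[X]} (γ : Lp F)

theorem z_ne (t : ℝ) : γ.z t ≠ 0 := by
  intro h
  have := γ.eq t
  rw [h] at this
  simp at this

theorem nz : NZ γ.z := ⟨γ.hz, γ.z_ne⟩

theorem F_eq (t : ℝ) : F.eval (γ.x t) = γ.z t + (γ.z t)⁻¹ := by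
  have h1 := γ.eq t
  have h2 := γ.z_ne t
  field_simp
  linear_combination -h1

/-- the logarithmic derivative of `z` -/
noncomputable def ell (t : ℝ) : ℂ := deriv γ.z t / γ.z t

/-- `y = z - 1/z` -/
noncomputable def y (t : ℝ) : ℂ := γ.z t - (γ.z t)⁻¹

theorem y_sq (t : ℝ) : γ.y t ^ 2 = F.eval (γ.x t) ^ 2 - 4 := by
  have h2 := γ.z_ne t
  rw [γ.F_eq]
  unfold y
  field_simp
  ring

theorem hasDerivAt_x (t : ℝ) : HasDerivAt γ.x (deriv γ.x t) t :=
  (γ.hx.differentiable (by norm_num) t).hasDerivAt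

theorem hasDerivAt_z (t : ℝ) : HasDerivAt γ.z (deriv γ.z t) t :=
  (γ.hz.differentiable (by norm_num) t).hasDerivAt

theorem deriv_z (t : ℝ) : deriv γ.z t = γ.ell t * γ.z t := by
  unfold ell
  rw [div_mul_cancel₀ _ (γ.z_ne t)]

theorem hasDerivAt_F (t : ℝ) :
    HasDerivAt (fun t => F.eval (γ.x t)) (F.derivative.eval (γ.x t) * deriv γ.x t) t :=
  (F.hasDerivAt (γ.x t)).comp t (γ.hasDerivAt_x t)

theorem hasDerivAt_inv (t : ℝ) : HasDerivAt (fun t => (γ.z t)⁻¹) (-(γ.ell t * (γ.z t)⁻¹)) t := by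
  refine ((γ.hasDerivAt_z t).fun_inv (γ.z_ne t)).congr_deriv ?_
  rw [γ.deriv_z]
  have := γ.z_ne t
  field_simp

theorem F'_eq (t : ℝ) : F.derivative.eval (γ.x t) * deriv γ.x t = γ.ell t * γ.y t := by
  have h1 := (γ.hasDerivAt_z t).add (γ.hasDerivAt_inv t)
  have h2 : (γ.z + fun t => (γ.z t)⁻¹) = fun t => F.eval (γ.x t) := by
    funext t
    exact (γ.F_eq t).symm
  rw [h2] at h1
  have h3 := (γ.hasDerivAt_F t).unique h1
  rw [h3, γ.deriv_z]
  unfold y
  ring

theorem hasDerivAt_y (t : ℝ) : HasDerivAt γ.y (γ.ell t * F.eval (γ.x t)) t := by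
  have h1 := (γ.hasDerivAt_z t).sub (γ.hasDerivAt_inv t)
  refine h1.congr_deriv ?_
  rw [γ.F_eq, γ.deriv_z]
  ring

theorem continuous_x : Continuous γ.x := γ.hx.continuous

theorem continuous_z : Continuous γ.z := γ.hz.continuous

theorem continuous_dx : Continuous (deriv γ.x) := γ.hx.continuous_deriv (by norm_num)

theorem continuous_ell : Continuous γ.ell :=
  (γ.hz.continuous_deriv (by norm_num)).div γ.continuous_z γ.z_ne

theorem continuous_y : Continuous γ.y :=
  γ.continuous_z.sub (γ.continuous_z.inv₀ γ.z_ne)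

theorem continuous_Fx (P : ℂ[X]) : Continuous fun t => P.eval (γ.x t) :=
  P.continuous.comp γ.continuous_x

theorem x_one : γ.x 1 = γ.x 0 := by
  have := γ.px 0
  rwa [zero_add] at this

theorem z_one : γ.z 1 = γ.z 0 := by
  have := γ.pz 0
  rwa [zero_add] at this

theorem y_one : γ.y 1 = γ.y 0 := by
  unfold y
  rw [γ.z_one]

/-- the point `b` does not lie on the curve -/
def Off (b : ℂ) : Prop := ∀ t, γ.x t ≠ b

/-- The integral of `dz / (z (x - b))`. -/
noncomputable def W (b : ℂ) : ℂ := ∫ t in (0 : ℝ)..1, γ.ell t / (γ.x t - b)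

/-- The derivative of `W`. -/
noncomputable def W1 (b : ℂ) : ℂ := ∫ t in (0 : ℝ)..1, γ.ell t / (γ.x t - b) ^ 2

theorem hasDerivAt_W {b : ℂ} (hb : γ.Off b) : HasDerivAt γ.W (γ.W1 b) b :=
  hasDerivAt_cauchy γ.continuous_ell.continuousOn γ.continuous_x.continuousOn fun t _ => hb t

/-- The regulator of `{z, x - b}`. -/
noncomputable def Phi (b : ℂ) : ℝ := pr γ.z fun t => γ.x t - b

theorem exists_ball {b : ℂ} (hb : γ.Off b) :
    ∃ r > 0, ∀ c ∈ Metric.closedBall b r, ∀ t, ‖c - b‖ < ‖γ.x t - b‖ ∧ γ.x t ≠ c := by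
  obtain ⟨r, hr, h⟩ := exists_ball_ne γ.continuous_x.continuousOn fun t _ => hb t
  refine ⟨r, hr, fun c hc t => ?_⟩
  have h1 : γ.x (Int.fract t) = γ.x t := by
    have h2 : Function.Periodic γ.x 1 := γ.px
    have h3 := h2.sub_int_mul_eq (x := t) ⌊t⌋
    rw [mul_one] at h3
    exact h3
  rw [← h1]
  exact h c hc _ ⟨Int.fract_nonneg t, (Int.fract_lt_one t).le⟩

theorem isOpen_off {b : ℂ} (hb : γ.Off b) : ∀ᶠ c in 𝓝 b, γ.Off c := by
  obtain ⟨r, hr, h⟩ := γ.exists_ball hb
  filter_upwards [Metric.closedBall_mem_nhds b hr] with c hc t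
  exact (h c hc t).2

/-- `Φ` is locally the imaginary part of a primitive of `W`. -/
theorem exists_prim {b₀ : ℂ} (hb : γ.Off b₀) :
    ∃ G : ℂ → ℂ, HasDerivAt G (γ.W b₀) b₀ ∧ ∀ᶠ b in 𝓝 b₀, γ.Phi b = γ.Phi b₀ + (G b).im := by
  obtain ⟨r, hr, h⟩ := γ.exists_ball hb
  have hslit : ∀ c ∈ Metric.closedBall b₀ r, ∀ t,
      (γ.x t - c) / (γ.x t - b₀) ∈ Complex.slitPlane := by
    intro c hc t
    have h1 := (h c hc t).1
    have h0 : γ.x t - b₀ ≠ 0 := sub_ne_zero.2 (hb t)
    have e : (γ.x t - c) / (γ.x t - b₀) = 1 + -((c - b₀) / (γ.x t - b₀)) := by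
      field_simp
      ring
    rw [e]
    refine Complex.mem_slitPlane_of_norm_lt_one ?_
    rw [norm_neg, norm_div, div_lt_one (norm_pos_iff.2 h0)]
    exact h1
  set G : ℂ → ℂ := fun c => ∫ t in (0 : ℝ)..1,
    -(γ.ell t * Complex.log ((γ.x t - c) / (γ.x t - b₀))) with hG
  refine ⟨G, ?_, ?_⟩
  · have h1 := param_deriv (b := b₀) (r := r)
      (g := fun c t => -(γ.ell t * Complex.log ((γ.x t - c) / (γ.x t - b₀))))
      (g' := fun c t => γ.ell t / (γ.x t - c)) hr ?_ ?_ ?_
    · exact h1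
    · intro c hc
      refine (γ.continuous_ell.continuousOn.mul ?_).neg
      refine ContinuousOn.clog ?_ fun t _ => hslit c hc t
      exact (γ.continuous_x.continuousOn.sub continuousOn_const).div
        (γ.continuous_x.continuousOn.sub continuousOn_const) fun t _ => sub_ne_zero.2 (hb t)
    · refine ContinuousOn.div (γ.continuous_ell.comp continuous_snd).continuousOn
        ((γ.continuous_x.comp continuous_snd).sub continuous_fst).continuousOn ?_
      rintro ⟨c, t⟩ ⟨hc, ht⟩
      exact sub_ne_zero.2 (h c hc t).2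
    · intro c hc t ht
      have h0 : γ.x t - b₀ ≠ 0 := sub_ne_zero.2 (hb t)
      have h1 : γ.x t - c ≠ 0 := sub_ne_zero.2 (h c hc t).2
      have h2 : HasDerivAt (fun c => (γ.x t - c) / (γ.x t - b₀)) (-1 / (γ.x t - b₀)) c := by
        have := ((hasDerivAt_id c).const_sub (γ.x t)).div_const (γ.x t - b₀)
        simpa using this
      have h3 := ((h2.clog (hslit c hc t)).const_mul (γ.ell t)).neg
      refine h3.congr_deriv ?_
      field_simp
  · filter_upwards [Metric.closedBall_mem_nhds b₀ hr] with c hc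
    have hoff : γ.Off c := fun t => (h c hc t).2
    set Lg : ℝ → ℂ := fun t => Complex.log ((γ.x t - c) / (γ.x t - b₀)) with hLg
    have hLc : Continuous Lg := by
      refine Continuous.clog ?_ fun t => hslit c hc t
      exact (γ.continuous_x.sub continuous_const).div
        (γ.continuous_x.sub continuous_const) fun t => sub_ne_zero.2 (hb t)
    have hLd : ∀ t, HasDerivAt Lg (deriv γ.x t / (γ.x t - c) - deriv γ.x t / (γ.x t - b₀)) t := by
      intro t
      have h0 : γ.x t - b₀ ≠ 0 := sub_ne_zero.2 (hb t)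
      have h1 : γ.x t - c ≠ 0 := sub_ne_zero.2 (hoff t)
      have h2 := (((γ.hasDerivAt_x t).sub_const c).fun_div ((γ.hasDerivAt_x t).sub_const b₀) h0)
      refine (h2.clog_real (hslit c hc t)).congr_deriv ?_
      field_simp
    have hld : ∀ (b : ℂ) (t : ℝ), deriv (fun t => γ.x t - b) t = deriv γ.x t := fun b t =>
      ((γ.hasDerivAt_x t).sub_const b).deriv
    have hnx : ∀ b, γ.Off b → NZ fun t => γ.x t - b := fun b hb =>
      ⟨γ.hx.sub contDiff_const, fun t => sub_ne_zero.2 (hb t)⟩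
    have hi1 := Pool.Agent.TH826.UH.cont_int γ.nz (hnx c hoff)
    have hi0 := Pool.Agent.TH826.UH.cont_int γ.nz (hnx b₀ hb)
    have hlogz : ∀ t, HasDerivAt (fun t => Real.log ‖γ.z t‖) (γ.ell t).re t := fun t =>
      hasDerivAt_log_norm (γ.hasDerivAt_z t) (γ.z_ne t)
    have hLim : ∀ t, HasDerivAt (fun t => (Lg t).im)
        (deriv γ.x t / (γ.x t - c) - deriv γ.x t / (γ.x t - b₀)).im t := fun t =>
      Complex.imCLM.hasFDerivAt.comp_hasDerivAt t (hLd t)
    have cdx := γ.continuous_dx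
    have hce : Continuous fun t => (γ.ell t).re := Complex.continuous_re.comp γ.continuous_ell
    have hcd : Continuous fun t =>
        (deriv γ.x t / (γ.x t - c) - deriv γ.x t / (γ.x t - b₀)).im := by
      refine Complex.continuous_im.comp ((cdx.div (γ.continuous_x.sub continuous_const)
        fun t => sub_ne_zero.2 (hoff t)).sub (cdx.div (γ.continuous_x.sub continuous_const)
        fun t => sub_ne_zero.2 (hb t)))
    have hLg1 : Lg 1 = Lg 0 := by
      simp only [hLg, γ.x_one]
    have hparts := intervalIntegral.integral_mul_deriv_eq_deriv_mul (a := 0) (b := 1)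
      (fun t _ => hlogz t) (fun t _ => hLim t) (hce.intervalIntegrable _ _)
      (hcd.intervalIntegrable _ _)
    rw [γ.z_one, hLg1, sub_self, zero_sub] at hparts
    have hre : ∀ t, Real.log ‖γ.x t - c‖ - Real.log ‖γ.x t - b₀‖ = (Lg t).re := by
      intro t
      have h0 : γ.x t - b₀ ≠ 0 := sub_ne_zero.2 (hb t)
      have h1 : γ.x t - c ≠ 0 := sub_ne_zero.2 (hoff t)
      simp only [hLg]
      rw [Complex.log_re, norm_div, Real.log_div (norm_ne_zero_iff.2 h1) (norm_ne_zero_iff.2 h0)]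
    have hGim : (G c).im = ∫ t in (0 : ℝ)..1, (-(γ.ell t * Lg t)).im := by
      have h1 := Complex.imCLM.intervalIntegral_comp_comm (a := 0) (b := 1) (μ := volume)
        ((γ.continuous_ell.mul hLc).neg.intervalIntegrable 0 1)
      exact h1.symm
    have hmul : Continuous fun t => Real.log ‖γ.z t‖ *
        (deriv γ.x t / (γ.x t - c) - deriv γ.x t / (γ.x t - b₀)).im := γ.nz.cont_log.mul hcd
    have hcLim : Continuous fun t => (Lg t).im := Complex.continuous_im.comp hLc
    have hcLre : Continuous fun t => (Lg t).re := Complex.continuous_re.comp hLc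
    have hcei : Continuous fun t => (γ.ell t).im := Complex.continuous_im.comp γ.continuous_ell
    rw [← sub_eq_iff_eq_add']
    unfold Phi pr
    rw [← intervalIntegral.integral_sub (hi1.intervalIntegrable _ _)
      (hi0.intervalIntegrable _ _), hGim]
    have e1 : ∀ t, (Real.log ‖γ.z t‖ * (deriv (fun t => γ.x t - c) t / (γ.x t - c)).im -
        Real.log ‖γ.x t - c‖ * (deriv γ.z t / γ.z t).im) -
        (Real.log ‖γ.z t‖ * (deriv (fun t => γ.x t - b₀) t / (γ.x t - b₀)).im -
        Real.log ‖γ.x t - b₀‖ * (deriv γ.z t / γ.z t).im) =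
        Real.log ‖γ.z t‖ * (deriv γ.x t / (γ.x t - c) - deriv γ.x t / (γ.x t - b₀)).im -
        (Lg t).re * (γ.ell t).im := by
      intro t
      rw [hld, hld, ← hre, Complex.sub_im]
      unfold ell
      ring
    simp only [e1]
    have hLR : Continuous fun t => (Lg t).re * (γ.ell t).im := hcLre.mul hcei
    have hEL : Continuous fun t => -((γ.ell t).re * (Lg t).im) := (hce.mul hcLim).neg
    rw [intervalIntegral.integral_sub (hmul.intervalIntegrable _ _)
      (hLR.intervalIntegrable _ _), hparts, ← intervalIntegral.integral_neg,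
      ← intervalIntegral.integral_sub (hEL.intervalIntegrable _ _)
      (hLR.intervalIntegrable _ _)]
    refine intervalIntegral.integral_congr fun t _ => ?_
    simp only [Complex.neg_im, Complex.mul_im]
    ring

end Lp

end Pool.Agent.E8helper67.PS
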