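import Mathlib
set_option autoImplicit false

/-!
Derivatives of integrals that depend holomorphically on a parameter.
-/

namespace Pool.Agent.E8helper67.PS

open MeasureTheory Set Filter Topology

open scoped Interval

/-- Differentiation under the integral sign. -/
theorem param_deriv {g g' : ℂ → ℝ → ℂ} {b : ℂ} {r : ℝ} (hr : 0 < r)
    (hg : ∀ c ∈ Metric.closedBall b r, ContinuousOn (g c) (Icc 0 1))
    (hg' : ContinuousOn (Function.uncurry g') (Metric.closedBall b r ×ˢ Icc (0 : ℝ) 1))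
    (hd : ∀ c ∈ Metric.closedBall b r, ∀ t ∈ Icc (0 : ℝ) 1,
      HasDerivAt (fun c => g c t) (g' c t) c) :
    HasDerivAt (fun c => ∫ t in (0 : ℝ)..1, g c t) (∫ t in (0 : ℝ)..1, g' b t) b := by
  obtain ⟨M, hM⟩ := ((isCompact_closedBall b r).prod (isCompact_Icc)).exists_bound_of_continuousOn
    hg'
  have hIoc : ∀ t : ℝ, t ∈ Ι (0 : ℝ) 1 → t ∈ Icc (0 : ℝ) 1 := by
    intro t ht
    rw [uIoc_of_le zero_le_one] at ht
    exact Ioc_subset_Icc_self ht
  have hb : b ∈ Metric.closedBall b r := Metric.mem_closedBall_self hr.le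
  have hmeas : ∀ f : ℝ → ℂ, ContinuousOn f (Icc 0 1) →
      AEStronglyMeasurable f (volume.restrict (Ι (0 : ℝ) 1)) := by
    intro f hf
    exact ((hf.mono fun t ht => hIoc t ht).aestronglyMeasurable measurableSet_uIoc)
  refine (intervalIntegral.hasDerivAt_integral_of_dominated_loc_of_deriv_le
    (bound := fun _ => M) (Metric.closedBall_mem_nhds b hr) ?_ ?_ ?_ ?_ ?_ ?_).2
  · filter_upwards [Metric.closedBall_mem_nhds b hr] with c hc
    exact hmeas _ (hg c hc)
  · exact (hg b hb).intervalIntegrable_of_Icc zero_le_one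
  · refine hmeas _ ?_
    exact hg'.comp (f := fun t => (b, t)) (by fun_prop) fun t ht => ⟨hb, ht⟩
  · exact Eventually.of_forall fun t ht c hc => hM (c, t) ⟨hc, hIoc t ht⟩
  · exact intervalIntegrable_const
  · exact Eventually.of_forall fun t ht c hc => hd c hc t (hIoc t ht)

/-- Distance from a compact image. -/
theorem exists_ball_ne {x : ℝ → ℂ} (hx : ContinuousOn x (Icc 0 1)) {b : ℂ}
    (hb : ∀ t ∈ Icc (0 : ℝ) 1, x t ≠ b) :
    ∃ r > 0, ∀ c ∈ Metric.closedBall b r, ∀ t ∈ Icc (0 : ℝ) 1, ‖c - b‖ < ‖x t - b‖ ∧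
      x t ≠ c := by
  have hc : IsCompact (x '' Icc 0 1) := isCompact_Icc.image_of_continuousOn hx
  have hb' : b ∉ x '' Icc 0 1 := by
    rintro ⟨t, ht, h⟩
    exact hb t ht h
  obtain ⟨ε, hε, h⟩ := Metric.isOpen_iff.1 hc.isClosed.isOpen_compl b hb'
  refine ⟨ε / 2, half_pos hε, fun c hc t ht => ?_⟩
  have h2 : ε ≤ ‖x t - b‖ := by
    by_contra h3
    push Not at h3
    exact h (show x t ∈ Metric.ball b ε by rwa [Metric.mem_ball, dist_eq_norm])
      ⟨t, ht, rfl⟩
  have h3 : ‖c - b‖ ≤ ε / 2 := by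
    rwa [Metric.mem_closedBall, dist_eq_norm] at hc
  refine ⟨by linarith, fun e => ?_⟩
  rw [e] at h2
  linarith

/-- The Cauchy integrals are holomorphic. -/
theorem hasDerivAt_cauchy {φ x : ℝ → ℂ} (hφ : ContinuousOn φ (Icc 0 1))
    (hx : ContinuousOn x (Icc 0 1)) {b : ℂ} (hb : ∀ t ∈ Icc (0 : ℝ) 1, x t ≠ b) :
    HasDerivAt (fun c => ∫ t in (0 : ℝ)..1, φ t / (x t - c))
      (∫ t in (0 : ℝ)..1, φ t / (x t - b) ^ 2) b := by
  obtain ⟨r, hr, h⟩ := exists_ball_ne hx hb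
  refine param_deriv (g := fun c t => φ t / (x t - c)) (g' := fun c t => φ t / (x t - c) ^ 2)
    hr ?_ ?_ ?_
  · intro c hc
    exact hφ.div (hx.sub continuousOn_const) fun t ht => sub_ne_zero.2 (h c hc t ht).2
  · have h1 : ContinuousOn (fun p : ℂ × ℝ => φ p.2) (Metric.closedBall b r ×ˢ Icc (0 : ℝ) 1) :=
      hφ.comp continuousOn_snd fun p hp => hp.2
    have h2 : ContinuousOn (fun p : ℂ × ℝ => x p.2) (Metric.closedBall b r ×ˢ Icc (0 : ℝ) 1) :=
      hx.comp continuousOn_snd fun p hp => hp.2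
    refine h1.div ((h2.sub continuousOn_fst).pow 2) ?_
    rintro ⟨c, t⟩ ⟨hc, ht⟩
    exact pow_ne_zero 2 (sub_ne_zero.2 (h c hc t ht).2)
  · intro c hc t ht
    have h1 : x t - c ≠ 0 := sub_ne_zero.2 (h c hc t ht).2
    have h2 : HasDerivAt (fun c => x t - c) (-1) c := by
      simpa using (hasDerivAt_id c).const_sub (x t)
    have h3 := (h2.inv h1).const_mul (φ t)
    refine (h3.congr_deriv ?_).congr_of_eventuallyEq ?_
    · field_simp
    · exact Eventually.of_forall fun c => by simp [div_eq_mul_inv]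

theorem continuous_cauchy {φ x : ℝ → ℂ} (hφ : ContinuousOn φ (Icc 0 1))
    (hx : ContinuousOn x (Icc 0 1)) {b : ℂ} (hb : ∀ t ∈ Icc (0 : ℝ) 1, x t ≠ b) :
    ContinuousAt (fun c => ∫ t in (0 : ℝ)..1, φ t / (x t - c)) b :=
  (hasDerivAt_cauchy hφ hx hb).continuousAt

end Pool.Agent.E8helper67.PS
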