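import Pool.Agent.E8helper67.PS.StarW
import Pool.Agent.E8helper67.PS.Asym
import Pool.Agent.E8helper67.PS.Dpol
set_option autoImplicit false

/-!
A combination of the functions `W` that satisfies the differential equation vanishes.
-/

namespace Pool.Agent.E8helper67.PS

open Polynomial MeasureTheory Set Filter Topology

namespace Star

variable {F : ℂ[X]} {m : ℕ} (st : Star F m)

/-- the closed curves -/
noncomputable def g (j : Fin m) : Lp F := st.loop 0 j.succ.succ

/-- the rays through the branch points -/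
noncomputable def ray (l : Fin (m + 2)) (s : ℝ) : ℂ := st.a + s * (st.e l - st.a)

theorem off_ray {i l : Fin (m + 2)} (h : i ≠ l) {s : ℝ} (hs : s ≠ 0) :
    st.OffArm i (st.ray l s) := by
  intro w _ he
  unfold X ray at he
  have h1 : ((1 - w ^ 2 : ℝ) : ℂ) * ((st.e i - st.a) / (st.e l - st.a)) = s := by
    have h2 := st.hne l
    field_simp
    push_cast
    linear_combination he
  have h3 := congrArg Complex.im h1
  rw [Complex.im_ofReal_mul, Complex.ofReal_im] at h3
  have h4 : 1 - w ^ 2 = 0 := (mul_eq_zero.1 h3).resolve_right (st.hpar i l h)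
  rw [h4, Complex.ofReal_zero, zero_mul] at h1
  exact hs (by exact_mod_cast h1.symm)

theorem off_ray_self {l : Fin (m + 2)} {s : ℝ} (hs : 1 < s) : st.OffArm l (st.ray l s) := by
  intro w _ he
  unfold X ray at he
  have h2 := st.hne l
  have h1 : ((1 - w ^ 2 : ℝ) : ℂ) = s := by
    apply mul_right_cancel₀ h2
    push_cast
    linear_combination he
  have h3 : 1 - w ^ 2 = s := by exact_mod_cast h1
  nlinarith [sq_nonneg w]

theorem off_ray_all (i l : Fin (m + 2)) {s : ℝ} (hs : 1 < s) : st.OffArm i (st.ray l s) := by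
  by_cases h : i = l
  · rw [h]
    exact st.off_ray_self hs
  · exact st.off_ray h (by linarith)

theorem one_ne (j : Fin m) : (j.succ.succ : Fin (m + 2)) ≠ 1 := by
  intro h
  have := congrArg Fin.val h
  simp at this

theorem g_off_ray (j : Fin m) (l : Fin (m + 2)) {s : ℝ} (hs : 1 < s) : (st.g j).Off (st.ray l s) :=
  st.loop_off (st.off_ray_all _ l hs) (st.off_ray_all _ l hs)

theorem g_off_one (j : Fin m) : (st.g j).Off (st.ray 1 1) :=
  st.loop_off (st.off_ray (by simp) one_ne_zero) (st.off_ray (one_ne j) one_ne_zero)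

theorem F'_ray {l : Fin (m + 2)} {s : ℝ} (hls : l ≠ 1 ∨ s ≠ 1) :
    F.derivative.eval (st.ray l s) ≠ 0 := by
  intro h
  refine ((st.hcrit l _ h).resolve_left ?_) ?_
  · rintro ⟨rfl, h2⟩
    have h3 : ((s : ℂ) - 1) * (st.e 1 - st.a) = 0 := by
      unfold ray at h2
      linear_combination h2
    have h4 := (mul_eq_zero.1 h3).resolve_right (st.hne 1)
    have h5 : s = 1 := by exact_mod_cast sub_eq_zero.1 h4
    rcases hls with h6 | h6
    · exact h6 rfl
    · exact h6 h5
  unfold ray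
  rw [add_sub_cancel_left, mul_div_assoc, div_self (st.hne l), mul_one, Complex.ofReal_im]

theorem ray_one (l : Fin (m + 2)) : st.ray l 1 = st.e l := by
  unfold ray
  push_cast
  ring

theorem zero_ne_one' : (0 : Fin (m + 2)) ≠ 1 := by simp

theorem g_nc (j : Fin m) : (st.g j).Nc := st.loop_F' zero_ne_one' (one_ne j)

theorem eF'_ne {l : Fin (m + 2)} (hl : l ≠ 1) : F.derivative.eval (st.e l) ≠ 0 := by
  rw [← st.ray_one]
  exact st.F'_ray (Or.inl hl)

theorem ray_F (l : Fin (m + 2)) {s : ℝ} (hs : 1 < s) : F.eval (st.ray l s) ^ 2 - 4 ≠ 0 := by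
  rw [st.eq]
  refine mul_ne_zero (pow_ne_zero 2 fun h => st.F'_ray (Or.inr hs.ne') (st.hB _ h))
    (Finset.prod_ne_zero_iff.2 fun k _ h => ?_)
  have h1 := st.off_ray_all k l hs 0 (by simp)
  apply h1
  unfold X
  push_cast
  linear_combination -h

variable (c : Fin m → ℝ)

/-- the combination of the functions `W` -/
noncomputable def Wc (b : ℂ) : ℂ := ∑ j, (c j : ℂ) * (st.g j).W b

/-- the combination of the functions `W1` -/
noncomputable def W1c (b : ℂ) : ℂ := ∑ j, (c j : ℂ) * (st.g j).W1 b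

/-- the combination of the integrals of `dz / z` -/
noncomputable def Lam : ℂ := ∑ j, (c j : ℂ) * ∫ t in (0 : ℝ)..1, (st.g j).ell t

theorem hasDerivAt_Wc {b : ℂ} (hb : ∀ j, (st.g j).Off b) :
    HasDerivAt (st.Wc c) (st.W1c c b) b := by
  unfold Wc W1c
  exact HasDerivAt.fun_sum fun j _ => ((st.g j).hasDerivAt_W (hb j)).const_mul _

theorem tendsto_bWc :
    Tendsto (fun b => b * st.Wc c b) (Bornology.cobounded ℂ) (𝓝 (-st.Lam c)) := by
  have h1 : Tendsto (fun b => ∑ j, (c j : ℂ) * (b * (st.g j).W b)) (Bornology.cobounded ℂ)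
      (𝓝 (∑ j, (c j : ℂ) * -∫ t in (0 : ℝ)..1, (st.g j).ell t)) :=
    tendsto_finsetSum _ fun j _ => ((st.g j).tendsto_bW).const_mul _
  have e1 : ∑ j, (c j : ℂ) * -∫ t in (0 : ℝ)..1, (st.g j).ell t = -st.Lam c := by
    unfold Lam
    rw [← Finset.sum_neg_distrib]
    exact Finset.sum_congr rfl fun j _ => by ring
  rw [e1] at h1
  refine h1.congr fun b => ?_
  unfold Wc
  rw [Finset.mul_sum]
  exact Finset.sum_congr rfl fun j _ => by ring

/-- the first integral -/
noncomputable def fi (b : ℂ) : ℂ := (F.eval b ^ 2 - 4) * st.Wc c b ^ 2 / F.derivative.eval b ^ 2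

theorem tendsto_fi (hF : F.Monic) (hn : 0 < F.natDegree) :
    Tendsto (st.fi c) (Bornology.cobounded ℂ) (𝓝 (st.Lam c ^ 2 / (F.natDegree : ℂ) ^ 2)) := by
  obtain ⟨k, hk⟩ : ∃ k, F.natDegree = k + 1 := ⟨F.natDegree - 1, by omega⟩
  have h1 := poly_lim F (N := k + 1) hk.le
  have h2 := poly_lim (derivative F) (N := k) (by rw [natDegree_derivative, hk]; simp)
  have h3 : F.coeff (k + 1) = 1 := by rw [← hk]; exact hF.coeff_natDegree
  rw [coeff_derivative, h3, one_mul] at h2
  rw [h3] at h1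
  have h4 : ((k : ℂ) + 1) ≠ 0 := by exact_mod_cast k.succ_ne_zero
  have h5 : Tendsto (fun b : ℂ => (F.eval b / b ^ (k + 1)) ^ 2 - 4 * (b⁻¹) ^ (2 * (k + 1)))
      (Bornology.cobounded ℂ) (𝓝 (1 ^ 2 - 4 * 0 ^ (2 * (k + 1)))) :=
    (h1.pow 2).sub (((tendsto_inv₀_cobounded (α := ℂ)).pow _).const_mul _)
  have h6 := (h5.mul ((st.tendsto_bWc c).pow 2)).div (h2.pow 2) (pow_ne_zero 2 h4)
  have e1 : (1 ^ 2 - 4 * 0 ^ (2 * (k + 1))) * (-st.Lam c) ^ 2 / ((k : ℂ) + 1) ^ 2 =
      st.Lam c ^ 2 / (F.natDegree : ℂ) ^ 2 := by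
    rw [hk, zero_pow (by omega)]
    push_cast
    ring
  rw [e1] at h6
  refine h6.congr' ?_
  filter_upwards [Bornology.eventually_ne_cobounded (0 : ℂ)] with b hb
  unfold fi
  simp only [Pi.div_apply]
  have hb1 : b ^ (k + 1) ≠ 0 := pow_ne_zero _ hb
  have hb2 : b ^ k ≠ 0 := pow_ne_zero _ hb
  have e2 : (b⁻¹) ^ (2 * (k + 1)) = 1 / (b ^ k * b) ^ 2 := by
    rw [inv_pow, one_div, ← pow_succ, ← pow_mul, mul_comm]
  rw [e2, pow_succ b k]
  by_cases hd : (derivative F).eval b = 0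
  · rw [hd]
    simp
  · field_simp

theorem ray_cobounded (l : Fin (m + 2)) :
    Tendsto (st.ray l) atTop (Bornology.cobounded ℂ) := by
  rw [← tendsto_norm_atTop_iff_cobounded]
  have h1 : Tendsto (fun s : ℝ => ‖st.e l - st.a‖ * s + -‖st.a‖) atTop atTop :=
    tendsto_atTop_add_const_right _ _ (tendsto_id.const_mul_atTop (norm_pos_iff.2 (st.hne l)))
  refine tendsto_atTop_mono' _ ?_ h1
  filter_upwards [eventually_ge_atTop 0] with s hs
  have h2 := norm_sub_norm_le ((s : ℂ) * (st.e l - st.a)) (-st.a)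
  rw [norm_neg, sub_neg_eq_add, norm_mul, Complex.norm_real, Real.norm_of_nonneg hs] at h2
  unfold ray
  rw [add_comm st.a]
  linarith

theorem hasDerivAt_ray (l : Fin (m + 2)) (s : ℝ) :
    HasDerivAt (st.ray l) (st.e l - st.a) s := by
  have h1 : HasDerivAt (fun s : ℝ => (s : ℂ)) 1 s := Complex.ofRealCLM.hasDerivAt
  refine ((h1.mul_const (st.e l - st.a)).const_add st.a).congr_deriv ?_
  rw [one_mul]

variable {c} (hD : ∀ b, (∀ j, (st.g j).Off b) →
  (pA F).eval b * st.Wc c b + (pB F).eval b * st.W1c c b = 0)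

include hD

theorem hasDerivAt_fi (l : Fin (m + 2)) {s : ℝ} (hs : 1 < s) :
    HasDerivAt (fun s => st.fi c (st.ray l s)) 0 s := by
  set b := st.ray l s with hb
  have hoff : ∀ j, (st.g j).Off b := fun j => st.g_off_ray j l hs
  have h0 : F.derivative.eval b ≠ 0 := st.F'_ray (Or.inr hs.ne')
  have h1 := F.hasDerivAt b
  have h2 := (derivative F).hasDerivAt b
  have h3 := st.hasDerivAt_Wc c hoff
  have h4 := ((((h1.fun_pow 2).sub_const 4).fun_mul (h3.fun_pow 2)).fun_div (h2.fun_pow 2)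
    (pow_ne_zero 2 h0))
  have h5 := HasDerivAt.scomp s h4 (st.hasDerivAt_ray l s)
  refine HasDerivAt.congr_deriv (f := fun s => st.fi c (st.ray l s)) h5 ?_
  have h6 := hD b hoff
  unfold pA pB at h6
  simp only [eval_sub, eval_mul, eval_pow, eval_ofNat] at h6
  rw [smul_eq_mul, mul_eq_zero]
  right
  rw [div_eq_zero_iff]
  left
  simp only [Nat.cast_ofNat, Nat.add_one_sub_one, pow_one]
  linear_combination (2 * F.derivative.eval b * st.Wc c b) * h6

theorem fi_const (hF : F.Monic) (hn : 0 < F.natDegree) (l : Fin (m + 2)) {s : ℝ} (hs : 1 < s) :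
    st.fi c (st.ray l s) = st.Lam c ^ 2 / (F.natDegree : ℂ) ^ 2 := by
  have h1 : ∀ s', 1 < s' → st.fi c (st.ray l s') = st.fi c (st.ray l s) := by
    intro s' hs'
    refine isOpen_Ioi.is_const_of_deriv_eq_zero (f := fun s => st.fi c (st.ray l s))
      isPreconnected_Ioi ?_ ?_ hs' hs
    · intro u hu
      exact (st.hasDerivAt_fi hD l hu).differentiableAt.differentiableWithinAt
    · intro u hu
      exact (st.hasDerivAt_fi hD l hu).deriv
  have h2 := (st.tendsto_fi c hF hn).comp (st.ray_cobounded l)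
  refine tendsto_nhds_unique (tendsto_const_nhds.congr' ?_) h2
  filter_upwards [eventually_gt_atTop 1] with s' hs'
  exact (h1 s' hs').symm

theorem Lam_zero (hF : F.Monic) (hn : 0 < F.natDegree) :
    st.Lam c ^ 2 / (F.natDegree : ℂ) ^ 2 = 0 := by
  have hoff : ∀ j, (st.g j).Off (st.ray 1 1) := fun j => st.g_off_one j
  have h2 : Tendsto (st.ray 1) (𝓝[>] 1) (𝓝 (st.ray 1 1)) :=
    ((st.hasDerivAt_ray 1 1).continuousAt).tendsto.mono_left nhdsWithin_le_nhds
  rcases st.hbad with hgood | ⟨R, S, hR, hS, hR0, hS0⟩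
  · have h0 : F.derivative.eval (st.ray 1 1) ≠ 0 := by rw [st.ray_one]; exact hgood
    have hc : ContinuousAt (st.fi c) (st.ray 1 1) := by
      unfold fi
      refine ContinuousAt.div ?_ ((derivative F).continuous.continuousAt.pow 2)
        (pow_ne_zero 2 h0)
      exact ((F.continuous.continuousAt.pow 2).sub continuousAt_const).mul
        ((st.hasDerivAt_Wc c hoff).continuousAt.pow 2)
    have h1 : Tendsto (fun s => st.fi c (st.ray 1 s)) (𝓝[>] 1) (𝓝 (st.fi c (st.ray 1 1))) :=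
      hc.tendsto.comp h2
    have h3 : st.fi c (st.ray 1 1) = 0 := by
      have h4 : F.eval (st.ray 1 1) ^ 2 - 4 = 0 := by
        rw [st.eq]
        refine mul_eq_zero_of_right _ (Finset.prod_eq_zero (Finset.mem_univ 1) ?_)
        rw [st.ray_one, sub_self]
      unfold fi
      rw [h4, zero_mul, zero_div]
    rw [h3] at h1
    refine tendsto_nhds_unique (tendsto_const_nhds.congr' ?_) h1
    filter_upwards [self_mem_nhdsWithin] with s hs
    exact (st.fi_const hD hF hn 1 hs).symm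
  · -- the bad case
    set κ : ℂ := st.Lam c ^ 2 / (F.natDegree : ℂ) ^ 2 with hκ
    have he1 : st.ray 1 1 = st.e 1 := st.ray_one 1
    have key : ∀ s : ℝ, 1 < s → S.eval (st.ray 1 s) * st.Wc c (st.ray 1 s) ^ 2 =
        κ * (st.ray 1 s - st.e 1) * R.eval (st.ray 1 s) ^ 2 := by
      intro s hs
      have h3 := st.fi_const hD hF hn 1 hs
      have h4 : F.derivative.eval (st.ray 1 s) ≠ 0 := st.F'_ray (Or.inr hs.ne')
      have h5 : st.ray 1 s - st.e 1 ≠ 0 := by
        intro h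
        apply h4
        rw [hR, eval_mul, eval_pow, eval_sub, eval_X, eval_C, h]
        ring
      unfold fi at h3
      rw [← hκ, div_eq_iff (pow_ne_zero 2 h4)] at h3
      have h6 := congrArg (Polynomial.eval (st.ray 1 s)) hS
      rw [eval_sub, eval_pow, eval_ofNat, eval_mul, eval_pow, eval_sub, eval_X, eval_C] at h6
      rw [h6, hR, eval_mul, eval_pow, eval_sub, eval_X, eval_C] at h3
      apply mul_left_cancel₀ (pow_ne_zero 3 h5)
      linear_combination h3
    have hWd : HasDerivAt (st.Wc c) (st.W1c c (st.ray 1 1)) (st.ray 1 1) :=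
      st.hasDerivAt_Wc c hoff
    have hmem : ∀ᶠ s : ℝ in 𝓝[>] (1 : ℝ), 1 < s := self_mem_nhdsWithin
    have t1 : Tendsto (fun s => S.eval (st.ray 1 s) * st.Wc c (st.ray 1 s) ^ 2) (𝓝[>] 1)
        (𝓝 (S.eval (st.ray 1 1) * st.Wc c (st.ray 1 1) ^ 2)) :=
      ((S.continuous.tendsto _).comp h2).mul ((hWd.continuousAt.tendsto.comp h2).pow 2)
    have t2 : Tendsto (fun s => κ * (st.ray 1 s - st.e 1) * R.eval (st.ray 1 s) ^ 2) (𝓝[>] 1)
        (𝓝 (κ * (st.ray 1 1 - st.e 1) * R.eval (st.ray 1 1) ^ 2)) :=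
      ((h2.sub_const _).const_mul κ).mul (((R.continuous.tendsto _).comp h2).pow 2)
    have h7 := tendsto_nhds_unique (t1.congr' (hmem.mono fun s hs => key s hs)) t2
    rw [he1, sub_self, mul_zero, zero_mul, mul_eq_zero] at h7
    have h8 : st.Wc c (st.e 1) = 0 := pow_eq_zero_iff two_ne_zero |>.1 (h7.resolve_left hS0)
    have hWd' : HasDerivAt (st.Wc c) (st.W1c c (st.e 1)) (st.e 1) := by rw [← he1]; exact hWd
    -- the difference quotient along the ray
    have h9 : HasDerivAt (fun s : ℝ => st.Wc c (st.ray 1 s))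
        ((st.e 1 - st.a) • st.W1c c (st.ray 1 1)) 1 := HasDerivAt.scomp 1 hWd (st.hasDerivAt_ray 1 1)
    have h10 := (hasDerivAt_iff_tendsto_slope.1 h9).mono_left
      (nhdsWithin_mono (1 : ℝ) (fun s (hs : 1 < s) => (ne_of_gt hs : s ∈ ({1} : Set ℝ)ᶜ)))
    have t3 : Tendsto (fun s => S.eval (st.ray 1 s) *
        (slope (fun s : ℝ => st.Wc c (st.ray 1 s)) 1 s * st.Wc c (st.ray 1 s))) (𝓝[>] 1)
        (𝓝 (S.eval (st.ray 1 1) *
          (((st.e 1 - st.a) • st.W1c c (st.ray 1 1)) * st.Wc c (st.ray 1 1)))) :=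
      ((S.continuous.tendsto _).comp h2).mul (h10.mul (hWd.continuousAt.tendsto.comp h2))
    have t4 : Tendsto (fun s => κ * (st.e 1 - st.a) * R.eval (st.ray 1 s) ^ 2) (𝓝[>] 1)
        (𝓝 (κ * (st.e 1 - st.a) * R.eval (st.ray 1 1) ^ 2)) :=
      (((R.continuous.tendsto _).comp h2).pow 2).const_mul _
    have h11 := tendsto_nhds_unique (t3.congr' (hmem.mono fun s hs => ?_)) t4
    · rw [he1, h8, mul_zero, mul_zero, eq_comm, mul_eq_zero, mul_eq_zero] at h11
      rcases h11 with (h | h) | h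
      · exact h
      · exact absurd h (st.hne 1)
      · exact absurd (pow_eq_zero_iff two_ne_zero |>.1 h) hR0
    · have h12 := key s hs
      have h13 : st.ray 1 s - st.e 1 = ((s - 1 : ℝ) : ℂ) * (st.e 1 - st.a) := by
        unfold ray
        push_cast
        ring
      have h14 : ((s - 1 : ℝ) : ℂ) ≠ 0 := by
        have : s - 1 ≠ 0 := sub_ne_zero.2 (ne_of_gt hs)
        exact_mod_cast this
      rw [slope_def_module, he1, h8, sub_zero, Complex.real_smul]
      rw [h13] at h12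
      apply mul_left_cancel₀ h14
      rw [Complex.ofReal_inv]
      field_simp
      linear_combination h12

theorem Wc_ray (hF : F.Monic) (hn : 0 < F.natDegree) (l : Fin (m + 2)) {s : ℝ} (hs : 1 < s) :
    st.Wc c (st.ray l s) = 0 := by
  have h1 := st.fi_const hD hF hn l hs
  rw [st.Lam_zero hD hF hn] at h1
  unfold fi at h1
  have h2 := st.ray_F l hs
  have h3 := st.F'_ray (l := l) (Or.inr hs.ne')
  rcases div_eq_zero_iff.1 h1 with h4 | h4
  · exact pow_eq_zero_iff two_ne_zero |>.1 ((mul_eq_zero.1 h4).resolve_left h2)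
  · exact absurd (pow_eq_zero_iff two_ne_zero |>.1 h4) h3

omit hD in
theorem I_bdd {i l : Fin (m + 2)} (h1 : i ≠ 1) (h : i ≠ l) :
    ∃ B : ℝ, ∀ s ∈ Icc (1 : ℝ) 2, ‖st.I i (st.ray l s)‖ ≤ B := by
  have hc : ContinuousOn (fun p : ℝ × ℝ => st.Lg i p.2 / (st.X i p.2 - st.ray l p.1))
      (Icc (1 : ℝ) 2 ×ˢ Icc (-1 : ℝ) 1) := by
    refine ContinuousOn.div ((st.Lg_continuous h1).comp continuous_snd).continuousOn ?_ ?_
    · have hr : Continuous (st.ray l) := by
        unfold ray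
        fun_prop
      exact (((st.X_contDiff i).continuous.comp continuous_snd).sub
        (hr.comp continuous_fst)).continuousOn
    · rintro ⟨s, w⟩ ⟨hs, hw⟩
      have hs1 : s ≠ 0 := by
        have := hs.1
        simp only at this
        linarith
      exact sub_ne_zero.2 (st.off_ray h hs1 w (abs_le.2 hw))
  obtain ⟨B, hB⟩ := (isCompact_Icc.prod isCompact_Icc).exists_bound_of_continuousOn hc
  refine ⟨B * |1 - -1|, fun s hs => ?_⟩
  refine intervalIntegral.norm_integral_le_of_norm_le_const fun w hw => ?_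
  rw [uIoc_of_le (by norm_num)] at hw
  exact hB (s, w) ⟨hs, Ioc_subset_Icc_self hw⟩

omit hD in
theorem I_self (l : Fin (m + 2)) (δ : ℝ) :
    st.I l (st.ray l (1 + δ)) =
      -(st.e l - st.a)⁻¹ * ∫ w in (-1 : ℝ)..1, st.Lg l w / ((w : ℂ) ^ 2 + δ) := by
  unfold I
  rw [← intervalIntegral.integral_const_mul]
  refine intervalIntegral.integral_congr fun w _ => ?_
  show st.Lg l w / (st.X l w - st.ray l (1 + δ)) = _
  have h1 : st.X l w - st.ray l (1 + δ) = -((st.e l - st.a) * ((w : ℂ) ^ 2 + δ)) := by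
    unfold X ray
    push_cast
    ring
  rw [h1, div_neg, ← neg_div, neg_mul, mul_comm (st.e l - st.a)⁻¹, ← div_eq_mul_inv,
    div_div, mul_comm ((w : ℂ) ^ 2 + δ), neg_div]

omit hD in
theorem Lg_zero_ne {l : Fin (m + 2)} (hl : l ≠ 1) : st.Lg l 0 ≠ 0 := by
  unfold Lg
  have h1 : st.X l 0 = st.e l := by
    unfold X
    push_cast
    ring
  rw [h1]
  have h2 : st.a - st.e l ≠ 0 := fun h => st.hne l (by linear_combination -h)
  exact div_ne_zero (mul_ne_zero (mul_ne_zero two_ne_zero h2) (st.eF'_ne hl)) (st.hh_ne hl 0)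

theorem c_zero (hF : F.Monic) (hn : 0 < F.natDegree) (j : Fin m) : c j = 0 := by
  by_contra hc
  have hc' : (c j : ℂ) ≠ 0 := by exact_mod_cast hc
  set l : Fin (m + 2) := j.succ.succ with hl
  have hne0 : (0 : Fin (m + 2)) ≠ l := (Fin.succ_ne_zero _).symm
  have hnek : ∀ k : Fin m, k ≠ j → (k.succ.succ : Fin (m + 2)) ≠ l := by
    intro k hk h
    exact hk (Fin.succ_injective _ (Fin.succ_injective _ h))
  obtain ⟨B₀, hB₀⟩ := st.I_bdd zero_ne_one' hne0
  have hex : ∀ k : Fin m, ∃ B : ℝ, k ≠ j → ∀ s ∈ Icc (1 : ℝ) 2,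
      ‖st.I k.succ.succ (st.ray l s)‖ ≤ B := by
    intro k
    by_cases hk : k = j
    · exact ⟨0, fun h => absurd hk h⟩
    · obtain ⟨B, hB⟩ := st.I_bdd (one_ne k) (hnek k hk)
      exact ⟨B, fun _ => hB⟩
  choose B hB using hex
  set S : ℝ := ∑ k ∈ Finset.univ.erase j, |c k| * B k + ∑ k, |c k| * B₀ with hS
  have hbound : ∀ s ∈ Ioc (1 : ℝ) 2, ‖(c j : ℂ) * st.I l (st.ray l s)‖ ≤ S := by
    intro s hs
    have h1 := st.Wc_ray hD hF hn l hs.1
    unfold Wc at h1
    have h2 : ∀ k, (c k : ℂ) * (st.g k).W (st.ray l s) =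
        (c k : ℂ) * st.I k.succ.succ (st.ray l s) - (c k : ℂ) * st.I 0 (st.ray l s) := by
      intro k
      unfold g
      rw [st.W_loop zero_ne_one' (one_ne k) (st.off_ray_all _ l hs.1) (st.off_ray_all _ l hs.1)]
      ring
    rw [Finset.sum_congr rfl fun k _ => h2 k, Finset.sum_sub_distrib,
      ← Finset.add_sum_erase Finset.univ _ (Finset.mem_univ j)] at h1
    have h3 : (c j : ℂ) * st.I l (st.ray l s) =
        -(∑ k ∈ Finset.univ.erase j, (c k : ℂ) * st.I k.succ.succ (st.ray l s)) +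
          ∑ k, (c k : ℂ) * st.I 0 (st.ray l s) := by
      linear_combination h1
    have hs' := Ioc_subset_Icc_self hs
    rw [h3, hS]
    refine (norm_add_le _ _).trans (add_le_add ?_ ?_)
    · rw [norm_neg]
      refine (norm_sum_le _ _).trans (Finset.sum_le_sum fun k hk => ?_)
      rw [norm_mul, Complex.norm_real, Real.norm_eq_abs]
      exact mul_le_mul_of_nonneg_left (hB k (Finset.ne_of_mem_erase hk) s hs') (abs_nonneg _)
    · refine (norm_sum_le _ _).trans (Finset.sum_le_sum fun k _ => ?_)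
      rw [norm_mul, Complex.norm_real, Real.norm_eq_abs]
      exact mul_le_mul_of_nonneg_left (hB₀ s hs') (abs_nonneg _)
  obtain ⟨δ₀, hδ₀, hbl⟩ := blow (st.Lg_continuous (one_ne j)) (st.Lg_zero_ne (one_ne j))
    (S * ‖st.e l - st.a‖ / |c j|)
  set δ := min (δ₀ / 2) 1 with hδ
  have hδ0 : 0 < δ := lt_min (half_pos hδ₀) one_pos
  have hδ1 : δ < δ₀ := (min_le_left _ _).trans_lt (half_lt_self hδ₀)
  have h1 := hbl δ hδ0 hδ1
  have h2 := hbound (1 + δ) ⟨by linarith, by have := min_le_right (δ₀ / 2) 1; linarith⟩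
  rw [st.I_self, norm_mul, norm_mul, norm_neg, norm_inv, Complex.norm_real, Real.norm_eq_abs]
    at h2
  have hcp : 0 < |c j| := abs_pos.2 hc
  have hep : 0 < ‖st.e l - st.a‖ := norm_pos_iff.2 (st.hne l)
  rw [div_lt_iff₀ hcp] at h1
  have h3 : |c j| * (‖st.e l - st.a‖⁻¹ * ‖∫ w in (-1 : ℝ)..1, st.Lg l w / ((w : ℂ) ^ 2 + δ)‖) =
      ‖∫ w in (-1 : ℝ)..1, st.Lg l w / ((w : ℂ) ^ 2 + δ)‖ * |c j| / ‖st.e l - st.a‖ := by
    field_simp
  rw [h3, div_le_iff₀ hep] at h2
  linarith

end Star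

end Pool.Agent.E8helper67.PS
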