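import Pool.Agent.E8helper67.PS.Loop
set_option autoImplicit false

/-!
Arms from a base point to the branch points and the closed curves made of two arms.
-/

namespace Pool.Agent.E8helper67.PS

open Polynomial MeasureTheory Set Filter Topology

/-- the profile along which an arm is run through -/
noncomputable def sg (θ : ℝ) : ℝ :=
  2 * Real.smoothTransition (Real.cos (2 * Real.pi * θ) + 1 / 2) - 1

theorem sg_contDiff : ContDiff ℝ 2 sg := by
  unfold sg
  have h1 : ContDiff ℝ 2 fun θ : ℝ => Real.cos (2 * Real.pi * θ) + 1 / 2 :=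
    (Real.contDiff_cos.comp (contDiff_const.mul contDiff_id)).add contDiff_const
  exact (contDiff_const.mul (Real.smoothTransition.contDiff.comp h1)).sub contDiff_const

theorem sg_abs (θ : ℝ) : |sg θ| ≤ 1 := by
  unfold sg
  have h1 := Real.smoothTransition.nonneg (Real.cos (2 * Real.pi * θ) + 1 / 2)
  have h2 := Real.smoothTransition.le_one (Real.cos (2 * Real.pi * θ) + 1 / 2)
  rw [abs_le]
  constructor <;> linarith

theorem sg_one {θ : ℝ} (h : 1 / 2 < Real.cos (2 * Real.pi * θ)) : sg θ = 1 := by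
  unfold sg
  rw [Real.smoothTransition.one_of_one_le (by linarith)]
  norm_num

theorem sg_neg_one {θ : ℝ} (h : Real.cos (2 * Real.pi * θ) < -(1 / 2)) : sg θ = -1 := by
  unfold sg
  rw [Real.smoothTransition.zero_of_nonpos (by linarith)]
  norm_num

theorem arg_add (θ : ℝ) : 2 * Real.pi * (θ + 1) = 2 * Real.pi * θ + 2 * Real.pi := by ring

theorem sg_add (θ : ℝ) : sg (θ + 1) = sg θ := by
  unfold sg
  rw [arg_add, Real.cos_add_two_pi]

/-- two functions glued along the profile -/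
noncomputable def glue (f g : ℝ → ℂ) (θ : ℝ) : ℂ :=
  if 0 ≤ Real.sin (2 * Real.pi * θ) then f (sg θ) else g (sg θ)

theorem glue_add (f g : ℝ → ℂ) (θ : ℝ) : glue f g (θ + 1) = glue f g θ := by
  unfold glue
  rw [sg_add, arg_add, Real.sin_add_two_pi]

theorem glue_pos (f g : ℝ → ℂ) {θ : ℝ} (h : 0 < Real.sin (2 * Real.pi * θ)) :
    ∀ᶠ s in 𝓝 θ, glue f g s = f (sg s) := by
  have hc : Continuous fun s : ℝ => Real.sin (2 * Real.pi * s) := by fun_prop
  filter_upwards [hc.continuousAt.eventually (lt_mem_nhds h)] with s hs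
  unfold glue
  rw [if_pos (le_of_lt hs)]

theorem glue_neg (f g : ℝ → ℂ) {θ : ℝ} (h : Real.sin (2 * Real.pi * θ) < 0) :
    ∀ᶠ s in 𝓝 θ, glue f g s = g (sg s) := by
  have hc : Continuous fun s : ℝ => Real.sin (2 * Real.pi * s) := by fun_prop
  filter_upwards [hc.continuousAt.eventually (gt_mem_nhds h)] with s hs
  unfold glue
  rw [if_neg (not_le.2 hs)]

theorem glue_contDiff {f g : ℝ → ℂ} (hf : ContDiff ℝ 2 f) (hg : ContDiff ℝ 2 g)
    (h1 : f 1 = g 1) (h2 : f (-1) = g (-1)) : ContDiff ℝ 2 (glue f g) := by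
  rw [contDiff_iff_contDiffAt]
  intro θ
  have hc : Continuous fun s : ℝ => Real.cos (2 * Real.pi * s) := by fun_prop
  have hff : ContDiff ℝ 2 fun s => f (sg s) := hf.comp sg_contDiff
  have hgg : ContDiff ℝ 2 fun s => g (sg s) := hg.comp sg_contDiff
  by_cases c1 : 1 / 2 < Real.cos (2 * Real.pi * θ)
  · refine (contDiffAt_const (c := f 1)).congr_of_eventuallyEq ?_
    filter_upwards [hc.continuousAt.eventually (lt_mem_nhds c1)] with s hs
    unfold glue
    rw [sg_one hs, ← h1, ite_self]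
  by_cases c2 : Real.cos (2 * Real.pi * θ) < -(1 / 2)
  · refine (contDiffAt_const (c := f (-1))).congr_of_eventuallyEq ?_
    filter_upwards [hc.continuousAt.eventually (gt_mem_nhds c2)] with s hs
    unfold glue
    rw [sg_neg_one hs, ← h2, ite_self]
  rcases lt_trichotomy (Real.sin (2 * Real.pi * θ)) 0 with h | h | h
  · exact hgg.contDiffAt.congr_of_eventuallyEq (glue_neg f g h)
  · exfalso
    have h3 := Real.sin_sq_add_cos_sq (2 * Real.pi * θ)
    rw [h] at h3
    push Not at c1 c2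
    nlinarith
  · exact hff.contDiffAt.congr_of_eventuallyEq (glue_pos f g h)

/-- the branch points, the base point and the value of `y` there -/
structure Star (F : ℂ[X]) (m : ℕ) where
  B : ℂ[X]
  e : Fin (m + 2) → ℂ
  a : ℂ
  ya : ℂ
  eq : ∀ x, F.eval x ^ 2 - 4 = B.eval x ^ 2 * ∏ k, (x - e k)
  hB : ∀ x, B.eval x = 0 → F.derivative.eval x = 0
  hya : ya ^ 2 = ∏ k, (a - e k)
  hne : ∀ i, e i - a ≠ 0
  hpar : ∀ i k, i ≠ k → ((e i - a) / (e k - a)).im ≠ 0
  hcrit : ∀ i p, F.derivative.eval p = 0 → (i = 1 ∧ p = e 1) ∨ ((p - a) / (e i - a)).im ≠ 0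
  hbad : F.derivative.eval (e 1) ≠ 0 ∨ ∃ R S : ℂ[X], derivative F = (X - C (e 1)) ^ 2 * R ∧
    F ^ 2 - 4 = (X - C (e 1)) ^ 3 * S ∧ R.eval (e 1) ≠ 0 ∧ S.eval (e 1) ≠ 0
  hlin : ∀ i, ((e i - a) ^ F.natDegree).im ≠ 0

namespace Star

variable {F : ℂ[X]} {m : ℕ} (st : Star F m)

/-- the arm to the branch point `i` -/
noncomputable def X (i : Fin (m + 2)) (w : ℝ) : ℂ := st.a + (1 - (w : ℂ) ^ 2) * (st.e i - st.a)

/-- the factors of `y` -/
noncomputable def fac (i k : Fin (m + 2)) (w : ℝ) : ℂ :=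
  1 - (1 - (w : ℂ) ^ 2) * ((st.e i - st.a) / (st.e k - st.a))

theorem fac_mem {i k : Fin (m + 2)} (h : i ≠ k) (w : ℝ) : st.fac i k w ∈ Complex.slitPlane := by
  by_cases hw : 1 - w ^ 2 = 0
  · have : (1 - (w : ℂ) ^ 2) = 0 := by exact_mod_cast hw
    unfold fac
    rw [this, zero_mul, sub_zero]
    exact Complex.one_mem_slitPlane
  · right
    have e1 : (1 - (w : ℂ) ^ 2) = ((1 - w ^ 2 : ℝ) : ℂ) := by push_cast; rfl
    unfold fac
    rw [e1, Complex.sub_im, Complex.one_im, Complex.im_ofReal_mul, zero_sub, neg_ne_zero]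
    exact mul_ne_zero hw (st.hpar i k h)

theorem fac_contDiff (i k : Fin (m + 2)) : ContDiff ℝ 2 (st.fac i k) := by
  have h1 : ContDiff ℝ 2 fun w : ℝ => (w : ℂ) := Complex.ofRealCLM.contDiff
  exact contDiff_const.sub ((contDiff_const.sub (h1.pow 2)).mul contDiff_const)

theorem X_contDiff (i : Fin (m + 2)) : ContDiff ℝ 2 (st.X i) := by
  have h1 : ContDiff ℝ 2 fun w : ℝ => (w : ℂ) := Complex.ofRealCLM.contDiff
  exact contDiff_const.add ((contDiff_const.sub (h1.pow 2)).mul contDiff_const)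

/-- the square root of a factor -/
noncomputable def rt (i k : Fin (m + 2)) (w : ℝ) : ℂ := Complex.exp (Complex.log (st.fac i k w) / 2)

theorem rt_sq {i k : Fin (m + 2)} (h : i ≠ k) (w : ℝ) : st.rt i k w ^ 2 = st.fac i k w := by
  unfold rt
  rw [← Complex.exp_nat_mul]
  have h0 := Complex.slitPlane_ne_zero (st.fac_mem h w)
  rw [show ((2 : ℕ) : ℂ) * (Complex.log (st.fac i k w) / 2) = Complex.log (st.fac i k w) by
    push_cast; ring, Complex.exp_log h0]

theorem rt_contDiff {i k : Fin (m + 2)} (h : i ≠ k) : ContDiff ℝ 2 (st.rt i k) := by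
  have h1 : ContDiff ℝ 2 fun w => Complex.log (st.fac i k w) := by
    rw [contDiff_iff_contDiffAt]
    intro w
    exact ((Complex.contDiffAt_log (st.fac_mem h w)).restrict_scalars ℝ).comp w
      (st.fac_contDiff i k).contDiffAt
  exact (h1.div_const 2).cexp

theorem X_F' {i : Fin (m + 2)} (hi : i ≠ 1) (w : ℝ) : F.derivative.eval (st.X i w) ≠ 0 := by
  intro h
  refine ((st.hcrit i _ h).resolve_left fun h => hi h.1) ?_
  have e1 : (st.X i w - st.a) / (st.e i - st.a) = ((1 - w ^ 2 : ℝ) : ℂ) := by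
    unfold X
    rw [add_sub_cancel_left, mul_div_assoc, div_self (st.hne i), mul_one]
    push_cast
    rfl
  rw [e1, Complex.ofReal_im]

theorem X_B {i : Fin (m + 2)} (hi : i ≠ 1) (w : ℝ) : st.B.eval (st.X i w) ≠ 0 := fun h =>
  st.X_F' hi w (st.hB _ h)

/-- the function `y / w` along the arm, divided by `B` -/
noncomputable def h0 (i : Fin (m + 2)) (w : ℝ) : ℂ :=
  st.ya * ∏ k ∈ Finset.univ.erase i, st.rt i k w

/-- the function `y / w` along the arm -/
noncomputable def hh (i : Fin (m + 2)) (w : ℝ) : ℂ := st.B.eval (st.X i w) * st.h0 i w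

theorem ya_ne : st.ya ≠ 0 := by
  intro h
  have h1 := st.hya
  rw [h, zero_pow two_ne_zero] at h1
  obtain ⟨k, _, hk⟩ := Finset.prod_eq_zero_iff.1 h1.symm
  exact st.hne k (by linear_combination -hk)

theorem rt_ne (i k : Fin (m + 2)) (w : ℝ) : st.rt i k w ≠ 0 := Complex.exp_ne_zero _

theorem hh_ne {i : Fin (m + 2)} (hi : i ≠ 1) (w : ℝ) : st.hh i w ≠ 0 :=
  mul_ne_zero (st.X_B hi w)
    (mul_ne_zero st.ya_ne (Finset.prod_ne_zero_iff.2 fun k _ => st.rt_ne i k w))

theorem px_contDiff (p : ℂ[X]) (i : Fin (m + 2)) : ContDiff ℝ 2 fun w => p.eval (st.X i w) :=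
  ((p.contDiff_aeval (𝕜 := ℂ) 2).restrict_scalars ℝ).comp (st.X_contDiff i)

theorem hh_contDiff (i : Fin (m + 2)) : ContDiff ℝ 2 (st.hh i) := by
  unfold hh h0
  refine (st.px_contDiff st.B i).mul (contDiff_const.mul (contDiff_prod fun k hk => ?_))
  exact st.rt_contDiff (Finset.ne_of_mem_erase hk).symm

theorem fac_one (i k : Fin (m + 2)) : st.fac i k 1 = 1 := by
  unfold fac
  simp

theorem fac_neg_one (i k : Fin (m + 2)) : st.fac i k (-1) = 1 := by
  unfold fac
  simp

theorem X_one (i : Fin (m + 2)) : st.X i 1 = st.a := by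
  unfold X
  simp

theorem X_neg_one (i : Fin (m + 2)) : st.X i (-1) = st.a := by
  unfold X
  simp

theorem hh_one (i : Fin (m + 2)) : st.hh i 1 = st.B.eval st.a * st.ya := by
  unfold hh h0 rt
  rw [Finset.prod_eq_one, mul_one, st.X_one]
  intro k _
  rw [st.fac_one, Complex.log_one, zero_div, Complex.exp_zero]

theorem hh_neg_one (i : Fin (m + 2)) : st.hh i (-1) = st.B.eval st.a * st.ya := by
  unfold hh h0 rt
  rw [Finset.prod_eq_one, mul_one, st.X_neg_one]
  intro k _
  rw [st.fac_neg_one, Complex.log_one, zero_div, Complex.exp_zero]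

/-- the function `y` along the arm -/
noncomputable def Y (i : Fin (m + 2)) (w : ℝ) : ℂ := w * st.hh i w

theorem Y_contDiff (i : Fin (m + 2)) : ContDiff ℝ 2 (st.Y i) :=
  Complex.ofRealCLM.contDiff.mul (st.hh_contDiff i)

theorem fac_eq (i k : Fin (m + 2)) (w : ℝ) :
    st.fac i k w = (st.X i w - st.e k) / (st.a - st.e k) := by
  unfold fac X
  have h1 := st.hne k
  have h2 : st.a - st.e k ≠ 0 := fun h => h1 (by linear_combination -h)
  field_simp
  ring

theorem Y_sq (i : Fin (m + 2)) (w : ℝ) : st.Y i w ^ 2 = F.eval (st.X i w) ^ 2 - 4 := by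
  rw [st.eq]
  unfold Y hh h0
  rw [mul_pow, mul_pow, mul_pow, ← Finset.prod_pow, Finset.prod_congr rfl fun k hk =>
    st.rt_sq (Finset.ne_of_mem_erase hk).symm w, st.hya,
    ← Finset.mul_prod_erase Finset.univ (fun k => st.a - st.e k) (Finset.mem_univ i),
    ← Finset.mul_prod_erase Finset.univ (fun k => st.X i w - st.e k) (Finset.mem_univ i)]
  have h1 : ∏ k ∈ Finset.univ.erase i, (st.X i w - st.e k) =
      (∏ k ∈ Finset.univ.erase i, (st.a - st.e k)) *
        ∏ k ∈ Finset.univ.erase i, st.fac i k w := by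
    rw [← Finset.prod_mul_distrib]
    refine Finset.prod_congr rfl fun k _ => ?_
    have h2 : st.a - st.e k ≠ 0 := fun h => st.hne k (by linear_combination -h)
    rw [st.fac_eq, mul_div_cancel₀ _ h2]
  have h2 : st.X i w - st.e i = (w : ℂ) ^ 2 * (st.a - st.e i) := by
    unfold X
    ring
  rw [h1, h2]
  ring

/-- the function `z` along the arm -/
noncomputable def Z (i : Fin (m + 2)) (w : ℝ) : ℂ := (F.eval (st.X i w) + st.Y i w) / 2

theorem Fx_contDiff (i : Fin (m + 2)) : ContDiff ℝ 2 fun w => F.eval (st.X i w) :=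
  st.px_contDiff F i

theorem Z_contDiff (i : Fin (m + 2)) : ContDiff ℝ 2 (st.Z i) :=
  ((st.Fx_contDiff i).add (st.Y_contDiff i)).div_const 2

theorem Z_eq (i : Fin (m + 2)) (w : ℝ) :
    st.Z i w ^ 2 - F.eval (st.X i w) * st.Z i w + 1 = 0 := by
  have := st.Y_sq i w
  unfold Z
  linear_combination this / 4

theorem Z_ne (i : Fin (m + 2)) (w : ℝ) : st.Z i w ≠ 0 := by
  intro h
  have := st.Z_eq i w
  rw [h] at this
  simp at this

theorem Z_one (i : Fin (m + 2)) : st.Z i 1 = (F.eval st.a + st.B.eval st.a * st.ya) / 2 := by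
  unfold Z Y
  rw [st.X_one, st.hh_one]
  simp

theorem Z_neg_one (i : Fin (m + 2)) :
    st.Z i (-1) = (F.eval st.a - st.B.eval st.a * st.ya) / 2 := by
  unfold Z Y
  rw [st.X_neg_one, st.hh_neg_one]
  simp
  ring

/-- the closed curve made of two arms -/
noncomputable def loop (i j : Fin (m + 2)) : Lp F where
  x := glue (st.X i) (st.X j)
  z := glue (st.Z i) (st.Z j)
  hx := glue_contDiff (st.X_contDiff i) (st.X_contDiff j) (by rw [st.X_one, st.X_one])
    (by rw [st.X_neg_one, st.X_neg_one])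
  hz := glue_contDiff (st.Z_contDiff i) (st.Z_contDiff j) (by rw [st.Z_one, st.Z_one])
    (by rw [st.Z_neg_one, st.Z_neg_one])
  px := glue_add _ _
  pz := glue_add _ _
  eq := by
    intro t
    unfold glue
    split_ifs
    · exact st.Z_eq i _
    · exact st.Z_eq j _

theorem loop_F' {i j : Fin (m + 2)} (hi : i ≠ 1) (hj : j ≠ 1) (t : ℝ) :
    F.derivative.eval ((st.loop i j).x t) ≠ 0 := by
  show F.derivative.eval (glue (st.X i) (st.X j) t) ≠ 0
  unfold glue
  split_ifs
  · exact st.X_F' hi _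
  · exact st.X_F' hj _

/-- the point `b` does not lie on the arm -/
def OffArm (i : Fin (m + 2)) (b : ℂ) : Prop := ∀ w : ℝ, |w| ≤ 1 → st.X i w ≠ b

theorem loop_off {i j : Fin (m + 2)} {b : ℂ} (hi : st.OffArm i b) (hj : st.OffArm j b) :
    (st.loop i j).Off b := by
  intro t
  show glue (st.X i) (st.X j) t ≠ b
  unfold glue
  split_ifs
  · exact hi _ (sg_abs t)
  · exact hj _ (sg_abs t)

/-- the logarithmic derivative of `z` along the arm -/
noncomputable def Lg (i : Fin (m + 2)) (w : ℝ) : ℂ :=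
  2 * (st.a - st.e i) * F.derivative.eval (st.X i w) / st.hh i w

theorem Lg_continuous {i : Fin (m + 2)} (hi : i ≠ 1) : Continuous (st.Lg i) :=
  (continuous_const.mul (F.derivative.continuous.comp (st.X_contDiff i).continuous)).div
    (st.hh_contDiff i).continuous (st.hh_ne hi)

theorem hasDerivAt_X (i : Fin (m + 2)) (w : ℝ) :
    HasDerivAt (st.X i) (2 * (st.a - st.e i) * w) w := by
  have h1 : HasDerivAt (fun w : ℝ => (w : ℂ)) 1 w := Complex.ofRealCLM.hasDerivAt
  refine ((((h1.fun_pow 2).const_sub 1).mul_const (st.e i - st.a)).const_add st.a).congr_deriv ?_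
  push_cast
  ring

theorem hasDerivAt_Z {i : Fin (m + 2)} (hi : i ≠ 1) (w : ℝ) :
    HasDerivAt (st.Z i) (st.Lg i w * st.Z i w) w := by
  have hd : ∀ w, HasDerivAt (st.Z i) (deriv (st.Z i) w) w := fun w =>
    ((st.Z_contDiff i).differentiable (by norm_num) w).hasDerivAt
  suffices h : deriv (st.Z i) = fun w => st.Lg i w * st.Z i w by
    have := hd w
    rwa [h] at this
  refine Continuous.ext_on (dense_compl_singleton (0 : ℝ))
    ((st.Z_contDiff i).continuous_deriv (by norm_num))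
    ((st.Lg_continuous hi).mul (st.Z_contDiff i).continuous) ?_
  intro w hw
  have hw : w ≠ 0 := hw
  have hw' : (w : ℂ) ≠ 0 := by exact_mod_cast hw
  have h1 : HasDerivAt (fun w => F.eval (st.X i w))
      (F.derivative.eval (st.X i w) * (2 * (st.a - st.e i) * w)) w :=
    (F.hasDerivAt (st.X i w)).comp w (st.hasDerivAt_X i w)
  have h2 := (((hd w).fun_pow 2).sub (h1.fun_mul (hd w))).add_const (1 : ℂ)
  have h3 : HasDerivAt (fun w => st.Z i w ^ 2 - F.eval (st.X i w) * st.Z i w + 1) 0 w := by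
    have : (fun w => st.Z i w ^ 2 - F.eval (st.X i w) * st.Z i w + 1) = fun _ => 0 := by
      funext w
      exact st.Z_eq i w
    rw [this]
    exact hasDerivAt_const w 0
  have h4 := h2.unique h3
  have h5 : st.Y i w ≠ 0 := mul_ne_zero hw' (st.hh_ne hi w)
  have h6 : 2 * st.Z i w - F.eval (st.X i w) = st.Y i w := by
    unfold Z
    ring
  simp only [Nat.cast_ofNat, Nat.add_one_sub_one, pow_one] at h4
  have h7 : st.Y i w * deriv (st.Z i) w =
      F.derivative.eval (st.X i w) * (2 * (st.a - st.e i) * w) * st.Z i w := by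
    rw [← h6]
    linear_combination h4
  have h8 := st.hh_ne hi w
  apply mul_left_cancel₀ h5
  rw [h7]
  unfold Lg Y
  field_simp

/-- the contribution of an arm -/
noncomputable def I (i : Fin (m + 2)) (b : ℂ) : ℂ :=
  ∫ w in (-1 : ℝ)..1, st.Lg i w / (st.X i w - b)

end Star

end Pool.Agent.E8helper67.PS
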