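import Pool.Agent.E8helper67.PS.Local
set_option autoImplicit false

/-!
Existence of stars.
-/

namespace Pool.Agent.E8helper67.PS

open Polynomial MeasureTheory Set Filter Topology

theorem dense_im (P : ℂ[X]) (h : 0 < P.natDegree) : Dense {a : ℂ | (P.eval a).im ≠ 0} := by
  intro a
  rw [mem_closure_iff_nhds]
  intro U hU
  have han : AnalyticAt ℂ (fun z => P.eval z) a := by
    have := AnalyticAt.aeval_polynomial (𝕜 := ℂ) (analyticAt_id (z := a)) P
    simpa using this
  have hnc : ¬ ∀ᶠ z in 𝓝 a, P.eval z = P.eval a := by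
    intro hc
    have hinf : {z | P.eval z = P.eval a}.Infinite := infinite_of_mem_nhds a hc
    have hne : P - C (P.eval a) ≠ 0 := by
      intro h0
      have h1 : (P - C (P.eval a)).natDegree = 0 := by rw [h0, natDegree_zero]
      rw [natDegree_sub_C] at h1
      omega
    refine hinf (((P - C (P.eval a)).roots.toFinset.finite_toSet).subset fun z hz => ?_)
    simp only [Finset.mem_coe, Multiset.mem_toFinset, mem_roots hne, IsRoot.def, eval_sub, eval_C]
    exact sub_eq_zero.2 hz
  have hopen := han.eventually_constant_or_nhds_le_map_nhds.resolve_left hnc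
  have h1 : (fun z => P.eval z) '' U ∈ 𝓝 (P.eval a) := hopen (image_mem_map hU)
  have hd : Dense {z : ℂ | z.im ≠ 0} := by
    intro z
    rw [Metric.mem_closure_iff]
    intro ε hε
    by_cases hz : z.im = 0
    · refine ⟨z + (ε / 2 : ℝ) * Complex.I, ?_, ?_⟩
      · show (z + (ε / 2 : ℝ) * Complex.I).im ≠ 0
        simp [hz, hε.ne']
      · rw [dist_eq_norm, sub_add_cancel_left, norm_neg, norm_mul, Complex.norm_I, mul_one,
          Complex.norm_real, Real.norm_of_nonneg (half_pos hε).le]
        exact half_lt_self hε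
    · exact ⟨z, hz, by rw [dist_self]; exact hε⟩
  obtain ⟨w, ⟨z, hz, hzw⟩, hw⟩ := mem_closure_iff_nhds.1 (hd (P.eval a)) _ h1
  refine ⟨z, hz, ?_⟩
  show (P.eval z).im ≠ 0
  have : P.eval z = w := hzw
  rw [this]
  exact hw

theorem isOpen_im (P : ℂ[X]) : IsOpen {a : ℂ | (P.eval a).im ≠ 0} :=
  isOpen_ne.preimage (Complex.continuous_im.comp P.continuous)

/-- A point where finitely many nonconstant polynomials are not real. -/
theorem exists_im {ι : Type} [Finite ι] (P : ι → ℂ[X]) (h : ∀ i, 0 < (P i).natDegree) :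
    ∃ a : ℂ, ∀ i, ((P i).eval a).im ≠ 0 := by
  have h1 : Dense (⋂ i, {a : ℂ | ((P i).eval a).im ≠ 0}) :=
    dense_iInter_of_isOpen (fun i => isOpen_im (P i)) fun i => dense_im (P i) (h i)
  obtain ⟨a, ha⟩ := h1.nonempty
  exact ⟨a, fun i => mem_iInter.1 ha i⟩

/-- the polynomial whose imaginary part vanishes on the line through `p` and `q` -/
noncomputable def lineP (p q : ℂ) : ℂ[X] := C (cj (p - q)) * X + C (p * cj q)

theorem lineP_natDegree {p q : ℂ} (h : p ≠ q) : 0 < (lineP p q).natDegree := by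
  unfold lineP
  rw [natDegree_add_C, natDegree_C_mul_X _ ((map_ne_zero cj).2 (sub_ne_zero.2 h))]
  exact one_pos

theorem lineP_im {p q a : ℂ} (h : ((lineP p q).eval a).im ≠ 0) : ((p - a) / (q - a)).im ≠ 0 := by
  intro h0
  apply h
  unfold lineP
  rw [eval_add, eval_mul, eval_C, eval_C, eval_X]
  by_cases hq : q - a = 0
  · have hq' : q = a := sub_eq_zero.1 hq
    rw [hq', map_sub]
    have e1 : (cj p - cj a) * a + p * cj a = (a * cj p + cj (a * cj p)) - a * cj a := by
      rw [map_mul, cj_cj]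
      ring
    rw [e1, Complex.sub_im, Complex.add_im, Complex.conj_im, Complex.mul_conj,
      Complex.ofReal_im]
    ring
  · have e2 : (p - a) * cj (q - a) = ((p - a) / (q - a)) * ((Complex.normSq (q - a) : ℝ) : ℂ) := by
      rw [← Complex.mul_conj]
      field_simp
    have e3 : ((p - a) * cj (q - a)).im = 0 := by
      rw [e2, Complex.im_mul_ofReal, h0, zero_mul]
    have e4 : cj (p - q) * a + p * cj q =
        (p - a) * cj (q - a) + (a * cj p + cj (a * cj p)) - a * cj a := by
      rw [map_mul, cj_cj, map_sub, map_sub]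
      ring
    rw [e4, Complex.sub_im, Complex.add_im, Complex.add_im, e3, Complex.conj_im,
      Complex.mul_conj, Complex.ofReal_im]
    ring

/-- The common roots of `F'` and `f`. -/
theorem bad_data {F B f : ℂ[X]} (hn0 : 0 < F.natDegree)
    (hBf : F ^ 2 - 4 = B ^ 2 * f) (hf : f.Separable)
    (hcop : IsCoprime B f ∨ f.natDegree = 4) :
    ∃ x₀ : ℂ, ∀ z, f.eval z = 0 → F.derivative.eval z = 0 → z = x₀ ∧
      ∃ R S : ℂ[X], derivative F = (X - C z) ^ 2 * R ∧
        F ^ 2 - 4 = (X - C z) ^ 3 * S ∧ R.eval z ≠ 0 ∧ S.eval z ≠ 0 := by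
  have hder : 2 * F * derivative F = B * (2 * derivative B * f + B * derivative f) := by
    have h1 := congrArg (fun p => derivative p) hBf
    simp only [derivative_sub, derivative_pow, derivative_mul, derivative_ofNat,
      Nat.cast_ofNat, map_ofNat] at h1
    norm_num at h1
    linear_combination h1
  have hsep : ∀ z, f.eval z = 0 → (derivative f).eval z ≠ 0 := by
    intro z hz h3
    obtain ⟨U, V, hUV⟩ := hf
    have h4 := congrArg (Polynomial.eval z) hUV
    rw [eval_add, eval_mul, eval_mul, hz, h3, mul_zero, mul_zero, add_zero, eval_one] at h4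
    exact zero_ne_one h4
  rcases hcop with hcop | h4
  · refine ⟨0, fun z hz hz' => ?_⟩
    exfalso
    have h2 := congrArg (Polynomial.eval z) hder
    simp only [eval_mul, eval_add, hz', hz, mul_zero, zero_add] at h2
    rcases mul_eq_zero.1 h2.symm with h3 | h3
    · obtain ⟨U, V, hUV⟩ := hcop
      have h4 := congrArg (Polynomial.eval z) hUV
      rw [eval_add, eval_mul, eval_mul, hz, h3, mul_zero, mul_zero, add_zero, eval_one] at h4
      exact zero_ne_one h4
    · rcases mul_eq_zero.1 h3 with h3 | h3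
      · obtain ⟨U, V, hUV⟩ := hcop
        have h4 := congrArg (Polynomial.eval z) hUV
        rw [eval_add, eval_mul, eval_mul, hz, h3, mul_zero, mul_zero, add_zero, eval_one] at h4
        exact zero_ne_one h4
      · exact hsep z hz h3
  · have hf0 : f ≠ 0 := hf.ne_zero
    have hd : (F ^ 2 - 4).natDegree = 2 * F.natDegree := by
      have e4 : (4 : ℂ[X]) = C 4 := rfl
      rw [e4, natDegree_sub_C, natDegree_pow]
    have hB0 : B ≠ 0 := by
      rintro rfl
      rw [zero_pow two_ne_zero, zero_mul] at hBf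
      rw [hBf, natDegree_zero] at hd
      omega
    have hBd : 2 * B.natDegree + 4 = 2 * F.natDegree := by
      rw [← hd, hBf, natDegree_mul (pow_ne_zero 2 hB0) hf0, natDegree_pow, h4]
    have hcopF : IsCoprime B (2 * F) := by
      refine ⟨-(C (1 / 4) * B * f), C (1 / 8) * F, ?_⟩
      have e8 : (C (1 / 8) : ℂ[X]) * 2 = C (1 / 4) := by
        have : (2 : ℂ[X]) = C 2 := rfl
        rw [this, ← C_mul]
        norm_num
      have e1 : (C (1 / 4) : ℂ[X]) * 4 = 1 := by
        have : (4 : ℂ[X]) = C 4 := rfl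
        rw [this, ← C_mul, ← C_1]
        norm_num
      linear_combination C (1 / 4) * hBf + F ^ 2 * e8 + e1
    have hdvd : B ∣ derivative F := by
      refine hcopF.dvd_of_dvd_mul_left ⟨_, hder⟩
    obtain ⟨L, hL⟩ := hdvd
    have hF'd : (derivative F).natDegree = F.natDegree - 1 := natDegree_derivative _
    have hF'0 : derivative F ≠ 0 := by
      intro h
      have := derivative_eq_zero.1 h
      omega
    have hL0 : L ≠ 0 := by
      rintro rfl
      rw [mul_zero] at hL
      exact hF'0 hL
    have hLd : L.natDegree = 1 := by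
      have h5 := natDegree_mul hB0 hL0
      rw [← hL, hF'd] at h5
      omega
    obtain ⟨c, hc0, d, hLcd⟩ : ∃ c : ℂ, c ≠ 0 ∧ ∃ d : ℂ, L = C c * (X - C d) := by
      have h5 := eq_X_add_C_of_natDegree_le_one hLd.le
      have h6 : L.coeff 1 ≠ 0 := by
        rw [← hLd]
        exact leadingCoeff_ne_zero.2 hL0
      refine ⟨L.coeff 1, h6, -(L.coeff 0 / L.coeff 1), ?_⟩
      rw [C_neg, sub_neg_eq_add, mul_add, ← C_mul, mul_div_cancel₀ _ h6]
      exact h5
    refine ⟨d, fun z hz hz' => ?_⟩
    have hFz : F.eval z ≠ 0 := by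
      intro h0
      have h1 := congrArg (Polynomial.eval z) hBf
      rw [eval_sub, eval_pow, eval_ofNat, eval_mul, eval_pow, h0, hz] at h1
      norm_num at h1
    have h2FL : 2 * F * L = 2 * derivative B * f + B * derivative f := by
      apply mul_left_cancel₀ hB0
      rw [← hder, hL]
      ring
    have hBL : B.eval z = 0 ∧ L.eval z = 0 := by
      have h5 := congrArg (Polynomial.eval z) h2FL
      simp only [eval_mul, eval_add, eval_ofNat, hz, mul_zero, zero_add] at h5
      rw [hL, eval_mul] at hz'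
      rcases mul_eq_zero.1 hz' with h6 | h6
      · refine ⟨h6, ?_⟩
        rw [h6, zero_mul] at h5
        exact (mul_eq_zero.1 h5).resolve_left (mul_ne_zero two_ne_zero hFz)
      · refine ⟨?_, h6⟩
        rw [h6, mul_zero] at h5
        exact (mul_eq_zero.1 h5.symm).resolve_right (hsep z hz)
    have hzd : z = d := by
      have h5 := hBL.2
      rw [hLcd, eval_mul, eval_C, eval_sub, eval_X, eval_C] at h5
      exact sub_eq_zero.1 ((mul_eq_zero.1 h5).resolve_left hc0)
    refine ⟨hzd, ?_⟩
    obtain ⟨B1, hB1⟩ := dvd_iff_isRoot.2 (show IsRoot B z from hBL.1)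
    obtain ⟨f1, hf1⟩ := dvd_iff_isRoot.2 (show IsRoot f z from hz)
    have hf1z : f1.eval z ≠ 0 := by
      intro h0
      apply hsep z hz
      rw [hf1, derivative_mul, eval_add, eval_mul, eval_mul, h0, mul_zero, eval_sub, eval_X,
        eval_C, sub_self, zero_mul, add_zero]
    have hX0 : (X - C z : ℂ[X]) ≠ 0 := X_sub_C_ne_zero z
    have h7 : 2 * F * C c = 2 * (B1 + (X - C z) * derivative B1) * f1 +
        B1 * (f1 + (X - C z) * derivative f1) := by
      apply mul_left_cancel₀ hX0
      have h8 := h2FL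
      rw [hLcd, ← hzd] at h8
      have e1 : derivative B = B1 + (X - C z) * derivative B1 := by
        rw [hB1, derivative_mul, derivative_sub, derivative_X, derivative_C, sub_zero, one_mul]
      have e2 : derivative f = f1 + (X - C z) * derivative f1 := by
        rw [hf1, derivative_mul, derivative_sub, derivative_X, derivative_C, sub_zero, one_mul]
      rw [e1, e2] at h8
      rw [hB1, hf1] at h8
      linear_combination h8
    have hB1z : B1.eval z ≠ 0 := by
      intro h0
      have h8 := congrArg (Polynomial.eval z) h7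
      simp only [eval_mul, eval_add, eval_ofNat, eval_C, eval_sub, eval_X, sub_self, zero_mul,
        h0, zero_add, mul_zero] at h8
      exact (mul_ne_zero (mul_ne_zero two_ne_zero hFz) hc0) h8
    refine ⟨C c * B1, B1 ^ 2 * f1, ?_, ?_, ?_, ?_⟩
    · rw [hL, hLcd, ← hzd, hB1]
      ring
    · rw [hBf, hB1, hf1]
      ring
    · rw [eval_mul, eval_C]
      exact mul_ne_zero hc0 hB1z
    · rw [eval_mul, eval_pow]
      exact mul_ne_zero (pow_ne_zero 2 hB1z) hf1z

theorem exists_star {F B f : ℂ[X]} (hn0 : 0 < F.natDegree) {m : ℕ}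
    (hBf : F ^ 2 - 4 = B ^ 2 * f) (hfd : f.natDegree = m + 2) (hf : f.Separable)
    (hcop : IsCoprime B f ∨ f.natDegree = 4) : Nonempty (Star F m) := by
  classical
  obtain ⟨x₀, hx₀⟩ := bad_data hn0 hBf hf hcop
  have hf0 : f ≠ 0 := hf.ne_zero
  have hnd : f.roots.Nodup := nodup_roots hf
  set R := f.roots.toFinset with hR
  have hRv : R.val = f.roots := by
    rw [hR, Multiset.toFinset_val, Multiset.dedup_eq_self.2 hnd]
  have hcard : R.card = m + 2 := by
    show Multiset.card R.val = m + 2
    rw [hRv, ← (IsAlgClosed.splits f).natDegree_eq_card_roots, hfd]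
  have hprod : f = C f.leadingCoeff * ∏ x ∈ R, (X - C x) := by
    rw [Finset.prod_eq_multiset_prod, hRv]
    exact (IsAlgClosed.splits f).eq_prod_roots
  obtain ⟨u, hu⟩ := IsAlgClosed.exists_pow_nat_eq f.leadingCoeff (n := 2) (by norm_num)
  have hu0 : u ≠ 0 := by
    intro h0
    rw [h0, zero_pow two_ne_zero] at hu
    exact leadingCoeff_ne_zero.2 hf0 hu.symm
  obtain ⟨eq, heq⟩ : ∃ eq : Fin (m + 2) ≃ R, ∀ i, (eq i : ℂ) = x₀ → i = 1 := by
    let eq0 := (R.equivFinOfCardEq hcard).symm
    by_cases hmem : x₀ ∈ R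
    · refine ⟨(Equiv.swap 1 (eq0.symm ⟨x₀, hmem⟩)).trans eq0, fun i hi => ?_⟩
      have h1 : eq0 (Equiv.swap 1 (eq0.symm ⟨x₀, hmem⟩) i) = ⟨x₀, hmem⟩ := Subtype.ext hi
      have h2 : Equiv.swap 1 (eq0.symm ⟨x₀, hmem⟩) i = eq0.symm ⟨x₀, hmem⟩ :=
        (Equiv.eq_symm_apply eq0).2 h1
      rw [Equiv.swap_apply_eq_iff, Equiv.swap_apply_right] at h2
      exact h2
    · refine ⟨eq0, fun i hi => ?_⟩
      exact absurd (hi ▸ (eq0 i).2) hmem
  let e : Fin (m + 2) → ℂ := fun i => (eq i : ℂ)
  have hinj : Function.Injective e := Subtype.val_injective.comp eq.injective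
  have hroot : ∀ i, f.eval (e i) = 0 := by
    intro i
    have h1 : e i ∈ f.roots.toFinset := (eq i).2
    rw [Multiset.mem_toFinset, mem_roots hf0] at h1
    exact h1
  have hev : ∀ x, F.eval x ^ 2 - 4 = B.eval x ^ 2 * f.eval x := by
    intro x
    have h1 := congrArg (Polynomial.eval x) hBf
    rwa [eval_sub, eval_pow, eval_ofNat, eval_mul, eval_pow] at h1
  have hder : ∀ x, 2 * F.eval x * F.derivative.eval x =
      2 * B.eval x * B.derivative.eval x * f.eval x + B.eval x ^ 2 * f.derivative.eval x := by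
    intro x
    have h1 := congrArg (fun p => (derivative p).eval x) hBf
    simp only [derivative_sub, derivative_pow, derivative_mul, derivative_ofNat, eval_sub, eval_mul,
      eval_add, eval_pow, eval_zero, Nat.cast_ofNat, map_ofNat, eval_ofNat] at h1
    norm_num at h1
    linear_combination h1
  have hB : ∀ x, B.eval x = 0 → F.derivative.eval x = 0 := by
    intro x hx
    have h1 := hev x
    have h2 := hder x
    rw [hx] at h1 h2
    have h3 : F.eval x ≠ 0 := by
      intro h0
      rw [h0] at h1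
      norm_num at h1
    have h4 : 2 * F.eval x * F.derivative.eval x = 0 := by
      rw [h2]
      ring
    exact (mul_eq_zero.1 h4).resolve_left (mul_ne_zero two_ne_zero h3)
  have hF'e : ∀ i, F.derivative.eval (e i) = 0 → i = 1 := fun i h0 =>
    heq i (hx₀ (e i) (hroot i) h0).1
  have hd : derivative F ≠ 0 := by
    intro h
    have := derivative_eq_zero.1 h
    omega
  let ι := Fin (m + 2) ⊕ ({p : Fin (m + 2) × Fin (m + 2) // p.1 ≠ p.2} ⊕
    {q : Fin (m + 2) × ℂ // q.2 ∈ (derivative F).roots.toFinset ∧ q.2 ≠ e q.1})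
  let P : ι → ℂ[X] := Sum.elim (fun i => (C (e i) - X) ^ F.natDegree)
    (Sum.elim (fun p => lineP (e p.1.1) (e p.1.2)) fun p => lineP p.1.2 (e p.1.1))
  have : Finite {q : Fin (m + 2) × ℂ // q.2 ∈ (derivative F).roots.toFinset ∧ q.2 ≠ e q.1} := by
    refine Set.Finite.to_subtype (Set.Finite.subset
      ((Set.finite_univ (α := Fin (m + 2))).prod (derivative F).roots.toFinset.finite_toSet) ?_)
    rintro ⟨i, z⟩ ⟨h1, _⟩
    exact ⟨mem_univ _, h1⟩
  have hP : ∀ i, 0 < (P i).natDegree := by
    rintro (i | ⟨⟨i, k⟩, hik⟩ | ⟨⟨i, z⟩, hz, hzi⟩)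
    · show 0 < ((C (e i) - X) ^ F.natDegree).natDegree
      rw [natDegree_pow, ← neg_sub, natDegree_neg, natDegree_X_sub_C, mul_one]
      exact hn0
    · exact lineP_natDegree fun h => hik (hinj h)
    · exact lineP_natDegree hzi
  obtain ⟨a, ha⟩ := exists_im P hP
  obtain ⟨ya, hya⟩ := IsAlgClosed.exists_pow_nat_eq (∏ k, (a - e k)) (n := 2) (by norm_num)
  have hlin : ∀ i, ((e i - a) ^ F.natDegree).im ≠ 0 := by
    intro i
    have h1 := ha (Sum.inl i)
    have h2 : (P (Sum.inl i)).eval a = (e i - a) ^ F.natDegree := by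
      show ((C (e i) - X) ^ F.natDegree : ℂ[X]).eval a = _
      rw [eval_pow, eval_sub, eval_C, eval_X]
    rwa [h2] at h1
  refine ⟨⟨C u * B, e, a, ya, ?_, ?_, hya, ?_, ?_, ?_, ?_, hlin⟩⟩
  · intro x
    have h1 := congrArg (Polynomial.eval x) hprod
    rw [eval_mul, eval_C, eval_prod] at h1
    have h2 : ∏ j ∈ R, eval x (X - C j) = ∏ k, (x - e k) := by
      rw [← Finset.prod_coe_sort]
      refine (Fintype.prod_equiv eq _ _ fun i => ?_).symm
      rw [eval_sub, eval_X, eval_C]
    rw [hev, h1, h2, eval_mul, eval_C, mul_pow, hu]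
    ring
  · intro x hx
    rw [eval_mul, eval_C] at hx
    exact hB x ((mul_eq_zero.1 hx).resolve_left hu0)
  · intro i h0
    apply hlin i
    rw [h0, zero_pow hn0.ne', Complex.zero_im]
  · intro i k hik
    exact lineP_im (ha (Sum.inr (Sum.inl ⟨(i, k), hik⟩)))
  · intro i p hp
    by_cases hpi : p = e i
    · left
      have h1 : i = 1 := hF'e i (by rw [← hpi]; exact hp)
      exact ⟨h1, by rw [hpi, h1]⟩
    · right
      refine lineP_im (ha (Sum.inr (Sum.inr ⟨(i, p), ?_, hpi⟩)))
      rw [Multiset.mem_toFinset, mem_roots hd]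
      exact hp
  · by_cases h1 : F.derivative.eval (e 1) = 0
    · exact Or.inr (hx₀ (e 1) (hroot 1) h1).2
    · exact Or.inl h1

end Pool.Agent.E8helper67.PS
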