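import Pool.Agent.E8helper67.PS.Star
set_option autoImplicit false

/-!
The function `W` of the closed curve made of two arms.
-/

namespace Pool.Agent.E8helper67.PS

open Polynomial MeasureTheory Set Filter Topology

theorem sg_zero : sg 0 = 1 := sg_one (by rw [mul_zero, Real.cos_zero]; norm_num)

theorem sg_end : sg 1 = 1 := sg_one (by rw [mul_one, Real.cos_two_pi]; norm_num)

theorem sg_half : sg (1 / 2) = -1 :=
  sg_neg_one (by
    rw [show 2 * Real.pi * (1 / 2) = Real.pi by ring, Real.cos_pi]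
    norm_num)

theorem sin_pos {θ : ℝ} (h : θ ∈ Ioo (0 : ℝ) (1 / 2)) : 0 < Real.sin (2 * Real.pi * θ) := by
  have hp := Real.pi_pos
  refine Real.sin_pos_of_pos_of_lt_pi (by have := h.1; positivity) ?_
  nlinarith [h.2]

theorem sin_neg {θ : ℝ} (h : θ ∈ Ioo (1 / 2 : ℝ) 1) : Real.sin (2 * Real.pi * θ) < 0 := by
  have hp := Real.pi_pos
  rw [← Real.sin_sub_two_pi]
  refine Real.sin_neg_of_neg_of_neg_pi_lt ?_ ?_
  · nlinarith [h.2]
  · nlinarith [h.1]

namespace Star

variable {F : ℂ[X]} {m : ℕ} (st : Star F m)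

theorem ell_pos {i : Fin (m + 2)} (hi : i ≠ 1) (j : Fin (m + 2)) {θ : ℝ} (h : 0 < Real.sin (2 * Real.pi * θ)) :
    (st.loop i j).ell θ = deriv sg θ * st.Lg i (sg θ) ∧ (st.loop i j).x θ = st.X i (sg θ) := by
  have hs : HasDerivAt sg (deriv sg θ) θ :=
    (sg_contDiff.differentiable (by norm_num) θ).hasDerivAt
  have h1 : HasDerivAt (fun s => st.Z i (sg s)) (deriv sg θ • (st.Lg i (sg θ) * st.Z i (sg θ))) θ :=
    HasDerivAt.scomp θ (st.hasDerivAt_Z hi (sg θ)) hs
  have h2 := glue_pos (st.Z i) (st.Z j) h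
  have h3 : HasDerivAt (st.loop i j).z (deriv sg θ • (st.Lg i (sg θ) * st.Z i (sg θ))) θ :=
    h1.congr_of_eventuallyEq h2
  constructor
  · unfold Lp.ell
    have h4 : (st.loop i j).z θ = st.Z i (sg θ) := h2.self_of_nhds
    rw [h3.deriv, h4, Complex.real_smul, ← mul_assoc, mul_div_assoc, div_self (st.Z_ne i _),
      mul_one]
  · exact (glue_pos (st.X i) (st.X j) h).self_of_nhds

theorem ell_neg (i : Fin (m + 2)) {j : Fin (m + 2)} (hj : j ≠ 1) {θ : ℝ} (h : Real.sin (2 * Real.pi * θ) < 0) :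
    (st.loop i j).ell θ = deriv sg θ * st.Lg j (sg θ) ∧ (st.loop i j).x θ = st.X j (sg θ) := by
  have hs : HasDerivAt sg (deriv sg θ) θ :=
    (sg_contDiff.differentiable (by norm_num) θ).hasDerivAt
  have h1 : HasDerivAt (fun s => st.Z j (sg s)) (deriv sg θ • (st.Lg j (sg θ) * st.Z j (sg θ))) θ :=
    HasDerivAt.scomp θ (st.hasDerivAt_Z hj (sg θ)) hs
  have h2 := glue_neg (st.Z i) (st.Z j) h
  have h3 : HasDerivAt (st.loop i j).z (deriv sg θ • (st.Lg j (sg θ) * st.Z j (sg θ))) θ :=
    h1.congr_of_eventuallyEq h2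
  constructor
  · unfold Lp.ell
    have h4 : (st.loop i j).z θ = st.Z j (sg θ) := h2.self_of_nhds
    rw [h3.deriv, h4, Complex.real_smul, ← mul_assoc, mul_div_assoc, div_self (st.Z_ne j _),
      mul_one]
  · exact (glue_neg (st.X i) (st.X j) h).self_of_nhds

theorem arm_int {i : Fin (m + 2)} (h1 : i ≠ 1) {b : ℂ} (hi : st.OffArm i b) (p q : ℝ) :
    ∫ θ in p..q, deriv sg θ • (st.Lg i (sg θ) / (st.X i (sg θ) - b)) =
      ∫ w in sg p..sg q, st.Lg i w / (st.X i w - b) := by
  have hd : Continuous (deriv sg) := sg_contDiff.continuous_deriv (by norm_num)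
  have h := intervalIntegral.integral_deriv_smul_comp' (a := p) (b := q) (f := sg)
    (f' := deriv sg) (g := fun w => st.Lg i w / (st.X i w - b))
    (fun θ _ => (sg_contDiff.differentiable (by norm_num) θ).hasDerivAt) hd.continuousOn ?_
  · exact h
  · refine ContinuousOn.div (st.Lg_continuous h1).continuousOn
      ((st.X_contDiff i).continuous.continuousOn.sub continuousOn_const) ?_
    rintro _ ⟨θ, _, rfl⟩
    exact sub_ne_zero.2 (hi _ (sg_abs θ))

theorem W_loop {i j : Fin (m + 2)} (i1 : i ≠ 1) (j1 : j ≠ 1) {b : ℂ} (hi : st.OffArm i b) (hj : st.OffArm j b) :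
    (st.loop i j).W b = st.I j b - st.I i b := by
  have hoff := st.loop_off hi hj
  set γ := st.loop i j with hγ
  have hc : Continuous fun t => γ.ell t / (γ.x t - b) :=
    γ.continuous_ell.div (γ.continuous_x.sub continuous_const) fun t => sub_ne_zero.2 (hoff t)
  unfold Lp.W
  rw [← intervalIntegral.integral_add_adjacent_intervals (b := 1 / 2)
    (hc.intervalIntegrable _ _) (hc.intervalIntegrable _ _),
    intervalIntegral.integral_congr_Ioo_of_le
      (g := fun θ => deriv sg θ • (st.Lg i (sg θ) / (st.X i (sg θ) - b))) (by norm_num),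
    intervalIntegral.integral_congr_Ioo_of_le (a := 1 / 2)
      (g := fun θ => deriv sg θ • (st.Lg j (sg θ) / (st.X j (sg θ) - b))) (by norm_num),
    st.arm_int i1 hi, st.arm_int j1 hj, sg_zero, sg_half, sg_end, intervalIntegral.integral_symm]
  · unfold I
    ring
  · intro θ hθ
    have h := st.ell_neg i j1 (sin_neg hθ)
    simp only [hγ]
    rw [h.1, h.2, Complex.real_smul, mul_div_assoc]
  · intro θ hθ
    have h := st.ell_pos i1 j (sin_pos hθ)
    simp only [hγ]
    rw [h.1, h.2, Complex.real_smul, mul_div_assoc]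

end Star

end Pool.Agent.E8helper67.PS
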